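import Pool.Agent.P.MP_bc3e0b_gt.Key

set_option autoImplicit false

namespace Pool.Agent.P.MP_bc3e0b_gt

open MeasureTheory Set Filter Topology Matrix

/-- Orthant integral of the unnormalised density. -/
noncomputable def IM {n : ℕ} (M : Matrix (Fin n) (Fin n) ℝ) : ℝ := ∫ y, gauss M y ∂mu n

/-- Logarithm of the orthant probability, up to a dimensional constant. -/
noncomputable def Lam {n : ℕ} (R : Matrix (Fin n) (Fin n) ℝ) : ℝ :=
  Real.log (IM R⁻¹) - Real.log R.det / 2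

/-- Correlation matrices with spectrum bounded below by `η`. -/
structure Adm {n : ℕ} (η : ℝ) (R : Matrix (Fin n) (Fin n) ℝ) : Prop where
  symm : R.IsSymm
  diag : ∀ i, R i i = 1
  low : ∀ x, η * (x ⬝ᵥ x) ≤ x ⬝ᵥ R *ᵥ x

variable {n : ℕ} {η : ℝ} {R : Matrix (Fin n) (Fin n) ℝ}

theorem IM_pos {M : Matrix (Fin n) (Fin n) ℝ} (h : Coer M) : 0 < IM M :=
  integral_exp_pos (GB_gauss h).integrable

theorem abs_quad_le (B : Matrix (Fin n) (Fin n) ℝ) (y : Fin n → ℝ) :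
    |y ⬝ᵥ B *ᵥ y| ≤ (∑ i, ∑ j, |B i j|) * (y ⬝ᵥ y) := by
  simp only [dotProduct, mulVec, Finset.mul_sum]
  refine (Finset.abs_sum_le_sum_abs _ _).trans ?_
  rw [← Finset.mul_sum, Finset.sum_mul]
  refine Finset.sum_le_sum fun i _ => (Finset.abs_sum_le_sum_abs _ _).trans ?_
  rw [Finset.sum_mul]
  refine Finset.sum_le_sum fun j _ => ?_
  have h1 := sq_le_dot y i
  have h2 := sq_le_dot y j
  have h3 : |y i| * |y j| ≤ y ⬝ᵥ y := by
    nlinarith [sq_abs (y i), sq_abs (y j), sq_nonneg (|y i| - |y j|)]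
  rw [abs_mul, abs_mul]
  calc |y i| * (|B i j| * |y j|) = |B i j| * (|y i| * |y j|) := by ring
    _ ≤ _ := mul_le_mul_of_nonneg_left h3 (abs_nonneg _)

theorem quad_pair (hs : R.IsSymm) (i j : Fin n) (a b : ℝ) :
    (Pi.single i a + Pi.single j b : Fin n → ℝ) ⬝ᵥ R *ᵥ (Pi.single i a + Pi.single j b)
      = a ^ 2 * R i i + 2 * a * b * R i j + b ^ 2 * R j j := by
  simp only [mulVec_add, add_dotProduct, dotProduct_add, single_dotProduct, mulVec_single,
    Pi.smul_apply, col_apply, MulOpposite.smul_eq_mul_unop, MulOpposite.unop_op, hs.apply i j]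
  ring

theorem dot_pair {i j : Fin n} (hij : i ≠ j) (a b : ℝ) :
    (Pi.single i a + Pi.single j b : Fin n → ℝ) ⬝ᵥ (Pi.single i a + Pi.single j b)
      = a ^ 2 + b ^ 2 := by
  simp [dotProduct_add, hij, hij.symm]
  ring

namespace Adm

theorem nonneg (h : Adm η R) (hη : 0 < η) (x : Fin n → ℝ) : 0 ≤ x ⬝ᵥ R *ᵥ x :=
  (mul_nonneg hη.le (dot_self_nonneg x)).trans (h.low x)

theorem posDef (h : Adm η R) (hη : 0 < η) : R.PosDef := by
  refine PosDef.of_dotProduct_mulVec_pos (by simpa [IsHermitian] using h.symm.eq) fun x hx => ?_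
  have h1 : 0 < x ⬝ᵥ x := lt_of_le_of_ne (dot_self_nonneg x)
    fun e => hx (dotProduct_self_eq_zero.1 e.symm)
  simpa using (mul_pos hη h1).trans_le (h.low x)

theorem det_pos (h : Adm η R) (hη : 0 < η) : 0 < R.det := (h.posDef hη).det_pos

theorem mul_inv (h : Adm η R) (hη : 0 < η) : R * R⁻¹ = 1 :=
  mul_nonsing_inv _ (h.det_pos hη).ne'.isUnit

theorem inv_mul (h : Adm η R) (hη : 0 < η) : R⁻¹ * R = 1 :=
  nonsing_inv_mul _ (h.det_pos hη).ne'.isUnit

theorem inv_symm (h : Adm η R) : R⁻¹.IsSymm := by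
  rw [IsSymm, transpose_nonsing_inv, h.symm.eq]

theorem off_le (h : Adm η R) {i j : Fin n} (hij : i ≠ j) : R i j ≤ 1 - η := by
  have := h.low (Pi.single i 1 + Pi.single j (-1))
  rw [quad_pair h.symm, dot_pair hij, h.diag, h.diag] at this
  linarith

theorem abs_le_one (h : Adm η R) (hη : 0 < η) (i j : Fin n) : |R i j| ≤ 1 := by
  have h1 := h.nonneg hη (Pi.single i 1 + Pi.single j (-1))
  have h2 := h.nonneg hη (Pi.single i 1 + Pi.single j 1)
  rw [quad_pair h.symm, h.diag, h.diag] at h1 h2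
  rw [abs_le]
  constructor <;> linarith

theorem inv_ge (h : Adm η R) (hη : 0 < η) (y v : Fin n → ℝ) :
    2 * (v ⬝ᵥ y) - v ⬝ᵥ R *ᵥ v ≤ y ⬝ᵥ R⁻¹ *ᵥ y := by
  have h1 := h.nonneg hη (R⁻¹ *ᵥ y - v)
  have e : R *ᵥ (R⁻¹ *ᵥ y) = y := by rw [mulVec_mulVec, h.mul_inv hη, one_mulVec]
  rw [mulVec_sub, sub_dotProduct, dotProduct_sub, dotProduct_sub, e,
    dot_mulVec_comm h.symm (R⁻¹ *ᵥ y) v, e, dotProduct_comm (R⁻¹ *ᵥ y) y] at h1
  linarith

theorem quad_le (h : Adm η R) (hη : 0 < η) (y : Fin n → ℝ) :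
    y ⬝ᵥ R *ᵥ y ≤ ((n : ℝ) ^ 2 + 1) * (y ⬝ᵥ y) := by
  refine (le_abs_self _).trans ((abs_quad_le R y).trans ?_)
  refine mul_le_mul_of_nonneg_right ?_ (dot_self_nonneg y)
  calc ∑ i, ∑ j, |R i j| ≤ ∑ _i : Fin n, ∑ _j : Fin n, (1 : ℝ) :=
        Finset.sum_le_sum fun i _ => Finset.sum_le_sum fun j _ => h.abs_le_one hη i j
    _ = (n : ℝ) ^ 2 := by simp [sq]
    _ ≤ _ := by linarith

theorem inv_low (h : Adm η R) (hη : 0 < η) (y : Fin n → ℝ) :
    ((n : ℝ) ^ 2 + 1)⁻¹ * (y ⬝ᵥ y) ≤ y ⬝ᵥ R⁻¹ *ᵥ y := by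
  have h1 := h.inv_ge hη y (((n : ℝ) ^ 2 + 1)⁻¹ • y)
  have h2 := h.quad_le hη y
  set N : ℝ := (n : ℝ) ^ 2 + 1 with hN
  have hN0 : 0 < N := by positivity
  simp only [mulVec_smul, smul_dotProduct, dotProduct_smul, smul_eq_mul] at h1
  have h3 : N⁻¹ * (N⁻¹ * (y ⬝ᵥ R *ᵥ y)) ≤ N⁻¹ * (y ⬝ᵥ y) := by
    refine mul_le_mul_of_nonneg_left ?_ (by positivity)
    rw [inv_mul_le_iff₀ hN0]
    exact h2
  linarith

theorem coer_inv (h : Adm η R) (hη : 0 < η) : Coer R⁻¹ :=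
  ⟨_, by positivity, h.inv_low hη⟩

theorem inv_up (h : Adm η R) (hη : 0 < η) (y : Fin n → ℝ) :
    y ⬝ᵥ R⁻¹ *ᵥ y ≤ η⁻¹ * (y ⬝ᵥ y) := by
  have e : R *ᵥ (R⁻¹ *ᵥ y) = y := by rw [mulVec_mulVec, h.mul_inv hη, one_mulVec]
  have h1 := h.low (R⁻¹ *ᵥ y)
  rw [e] at h1
  set x := R⁻¹ *ᵥ y
  have h2 := dot_self_nonneg (η • x - y)
  simp only [sub_dotProduct, dotProduct_sub, smul_dotProduct, dotProduct_smul, smul_eq_mul] at h2
  rw [dotProduct_comm y x] at h2 ⊢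
  rw [le_inv_mul_iff₀ hη]
  nlinarith

theorem kappa (h : Adm η R) (hη : 0 < η) {i j : Fin n} (hij : i ≠ j) (y : Fin n → ℝ) :
    0 ≤ (1 - R i j)⁻¹ * y i * y j + (y ⬝ᵥ R⁻¹ *ᵥ y) / 2 := by
  have hw : 0 < 1 - R i j := by linarith [h.off_le hij]
  set κ := (1 - R i j)⁻¹ with hκ
  have hκ0 : 0 < κ := by positivity
  have hκ1 : κ * (1 - R i j) = 1 := inv_mul_cancel₀ hw.ne'
  have h1 := h.inv_ge hη y (Pi.single i (κ * (y i - y j) / 2) + Pi.single j (-(κ * (y i - y j) / 2)))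
  rw [quad_pair h.symm, h.diag, h.diag] at h1
  simp only [add_dotProduct, single_dotProduct] at h1
  have e : (κ * (y i - y j) / 2) ^ 2 * 1 + 2 * (κ * (y i - y j) / 2) * -(κ * (y i - y j) / 2) * R i j
      + (-(κ * (y i - y j) / 2)) ^ 2 * 1 = κ * (y i - y j) ^ 2 / 2 * (κ * (1 - R i j)) := by ring
  rw [e, hκ1] at h1
  nlinarith [mul_nonneg hκ0.le (sq_nonneg (y i + y j))]

theorem perm (h : Adm η R) (σ : Equiv.Perm (Fin n)) : Adm η (R.submatrix σ σ) := by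
  refine ⟨h.symm.submatrix σ, fun i => h.diag _, fun y => ?_⟩
  have e : y = (y ∘ σ.symm) ∘ σ := by funext i; simp
  have := h.low (y ∘ σ.symm)
  rw [← dot_perm σ, ← dot_perm σ _ (R *ᵥ _), ← mulVec_submatrix_perm, ← e] at this
  exact this

end Adm

theorem Lam_perm (R : Matrix (Fin n) (Fin n) ℝ) (σ : Equiv.Perm (Fin n)) :
    Lam (R.submatrix σ σ) = Lam R := by
  rw [Lam, Lam, inv_submatrix_equiv, det_submatrix_equiv_self, IM, IM, integral_gauss_perm]

theorem continuousAt_inv_of_det {A : Matrix (Fin n) (Fin n) ℝ} (h : A.det ≠ 0) :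
    ContinuousAt (fun B : Matrix (Fin n) (Fin n) ℝ => B⁻¹) A := by
  refine continuousAt_matrix_inv A ?_
  rw [Ring.inverse_eq_inv']
  exact continuousAt_inv₀ h

theorem continuousOn_Lam (hη : 0 < η) :
    ContinuousOn (Lam : Matrix (Fin n) (Fin n) ℝ → ℝ) {R | Adm η R} := by
  have : FirstCountableTopology (Matrix (Fin n) (Fin n) ℝ) :=
    inferInstanceAs (FirstCountableTopology (Fin n → Fin n → ℝ))
  have h1 : ContinuousOn (fun R : Matrix (Fin n) (Fin n) ℝ => IM R⁻¹) {R | Adm η R} := by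
    refine continuousOn_of_dominated
      (bound := fun y => Real.exp (-(((n : ℝ) ^ 2 + 1)⁻¹ / 2) * (y ⬝ᵥ y)))
      (fun R _ => (continuous_gauss _).aestronglyMeasurable)
      (fun R hR => Eventually.of_forall fun y => ?_) (integrable_gauss n (by positivity))
      (Eventually.of_forall fun y R hR => ?_)
    · rw [Real.norm_of_nonneg (gauss_pos _ _).le, gauss]
      exact Real.exp_le_exp.2 (by linarith [Adm.inv_low hR hη y])
    · have h2 : Continuous fun M : Matrix (Fin n) (Fin n) ℝ => gauss M y := by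
        unfold gauss
        fun_prop
      exact (h2.continuousAt.comp
        (continuousAt_inv_of_det (Adm.det_pos hR hη).ne')).continuousWithinAt
  refine (h1.log fun R hR => (IM_pos (Adm.coer_inv hR hη)).ne').sub ?_
  refine (ContinuousOn.log ?_ fun R hR => (Adm.det_pos hR hη).ne').div_const 2
  exact (continuous_id.matrix_det).continuousOn

theorem hasDerivAt_mul_of_continuousAt {v : ℝ → ℝ} (hv : ContinuousAt v 0) :
    HasDerivAt (fun θ => θ * v θ) (v 0) 0 := by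
  rw [hasDerivAt_iff_tendsto_slope_zero]
  refine (hv.tendsto.mono_left nhdsWithin_le_nhds).congr' ?_
  filter_upwards [self_mem_nhdsWithin] with θ hθ
  have : θ ≠ 0 := hθ
  simp only [zero_add, zero_mul, sub_zero, smul_eq_mul]
  field_simp

theorem hasDerivAt_det (hR : R.det ≠ 0) (H : Matrix (Fin n) (Fin n) ℝ) :
    HasDerivAt (fun θ : ℝ => (R + θ • H).det) (R.det * (R⁻¹ * H).trace) 0 := by
  have e : ∀ θ : ℝ, (R + θ • H).det = R.det * (1 + θ * ((R⁻¹ * H).trace + θ *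
      (det (1 + (Polynomial.X : Polynomial ℝ) • (R⁻¹ * H).map Polynomial.C)).divX.divX.eval θ)) := by
    intro θ
    have : R + θ • H = R * (1 + θ • (R⁻¹ * H)) := by
      rw [Matrix.mul_add, Matrix.mul_one, Matrix.mul_smul, mul_nonsing_inv_cancel_left _ _ hR.isUnit]
    rw [this, det_mul, det_one_add_smul]
    ring
  simp only [e]
  have := ((hasDerivAt_mul_of_continuousAt (v := fun θ : ℝ => (R⁻¹ * H).trace + θ *
      (det (1 + (Polynomial.X : Polynomial ℝ) • (R⁻¹ * H).map Polynomial.C)).divX.divX.eval θ)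
    (by fun_prop)).const_add 1).const_mul R.det
  exact this.congr_deriv (by simp)

theorem hasDerivAt_IM (h : Adm η R) (hη : 0 < η) (H : Matrix (Fin n) (Fin n) ℝ) :
    HasDerivAt (fun θ : ℝ => IM (R + θ • H)⁻¹)
      (∫ y, (y ⬝ᵥ (R⁻¹ * H * R⁻¹) *ᵥ y) / 2 * gauss R⁻¹ y ∂mu n) 0 := by
  obtain ⟨c, c0, hc⟩ := h.coer_inv hη
  have hdet := (h.det_pos hη).ne'
  set B : ℝ → Matrix (Fin n) (Fin n) ℝ := fun θ => R⁻¹ * H * (R + θ • H)⁻¹ with hB
  have hline : Continuous fun θ : ℝ => R + θ • H := by fun_prop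
  have hBc : ContinuousAt B 0 := by
    refine continuousAt_const.mul ?_
    exact ContinuousAt.comp (g := fun B : Matrix (Fin n) (Fin n) ℝ => B⁻¹)
      (continuousAt_inv_of_det (by simpa using hdet)) hline.continuousAt
  have hB0 : B 0 = R⁻¹ * H * R⁻¹ := by simp [hB]
  set C : ℝ := ∑ i, ∑ j, |B 0 i j| + 1 with hC
  have hC0 : 0 < C := by positivity
  have e1 : ∀ᶠ θ : ℝ in 𝓝 0, (R + θ • H).det ≠ 0 :=
    (hline.matrix_det.continuousAt (x := 0)).eventually_ne (by simpa using hdet)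
  have e2 : ∀ᶠ θ : ℝ in 𝓝 0, ∑ i, ∑ j, |B θ i j| ≤ C := by
    have hc2 : Continuous fun A : Matrix (Fin n) (Fin n) ℝ => ∑ i, ∑ j, |A i j| := by fun_prop
    have := (hc2.continuousAt.comp hBc).eventually_lt (g := fun _ => C) continuousAt_const
      (by simp [hC])
    exact this.mono fun θ hθ => hθ.le
  have e3 : ∀ᶠ θ : ℝ in 𝓝 0, |θ| * C ≤ c / 2 := by
    have : ContinuousAt (fun θ : ℝ => |θ| * C) 0 := by fun_prop
    exact (this.eventually_lt (g := fun _ => c / 2) continuousAt_const (by simpa using c0)).mono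
      fun θ hθ => hθ.le
  have hinv : ∀ θ : ℝ, (R + θ • H).det ≠ 0 → (R + θ • H)⁻¹ = R⁻¹ - θ • B θ := by
    intro θ hθ
    have h1 : R⁻¹ * ((R + θ • H) * (R + θ • H)⁻¹) = R⁻¹ := by
      rw [mul_nonsing_inv _ hθ.isUnit, Matrix.mul_one]
    rw [Matrix.add_mul, Matrix.mul_add, nonsing_inv_mul_cancel_left _ _ hdet.isUnit,
      Matrix.smul_mul, Matrix.mul_smul, ← Matrix.mul_assoc] at h1
    rw [← h1]
    simp [hB]
  have hg : ∀ θ : ℝ, (R + θ • H).det ≠ 0 → ∀ y, gauss (R + θ • H)⁻¹ y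
      = gauss R⁻¹ y * Real.exp (θ * ((y ⬝ᵥ B θ *ᵥ y) / 2)) := by
    intro θ hθ y
    rw [hinv θ hθ, gauss, gauss, ← Real.exp_add, sub_mulVec, smul_mulVec, dotProduct_sub,
      dotProduct_smul, smul_eq_mul]
    congr 1
    ring
  have gG : GB fun y : Fin n → ℝ => Real.exp (-(c / 4) * (y ⬝ᵥ y)) :=
    ⟨by fun_prop, 1, c / 4, by positivity, fun y => by rw [abs_of_pos (Real.exp_pos _), one_mul]⟩
  have gb : GB fun y : Fin n → ℝ => C / 2 * ∑ i, y i * (y i * Real.exp (-(c / 4) * (y ⬝ᵥ y))) :=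
    (GB.sum _ fun i _ => (gG.coord_mul i).coord_mul i).const_mul _
  have gF : GB fun y => (y ⬝ᵥ (R⁻¹ * H * R⁻¹) *ᵥ y) / 2 * gauss R⁻¹ y := by
    have := (GB.sum Finset.univ fun i _ => ((GB_gauss (h.coer_inv hη)).mulVec_mul
      (R⁻¹ * H * R⁻¹) i).coord_mul i).const_mul (1 / 2)
    convert this using 2
    rw [dotProduct, Finset.sum_div, Finset.sum_mul, Finset.mul_sum]
    exact Finset.sum_congr rfl fun i _ => by ring
  refine hasDerivAt_integral_zero (F := fun θ y => gauss (R + θ • H)⁻¹ y)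
    (s := {θ | (R + θ • H).det ≠ 0 ∧ ∑ i, ∑ j, |B θ i j| ≤ C ∧ |θ| * C ≤ c / 2})
    (e1.and (e2.and e3)) (fun θ _ => (continuous_gauss _).aestronglyMeasurable)
    (by simpa using (GB_gauss (h.coer_inv hη)).integrable) gF.integrable
    (fun y θ hθ => ?_) gb.integrable (fun y => ?_)
  · obtain ⟨hθ1, hθ2, hθ3⟩ := hθ
    simp only [zero_smul, add_zero]
    rw [hg θ hθ1]
    have hy := dot_self_nonneg y
    set u := θ * ((y ⬝ᵥ B θ *ᵥ y) / 2) with hu
    have h1 : |u| ≤ |θ| * C * (y ⬝ᵥ y) / 2 := by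
      rw [hu, abs_mul, abs_div, abs_two]
      have := (abs_quad_le (B θ) y).trans (mul_le_mul_of_nonneg_right hθ2 hy)
      nlinarith [abs_nonneg θ]
    have h2 : |u| ≤ c / 4 * (y ⬝ᵥ y) := by nlinarith
    have h3 : gauss R⁻¹ y ≤ Real.exp (-(c / 2) * (y ⬝ᵥ y)) :=
      Real.exp_le_exp.2 (by linarith [hc y])
    have e : gauss R⁻¹ y * Real.exp u - gauss R⁻¹ y = gauss R⁻¹ y * (Real.exp u - 1) := by ring
    have e' : ∑ i, y i * (y i * Real.exp (-(c / 4) * (y ⬝ᵥ y)))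
        = (y ⬝ᵥ y) * Real.exp (-(c / 4) * (y ⬝ᵥ y)) := by
      rw [dotProduct, Finset.sum_mul]
      exact Finset.sum_congr rfl fun i _ => by ring
    rw [e, abs_mul, abs_of_pos (gauss_pos _ y), e']
    calc gauss R⁻¹ y * |Real.exp u - 1|
        ≤ Real.exp (-(c / 2) * (y ⬝ᵥ y))
          * ((|θ| * C * (y ⬝ᵥ y) / 2) * Real.exp (c / 4 * (y ⬝ᵥ y))) := by
          refine mul_le_mul h3 ((abs_exp_sub_one_le u).trans ?_) (abs_nonneg _) (Real.exp_pos _).le
          exact mul_le_mul h1 (Real.exp_le_exp.2 h2) (Real.exp_pos _).le (by positivity)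
      _ = (|θ| * C * (y ⬝ᵥ y) / 2)
          * (Real.exp (-(c / 2) * (y ⬝ᵥ y)) * Real.exp (c / 4 * (y ⬝ᵥ y))) := by ring
      _ = _ := by
          rw [← Real.exp_add, show -(c / 2) * (y ⬝ᵥ y) + c / 4 * (y ⬝ᵥ y) = -(c / 4) * (y ⬝ᵥ y) by
            ring]
          ring
  · have hq : Continuous fun A : Matrix (Fin n) (Fin n) ℝ => (y ⬝ᵥ A *ᵥ y) / 2 := by fun_prop
    have h1 := (hasDerivAt_mul_of_continuousAt (v := fun θ => (y ⬝ᵥ B θ *ᵥ y) / 2)
      (hq.continuousAt.comp hBc)).exp.const_mul (gauss R⁻¹ y)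
    refine (h1.congr_of_eventuallyEq (e1.mono fun θ hθ => hg θ hθ y)).congr_deriv ?_
    simp only [zero_mul, Real.exp_zero, one_mul, hB0]
    ring

theorem hasDerivAt_Lam (h : Adm η R) (hη : 0 < η) (H : Matrix (Fin n) (Fin n) ℝ) :
    HasDerivAt (fun θ : ℝ => Lam (R + θ • H))
      ((∑ i, ∑ j, H i j * (PiM R⁻¹ i j / IM R⁻¹)) / 2) 0 := by
  have hc := h.coer_inv hη
  have hI := IM_pos hc
  have hdet := h.det_pos hη
  have h1 := (hasDerivAt_IM h hη H).log (by simpa using hI.ne')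
  have h2 := ((hasDerivAt_det hdet.ne' H).log (by simpa using hdet.ne')).div_const 2
  refine (h1.fun_sub h2).congr_deriv ?_
  simp only [zero_smul, add_zero]
  have e1 : ∀ y, (y ⬝ᵥ (R⁻¹ * H * R⁻¹) *ᵥ y) / 2 * gauss R⁻¹ y
      = ∑ i, ∑ j, H i j / 2 * (((R⁻¹ *ᵥ y) i * (R⁻¹ *ᵥ y) j - R⁻¹ i j) * gauss R⁻¹ y
        + R⁻¹ i j * gauss R⁻¹ y) := by
    intro y
    rw [← mulVec_mulVec, ← mulVec_mulVec, dot_mulVec_comm h.inv_symm, dotProduct_comm,
      dotProduct, Finset.sum_div, Finset.sum_mul]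
    refine Finset.sum_congr rfl fun i _ => ?_
    rw [show (H *ᵥ R⁻¹ *ᵥ y) i = ∑ j, H i j * (R⁻¹ *ᵥ y) j from rfl, Finset.mul_sum,
      Finset.sum_div, Finset.sum_mul]
    exact Finset.sum_congr rfl fun j _ => by ring
  have gij := fun i j => ((GB_Pi hc i j).add ((GB_gauss hc).const_mul (R⁻¹ i j))).const_mul
    (H i j / 2)
  have e2 : ∫ y, (y ⬝ᵥ (R⁻¹ * H * R⁻¹) *ᵥ y) / 2 * gauss R⁻¹ y ∂mu n
      = ∑ i, ∑ j, H i j / 2 * (PiM R⁻¹ i j + R⁻¹ i j * IM R⁻¹) := by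
    simp only [e1]
    rw [integral_finsetSum _ fun i _ => (GB.sum _ fun j _ => gij i j).integrable]
    refine Finset.sum_congr rfl fun i _ => ?_
    rw [integral_finsetSum _ fun j _ => (gij i j).integrable]
    refine Finset.sum_congr rfl fun j _ => ?_
    rw [integral_const_mul, integral_add (GB_Pi hc i j).integrable
      ((GB_gauss hc).const_mul _).integrable, integral_const_mul]
    rfl
  have e3 : (R⁻¹ * H).trace = ∑ i, ∑ j, H i j * R⁻¹ i j := by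
    rw [trace_mul_comm]
    simp only [trace, diag, mul_apply]
    exact Finset.sum_congr rfl fun i _ => Finset.sum_congr rfl fun j _ => by
      rw [h.inv_symm.apply]
  rw [e2, e3, mul_div_cancel_left₀ _ hdet.ne', Finset.sum_div, Finset.sum_div, Finset.sum_div,
    ← Finset.sum_sub_distrib]
  refine Finset.sum_congr rfl fun i _ => ?_
  rw [Finset.sum_div, Finset.sum_div, Finset.sum_div, ← Finset.sum_sub_distrib]
  refine Finset.sum_congr rfl fun j _ => ?_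
  field_simp
  ring

end Pool.Agent.P.MP_bc3e0b_gt
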