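import Pool.Agent.P.MP_bc3e0b_gt.Minimize

set_option autoImplicit false

namespace Pool.Agent.P.MP_bc3e0b_gt

open MeasureTheory Set Filter Topology Matrix
open scoped ENNReal InnerProductSpace

theorem prod_le_one_of_sum {n : ℕ} {x : Fin n → ℝ} (h0 : ∀ i, 0 ≤ x i) (hs : ∑ i, x i = n) :
    ∏ i, x i ≤ 1 := by
  calc ∏ i, x i ≤ ∏ i, Real.exp (x i - 1) :=
        Finset.prod_le_prod (fun i _ => h0 i) fun i _ => by linarith [Real.add_one_le_exp (x i - 1)]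
    _ = 1 := by rw [← Real.exp_sum, Finset.sum_sub_distrib, hs]; simp

theorem det_sq_le {n : ℕ} (N : Matrix (Fin n) (Fin n) ℝ) {c : ℝ} (hc : 0 < c)
    (hd : ∀ i, (N * Nᵀ) i i = c) : N.det ^ 2 ≤ c ^ n := by
  have hP : (N * Nᵀ).PosSemidef := by
    simpa using posSemidef_self_mul_conjTranspose N
  have h1 := hP.isHermitian.det_eq_prod_eigenvalues
  have h2 := hP.isHermitian.trace_eq_sum_eigenvalues
  simp only [RCLike.ofReal_real_eq_id, id] at h1 h2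
  have h3 : (N * Nᵀ).trace = n * c := by simp [trace, hd]
  have h4 := prod_le_one_of_sum (x := fun i => hP.isHermitian.eigenvalues i / c)
    (fun i => div_nonneg (hP.eigenvalues_nonneg i) hc.le)
    (by rw [← Finset.sum_div, ← h2, h3, mul_div_cancel_right₀ _ hc.ne'])
  rw [Finset.prod_div_distrib, ← h1, det_mul, det_transpose, Finset.prod_const, Finset.card_univ,
    Fintype.card_fin, div_le_one (by positivity)] at h4
  rwa [sq]

/-- Homogeneous lift of the facet normals. -/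
def lift {d : ℕ} (τ : ℝ) (a : Fin (d + 1) → Fin d → ℝ) : Matrix (Fin (d + 1)) (Fin (d + 1)) ℝ :=
  Matrix.of fun i => Fin.cons τ fun l => -a i l

theorem lift_mulVec {d : ℕ} (τ : ℝ) (a : Fin (d + 1) → Fin d → ℝ) (y : Fin (d + 1) → ℝ)
    (i : Fin (d + 1)) : (lift τ a *ᵥ y) i = τ * y 0 - a i ⬝ᵥ fun l => y l.succ := by
  simp [lift, mulVec, dotProduct, Fin.sum_univ_succ, sub_eq_add_neg]

theorem lift_gram {d : ℕ} (τ : ℝ) (a : Fin (d + 1) → Fin d → ℝ) (i j : Fin (d + 1)) :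
    (lift τ a * (lift τ a)ᵀ) i j = τ ^ 2 + a i ⬝ᵥ a j := by
  simp [lift, mul_apply, dotProduct, Fin.sum_univ_succ, sq]

theorem exists_data {d : ℕ} {τ : ℝ} (hτ : 0 < τ) (a : Fin (d + 1) → Fin d → ℝ)
    (hrec : ∀ x, (∀ i, a i ⬝ᵥ x ≤ 0) → x = 0) :
    ∃ (μ : Fin (d + 1) → ℝ) (U : Matrix (Fin (d + 1)) (Fin (d + 1)) ℝ), (∀ j, 0 < μ j) ∧
      ∑ j, μ j = (d + 1 : ℕ) ∧ (∀ j, U 0 j = 1 / ((d + 1) * τ)) ∧
      diagonal μ * lift τ a * U = 1 := by
  have hdet : (lift τ a).det ≠ 0 := by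
    intro h
    obtain ⟨y, hy0, hy⟩ := exists_mulVec_eq_zero_iff.2 h
    have h1 : ∀ i, (a i ⬝ᵥ fun l => y l.succ) = τ * y 0 := fun i => by
      have := congrFun hy i
      rw [lift_mulVec, Pi.zero_apply] at this
      linarith
    have h2 : (fun l : Fin d => y l.succ) = 0 := by
      rcases le_total (y 0) 0 with h0 | h0
      · exact hrec _ fun i => by rw [h1]; nlinarith
      · have := hrec (-fun l : Fin d => y l.succ) fun i => by
          rw [dotProduct_neg, h1]; nlinarith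
        exact neg_eq_zero.1 this
    have h3 : y 0 = 0 := by
      have := h1 0
      rw [h2, dotProduct_zero] at this
      exact (mul_eq_zero.1 this.symm).resolve_left hτ.ne'
    exact hy0 (funext fun i => Fin.cases h3 (fun l => congrFun h2 l) i)
  set V := (lift τ a)⁻¹ with hV
  have hNV : lift τ a * V = 1 := mul_nonsing_inv _ hdet.isUnit
  have hVN : V * lift τ a = 1 := nonsing_inv_mul _ hdet.isUnit
  have hn : (0 : ℝ) < d + 1 := by positivity
  have hpos : ∀ j, 0 < V 0 j := by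
    intro j
    by_contra hj
    push Not at hj
    have h1 : ∀ i, τ * V 0 j - (a i ⬝ᵥ fun l => V l.succ j) = (1 : Matrix _ _ ℝ) i j := fun i => by
      rw [← hNV]
      exact (lift_mulVec τ a (fun l => V l j) i).symm
    have h2 : (fun l : Fin d => V l.succ j) = 0 := hrec _ fun i => by
      have := h1 i
      have h3 : 0 ≤ (1 : Matrix (Fin (d + 1)) (Fin (d + 1)) ℝ) i j := by
        rw [one_apply]; split_ifs <;> norm_num
      nlinarith
    have := h1 j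
    rw [h2, dotProduct_zero, one_apply_eq] at this
    nlinarith
  have hμ : ∀ j, 0 < (d + 1) * τ * V 0 j := fun j => mul_pos (mul_pos hn hτ) (hpos j)
  refine ⟨fun j => (d + 1) * τ * V 0 j, V * diagonal fun j => ((d + 1) * τ * V 0 j)⁻¹, hμ, ?_,
    fun j => ?_, ?_⟩
  · have := congrFun (congrFun hVN 0) 0
    simp only [mul_apply, lift, of_apply, Fin.cons_zero, one_apply_eq] at this
    rw [← Finset.sum_mul] at this
    rw [← Finset.mul_sum]
    push_cast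
    linear_combination (d + 1 : ℝ) * this
  · rw [mul_diagonal]
    have := (hpos j).ne'
    field_simp
  · rw [Matrix.mul_assoc, ← Matrix.mul_assoc (lift τ a), hNV, Matrix.one_mul, diagonal_mul_diagonal,
      ← diagonal_one]
    congr 1
    funext j
    exact mul_inv_cancel₀ (hμ j).ne'

section Perm

variable {k : ℕ}

theorem sum_perm_mul (F : Equiv.Perm (Fin (k + 2)) → ℝ) (σ : Equiv.Perm (Fin (k + 2))) :
    ∑ π, F (π * σ) = ∑ π, F π := Equiv.sum_comp (Equiv.mulRight σ) F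

theorem sum_perm_single (z : Fin (k + 2) → ℝ) (j : Fin (k + 2)) :
    (k + 2) * ∑ π : Equiv.Perm (Fin (k + 2)), z (π j)
      = Fintype.card (Equiv.Perm (Fin (k + 2))) * ∑ i, z i := by
  have h1 : ∀ i, ∑ π : Equiv.Perm (Fin (k + 2)), z (π i) = ∑ π : Equiv.Perm (Fin (k + 2)), z (π j) :=
    fun i => by
      rw [← sum_perm_mul (fun π => z (π i)) (Equiv.swap i j)]
      simp
  have h2 : ∑ i, ∑ π : Equiv.Perm (Fin (k + 2)), z (π i)
      = Fintype.card (Equiv.Perm (Fin (k + 2))) * ∑ i, z i := by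
    rw [Finset.sum_comm]
    simp only [Equiv.sum_comp _ z, Finset.sum_const, Finset.card_univ, nsmul_eq_mul]
  rw [← h2]
  simp only [h1, Finset.sum_const, Finset.card_univ, Fintype.card_fin, nsmul_eq_mul]
  push_cast
  ring

theorem sum_perm_pair (z : Fin (k + 2) → ℝ) (hz : ∑ i, z i = 0) :
    ∃ q : ℝ, ∀ i j, ∑ π : Equiv.Perm (Fin (k + 2)), z (π i) * z (π j)
      = q + if i = j then Fintype.card (Equiv.Perm (Fin (k + 2))) * (∑ i, z i ^ 2) / (k + 1)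
        else 0 := by
  set q := ∑ π : Equiv.Perm (Fin (k + 2)), z (π 0) * z (π 1) with hq
  have h1 : ∀ i j, i ≠ j → ∑ π : Equiv.Perm (Fin (k + 2)), z (π i) * z (π j) = q := by
    intro i j hij
    obtain ⟨σ, h0, h1⟩ := exists_perm hij
    rw [hq, ← sum_perm_mul (fun π => z (π 0) * z (π 1)) σ]
    simp [h0, h1]
  refine ⟨q, fun i j => ?_⟩
  split_ifs with hij
  · subst hij
    have h2 := sum_perm_single (fun i => z i ^ 2) i
    have h3 : ∑ j, ∑ π : Equiv.Perm (Fin (k + 2)), z (π i) * z (π j) = 0 := by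
      rw [Finset.sum_comm]
      simp only [← Finset.mul_sum, Equiv.sum_comp _ z, hz, mul_zero, Finset.sum_const_zero]
    rw [← Finset.add_sum_erase _ _ (Finset.mem_univ i),
      Finset.sum_congr rfl fun j hj => h1 i j (Finset.ne_of_mem_erase hj).symm, Finset.sum_const,
      Finset.card_erase_of_mem (Finset.mem_univ i), Finset.card_univ, Fintype.card_fin,
      nsmul_eq_mul] at h3
    simp only [sq] at h2 ⊢
    rw [← h2]
    have hk : (k + 1 : ℝ) ≠ 0 := by positivity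
    simp only [Nat.add_succ_sub_one, Nat.cast_add, Nat.cast_one] at h3
    generalize ∑ π : Equiv.Perm (Fin (k + 2)), z (π i) * z (π i) = P at h3 ⊢
    field_simp
    linarith
  · rw [h1 i j hij, add_zero]

theorem sum_perm_normsq {d : ℕ} (z : Fin (k + 2) → ℝ) (hz : ∑ i, z i = 0)
    (w : Fin (k + 2) → Fin d → ℝ) (hw : ∑ j, w j = 0) (c : Fin d → ℝ) :
    Fintype.card (Equiv.Perm (Fin (k + 2))) * ((∑ i, z i ^ 2) / (k + 1) * ∑ j, w j ⬝ᵥ w j)
      ≤ ∑ π : Equiv.Perm (Fin (k + 2)), (c - ∑ j, z (π j) • w j) ⬝ᵥ (c - ∑ j, z (π j) • w j) := by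
  obtain ⟨q, hq⟩ := sum_perm_pair z hz
  have e1 : ∀ π : Equiv.Perm (Fin (k + 2)), (c - ∑ j, z (π j) • w j) ⬝ᵥ (c - ∑ j, z (π j) • w j)
      = c ⬝ᵥ c - 2 * ∑ j, z (π j) * (c ⬝ᵥ w j)
        + ∑ i, ∑ j, z (π i) * z (π j) * (w i ⬝ᵥ w j) := by
    intro π
    rw [sub_dotProduct, dotProduct_sub, dotProduct_sub,
      dotProduct_comm (∑ j, z (π j) • w j) c]
    simp only [dotProduct_sum, sum_dotProduct, dotProduct_smul, smul_dotProduct, smul_eq_mul]
    rw [Finset.sum_comm (f := fun i j => z (π i) * z (π j) * (w i ⬝ᵥ w j))]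
    simp only [Finset.mul_sum]
    have : ∑ j, ∑ i, z (π j) * (z (π i) * (w i ⬝ᵥ w j))
        = ∑ j, ∑ i, z (π i) * z (π j) * (w i ⬝ᵥ w j) :=
      Finset.sum_congr rfl fun j _ => Finset.sum_congr rfl fun i _ => by ring
    rw [this, ← Finset.mul_sum]
    ring
  have e2 : ∑ π : Equiv.Perm (Fin (k + 2)), ∑ j, z (π j) * (c ⬝ᵥ w j) = 0 := by
    rw [Finset.sum_comm]
    refine Finset.sum_eq_zero fun j _ => ?_
    have := sum_perm_single z j
    rw [hz, mul_zero] at this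
    rw [← Finset.sum_mul, (mul_eq_zero.1 this).resolve_left (by positivity), zero_mul]
  have e3 : ∑ π : Equiv.Perm (Fin (k + 2)), ∑ i, ∑ j, z (π i) * z (π j) * (w i ⬝ᵥ w j)
      = Fintype.card (Equiv.Perm (Fin (k + 2))) * ((∑ i, z i ^ 2) / (k + 1) * ∑ j, w j ⬝ᵥ w j) := by
    rw [Finset.sum_comm]
    have : ∀ i, ∑ π : Equiv.Perm (Fin (k + 2)), ∑ j, z (π i) * z (π j) * (w i ⬝ᵥ w j)
        = Fintype.card (Equiv.Perm (Fin (k + 2))) * (∑ i, z i ^ 2) / (k + 1) * (w i ⬝ᵥ w i) := by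
      intro i
      rw [Finset.sum_comm]
      simp only [← Finset.sum_mul, hq, add_mul, Finset.sum_add_distrib, ite_mul, zero_mul,
        Finset.sum_ite_eq, Finset.mem_univ, if_true]
      rw [← Finset.mul_sum, ← dotProduct_sum, hw, dotProduct_zero, mul_zero, zero_add]
    simp only [this]
    rw [← Finset.mul_sum]
    ring
  simp only [e1, Finset.sum_add_distrib, Finset.sum_sub_distrib, ← Finset.mul_sum, e2, e3]
  have : 0 ≤ ∑ _π : Equiv.Perm (Fin (k + 2)), c ⬝ᵥ c :=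
    Finset.sum_nonneg fun _ _ => dot_self_nonneg c
  linarith

end Perm

theorem tangent_rpow {p r r₀ : ℝ} (hp : 0 ≤ p) (hr : r < 1) (hr₀ : r₀ < 1) :
    (1 - r₀) ^ (-p) * (1 + p / (1 - r₀) * (r - r₀)) ≤ (1 - r) ^ (-p) := by
  have h1 : 0 < 1 - r := by linarith
  have h0 : 0 < 1 - r₀ := by linarith
  have e : (1 - r) ^ (-p) = (1 - r₀) ^ (-p) * ((1 - r) / (1 - r₀)) ^ (-p) := by
    rw [← Real.mul_rpow h0.le (div_pos h1 h0).le, mul_div_cancel₀ _ h0.ne']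
  rw [e]
  refine mul_le_mul_of_nonneg_left ?_ (Real.rpow_nonneg h0.le _)
  rw [Real.rpow_def_of_pos (div_pos h1 h0)]
  refine le_trans ?_ (Real.add_one_le_exp _)
  have h2 := Real.log_le_sub_one_of_pos (div_pos h1 h0)
  have h3 : p / (1 - r₀) * (r - r₀) = -p * ((1 - r) / (1 - r₀) - 1) := by field_simp; ring
  rw [h3]
  nlinarith

theorem hyperbolic_core (k : ℕ) (ρ p : ℝ) (hρ : 0 < ρ) (hp : 0 ≤ p)
    (a b : Fin (k + 2) → Fin (k + 1) → ℝ)
    (ha : ∀ i, a i ⬝ᵥ a i = 1) (hb : ∀ i, b i ⬝ᵥ b i = 1)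
    (hbb : ∀ i j, i ≠ j → b i ⬝ᵥ b j = -1 / (k + 1))
    (hA : ∀ x, (∀ i, a i ⬝ᵥ x ≤ ρ) → x ⬝ᵥ x < 1) (hB : ∀ x, (∀ i, b i ⬝ᵥ x ≤ ρ) → x ⬝ᵥ x < 1) :
    ∫⁻ x in {x | ∀ i, b i ⬝ᵥ x ≤ ρ}, ENNReal.ofReal ((1 - x ⬝ᵥ x) ^ (-p))
      ≤ ∫⁻ x in {x | ∀ i, a i ⬝ᵥ x ≤ ρ}, ENNReal.ofReal ((1 - x ⬝ᵥ x) ^ (-p)) := by
  have hk : (0 : ℝ) < k + 1 := by positivity
  have hn : (0 : ℝ) < k + 2 := by positivity
  set τ := √(1 / (k + 1 : ℝ)) with hτd
  have hτ : 0 < τ := Real.sqrt_pos.2 (by positivity)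
  have hτ2 : τ ^ 2 = 1 / (k + 1) := Real.sq_sqrt (by positivity)
  have hrec : ∀ x, (∀ i, a i ⬝ᵥ x ≤ 0) → x = 0 := by
    intro x hx
    by_contra h0
    have h1 : 0 < x ⬝ᵥ x := lt_of_le_of_ne (dot_self_nonneg x)
      fun e => h0 (dotProduct_self_eq_zero.1 e.symm)
    have h2 := hA ((√(x ⬝ᵥ x))⁻¹ • x) fun i => by
      rw [dotProduct_smul, smul_eq_mul]
      exact (mul_nonpos_of_nonneg_of_nonpos (by positivity) (hx i)).trans hρ.le
    rw [dotProduct_smul, smul_dotProduct, smul_eq_mul, smul_eq_mul, ← mul_assoc, ← mul_inv,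
      Real.mul_self_sqrt h1.le, inv_mul_cancel₀ h1.ne'] at h2
    exact lt_irrefl _ h2
  obtain ⟨μ, U, hμ, hμs, hU0, hU⟩ := exists_data hτ a hrec
  have hμs' : ∑ j, μ j = k + 2 := by rw [hμs]; push_cast; ring
  set u : Fin (k + 2) → Fin (k + 1) → ℝ := fun j l => U l.succ j with hu
  have hau : ∀ i j, a i ⬝ᵥ u j = 1 / (k + 2) - if i = j then (μ i)⁻¹ else 0 := by
    intro i j
    have h1 := congrFun (congrFun hU i) j
    rw [Matrix.mul_assoc, diagonal_mul] at h1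
    have h2 : (lift τ a * U) i j = τ * U 0 j - a i ⬝ᵥ u j := lift_mulVec τ a (fun l => U l j) i
    rw [h2, hU0, one_apply] at h1
    have h3 := (hμ i).ne'
    have h4 : τ * (1 / ((((k + 1 : ℕ) : ℝ) + 1) * τ)) = 1 / (k + 2) := by
      push_cast
      field_simp
      ring
    rw [h4] at h1
    split_ifs at h1 ⊢
    · field_simp at h1 ⊢
      linarith
    · rw [mul_eq_zero] at h1
      linarith [h1.resolve_left h3]
  have hgb : ∀ π : Equiv.Perm (Fin (k + 2)),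
      lift τ (b ∘ π) * (lift τ (b ∘ π))ᵀ = (1 + τ ^ 2) • (1 : Matrix _ _ ℝ) := by
    intro π
    ext i j
    rw [lift_gram, Matrix.smul_apply, one_apply, smul_eq_mul]
    split_ifs with hij
    · rw [hij, Function.comp_apply, hb]; ring
    · rw [Function.comp_apply, Function.comp_apply, hbb _ _ (π.injective.ne hij), hτ2]; ring
  have hsb : ∑ j, b j = 0 := by
    rw [← dotProduct_self_eq_zero, sum_dotProduct]
    refine Finset.sum_eq_zero fun i _ => ?_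
    rw [dotProduct_sum, ← Finset.add_sum_erase _ _ (Finset.mem_univ i),
      Finset.sum_congr rfl fun j hj => hbb i j (Finset.ne_of_mem_erase hj).symm, Finset.sum_const,
      Finset.card_erase_of_mem (Finset.mem_univ i), Finset.card_univ, Fintype.card_fin,
      nsmul_eq_mul, hb]
    simp only [Nat.add_succ_sub_one, Nat.cast_add, Nat.cast_one]
    field_simp
    ring
  have hsz : ∀ x, ∑ j, b j ⬝ᵥ x = 0 := fun x => by rw [← sum_dotProduct, hsb, zero_dotProduct]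
  have hz2 : ∀ x, ∑ j, (b j ⬝ᵥ x) ^ 2 = (k + 2) / (k + 1) * (x ⬝ᵥ x) := by
    intro x
    have h0 : (0 : ℝ) < 1 + τ ^ 2 := by positivity
    have h1 : lift τ b * ((1 + τ ^ 2)⁻¹ • (lift τ b)ᵀ) = 1 := by
      have := hgb 1
      simp only [Equiv.Perm.coe_one, Function.comp_id] at this
      rw [Matrix.mul_smul, this, smul_smul, inv_mul_cancel₀ h0.ne', one_smul]
    have h2 : (lift τ b)ᵀ * lift τ b = (1 + τ ^ 2) • (1 : Matrix _ _ ℝ) := by
      rw [mul_eq_one_comm, Matrix.smul_mul] at h1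
      rw [← h1, smul_smul, mul_inv_cancel₀ h0.ne', one_smul]
    have h3 : (Fin.cons 0 x : Fin (k + 2) → ℝ) ⬝ᵥ ((lift τ b)ᵀ * lift τ b) *ᵥ Fin.cons 0 x
        = (lift τ b *ᵥ Fin.cons 0 x) ⬝ᵥ (lift τ b *ᵥ Fin.cons 0 x) := by
      rw [← mulVec_mulVec, dotProduct_mulVec, vecMul_transpose]
    rw [h2, smul_mulVec, one_mulVec, dotProduct_smul, dot_cons, smul_eq_mul, hτ2] at h3
    have h4 : (lift τ b *ᵥ Fin.cons 0 x) ⬝ᵥ (lift τ b *ᵥ Fin.cons 0 x) = ∑ j, (b j ⬝ᵥ x) ^ 2 := by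
      rw [dotProduct]
      refine Finset.sum_congr rfl fun j _ => ?_
      rw [lift_mulVec]
      simp [sq]
    rw [← h4, ← h3]
    field_simp
    ring
  set ub : Fin (k + 1) → ℝ := ∑ j, u j with hub
  set w : Fin (k + 2) → Fin (k + 1) → ℝ := fun j => u j - (k + 2 : ℝ)⁻¹ • ub with hw
  have haub : ∀ i, a i ⬝ᵥ ub = 1 - (μ i)⁻¹ := by
    intro i
    rw [hub, dotProduct_sum]
    simp only [hau, Finset.sum_sub_distrib, Finset.sum_const, Finset.card_univ, Fintype.card_fin,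
      nsmul_eq_mul, Finset.sum_ite_eq, Finset.mem_univ, if_true]
    push_cast
    field_simp
  have hw0 : ∑ j, w j = 0 := by
    simp only [hw, Finset.sum_sub_distrib, Finset.sum_const, Finset.card_univ, Fintype.card_fin,
      ← hub]
    rw [← Nat.cast_smul_eq_nsmul ℝ, smul_smul]
    push_cast
    rw [mul_inv_cancel₀ hn.ne', one_smul, sub_self]
  have hww : (k + 1) ^ 2 / (k + 2) ≤ ∑ j, w j ⬝ᵥ w j := by
    have h1 : ∀ j, ((k + 1) / (k + 2)) ^ 2 * (3 - 2 * μ j) ≤ w j ⬝ᵥ w j := by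
      intro j
      have h2 : a j ⬝ᵥ w j = -((k + 1) / (k + 2)) * (μ j)⁻¹ := by
        simp only [hw, dotProduct_sub, dotProduct_smul, hau, haub, if_true, smul_eq_mul]
        field_simp
        ring
      have h3 := Finset.sum_mul_sq_le_sq_mul_sq Finset.univ (a j) (w j)
      simp only [sq] at h3
      change (a j ⬝ᵥ w j) * (a j ⬝ᵥ w j) ≤ (a j ⬝ᵥ a j) * (w j ⬝ᵥ w j) at h3
      rw [ha, one_mul, h2] at h3
      have h4 : 3 - 2 * μ j ≤ (μ j)⁻¹ ^ 2 := by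
        have := hμ j
        rw [inv_pow, ← one_div, le_div_iff₀ (by positivity)]
        nlinarith [mul_nonneg (sq_nonneg (μ j - 1)) (show 0 ≤ 2 * μ j + 1 by positivity)]
      calc _ ≤ ((k + 1) / (k + 2)) ^ 2 * (μ j)⁻¹ ^ 2 := by gcongr
        _ = _ := by ring
        _ ≤ _ := h3
    refine le_trans (le_of_eq ?_) (Finset.sum_le_sum fun j _ => h1 j)
    rw [← Finset.mul_sum, Finset.sum_sub_distrib, ← Finset.mul_sum, hμs', Finset.sum_const,
      Finset.card_univ, Fintype.card_fin, nsmul_eq_mul]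
    push_cast
    field_simp
    ring
  set A : Equiv.Perm (Fin (k + 2)) → Matrix (Fin (k + 1)) (Fin (k + 1)) ℝ :=
    fun π => (U * lift τ (b ∘ π)).submatrix Fin.succ Fin.succ with hAd
  have hAx : ∀ π x, A π *ᵥ x = -∑ j, (b (π j) ⬝ᵥ x) • u j := by
    intro π x
    funext l
    simp only [hAd, mulVec, dotProduct, submatrix_apply, mul_apply, lift, of_apply, Fin.cons_succ,
      Function.comp_apply, Pi.neg_apply, Finset.sum_apply, Pi.smul_apply, smul_eq_mul, hu,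
      Finset.sum_mul, ← Finset.sum_neg_distrib]
    rw [Finset.sum_comm]
    exact Finset.sum_congr rfl fun j _ => Finset.sum_congr rfl fun i _ => by ring
  have hdet : ∀ π, 1 ≤ |(A π).det| := by
    intro π
    have h1 : (U * lift τ (b ∘ π)).det = (A π).det := by
      rw [det_succ_row_zero, Fin.sum_univ_succ]
      have e0 : (U * lift τ (b ∘ π)) 0 0 = 1 := by
        simp only [mul_apply, hU0, lift, of_apply, Fin.cons_zero, Finset.sum_const,
          Finset.card_univ, Fintype.card_fin, nsmul_eq_mul]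
        push_cast
        field_simp
      have e1 : ∀ l : Fin (k + 1), (U * lift τ (b ∘ π)) 0 l.succ = 0 := by
        intro l
        simp only [mul_apply, hU0, lift, of_apply, Fin.cons_succ, Function.comp_apply]
        rw [← Finset.mul_sum, Finset.sum_neg_distrib, Equiv.sum_comp π fun j => b j l,
          ← Finset.sum_apply, hsb]
        simp
      simp only [e0, e1, mul_zero, zero_mul, Finset.sum_const_zero, add_zero, Fin.val_zero,
        pow_zero, one_mul, Fin.succAbove_zero, hAd]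
    have h2 : (lift τ (b ∘ π)).det ^ 2 = (1 + τ ^ 2) ^ (k + 2) := by
      have := congrArg det (hgb π)
      rwa [det_mul, det_transpose, ← sq, det_smul, det_one, mul_one, Fintype.card_fin] at this
    have h3 : (lift τ a).det ^ 2 ≤ (1 + τ ^ 2) ^ (k + 2) :=
      det_sq_le _ (by positivity) fun i => by rw [lift_gram, ha]; ring
    have h4 := congrArg det hU
    rw [det_mul, det_mul, det_diagonal, det_one] at h4
    have h5 : ∏ i, μ i ≤ 1 := prod_le_one_of_sum (fun i => (hμ i).le) hμs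
    have h6 : 0 < ∏ i, μ i := Finset.prod_pos fun i _ => hμ i
    rw [← h1, det_mul, ← sq_le_sq₀ zero_le_one (abs_nonneg _), sq_abs, mul_pow, h2]
    calc (1 : ℝ) ^ 2 = ((∏ i, μ i) ^ 2) * (U.det ^ 2 * (lift τ a).det ^ 2) := by
          rw [← h4]; ring
      _ ≤ 1 ^ 2 * (U.det ^ 2 * (1 + τ ^ 2) ^ (k + 2)) := by gcongr
      _ = _ := by ring
  set Φ : Equiv.Perm (Fin (k + 2)) → (Fin (k + 1) → ℝ) → Fin (k + 1) → ℝ :=
    fun π x => ρ • ub + toLin' (A π) x with hΦ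
  have hΦw : ∀ π x, Φ π x = ρ • ub - ∑ j, (b (π j) ⬝ᵥ x) • w j := by
    intro π x
    simp only [hΦ, toLin'_apply, hAx, hw, smul_sub, Finset.sum_sub_distrib, ← Finset.sum_smul]
    rw [Equiv.sum_comp π fun j => b j ⬝ᵥ x, hsz, zero_smul, sub_zero, sub_eq_add_neg]
  have hΦa : ∀ π x, (∀ i, b i ⬝ᵥ x ≤ ρ) → ∀ i, a i ⬝ᵥ Φ π x ≤ ρ := by
    intro π x hx i
    simp only [hΦ, toLin'_apply, hAx, dotProduct_add, dotProduct_smul, dotProduct_neg,
      dotProduct_sum, haub, hau, smul_eq_mul, mul_sub, Finset.sum_sub_distrib, mul_ite, mul_zero,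
      Finset.sum_ite_eq, Finset.mem_univ, if_true, ← Finset.sum_mul]
    rw [Equiv.sum_comp π fun j => b j ⬝ᵥ x, hsz]
    have := mul_le_mul_of_nonneg_right (hx (π i)) (inv_pos.2 (hμ i)).le
    linarith
  set F : (Fin (k + 1) → ℝ) → ℝ≥0∞ := fun x => ENNReal.ofReal ((1 - x ⬝ᵥ x) ^ (-p)) with hF
  have hFm : Measurable F := by
    have : Measurable fun x : Fin (k + 1) → ℝ => 1 - x ⬝ᵥ x := by fun_prop
    exact (this.pow_const _).ennreal_ofReal
  have hcl : ∀ c : Fin (k + 2) → Fin (k + 1) → ℝ, MeasurableSet {x | ∀ i, c i ⬝ᵥ x ≤ ρ} := by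
    intro c
    have : {x | ∀ i, c i ⬝ᵥ x ≤ ρ} = ⋂ i, {x | c i ⬝ᵥ x ≤ ρ} := by ext x; simp
    rw [this]
    exact (isClosed_iInter fun i => isClosed_le (by fun_prop) continuous_const).measurableSet
  have hΦm : ∀ π, Measurable (Φ π) := fun π =>
    measurable_const.add (LinearMap.continuous_of_finiteDimensional _).measurable
  have step : ∀ π, ∫⁻ x in {x | ∀ i, b i ⬝ᵥ x ≤ ρ}, F (Φ π x)
      ≤ ∫⁻ x in {x | ∀ i, a i ⬝ᵥ x ≤ ρ}, F x := by
    intro π
    have hd0 : (A π).det ≠ 0 := abs_pos.1 (one_pos.trans_le (hdet π))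
    have hmap : Measure.map (Φ π) volume = ENNReal.ofReal |(A π).det⁻¹| • volume := by
      rw [show Φ π = (fun y => ρ • ub + y) ∘ toLin' (A π) from rfl,
        ← Measure.map_map (by fun_prop) (LinearMap.continuous_of_finiteDimensional _).measurable,
        Real.map_matrix_volume_pi_eq_smul_volume_pi hd0, Measure.map_smul, map_add_left_eq_self]
    calc ∫⁻ x in {x | ∀ i, b i ⬝ᵥ x ≤ ρ}, F (Φ π x)
        ≤ ∫⁻ x in Φ π ⁻¹' {x | ∀ i, a i ⬝ᵥ x ≤ ρ}, F (Φ π x) :=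
          lintegral_mono_set fun x hx => hΦa π x hx
      _ = ENNReal.ofReal |(A π).det⁻¹| * ∫⁻ x in {x | ∀ i, a i ⬝ᵥ x ≤ ρ}, F x := by
          rw [← setLIntegral_map (hcl a) hFm (hΦm π), hmap, Measure.restrict_smul,
            lintegral_smul_measure, smul_eq_mul]
      _ ≤ 1 * ∫⁻ x in {x | ∀ i, a i ⬝ᵥ x ≤ ρ}, F x := by
          gcongr
          rw [ENNReal.ofReal_le_one, abs_inv]
          exact inv_le_one_of_one_le₀ (hdet π)
      _ = _ := one_mul _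
  set N := Fintype.card (Equiv.Perm (Fin (k + 2))) with hN
  have hpt : ∀ x, (∀ i, b i ⬝ᵥ x ≤ ρ) → (N : ℝ≥0∞) * F x ≤ ∑ π, F (Φ π x) := by
    intro x hx
    have r0 := hB x hx
    have r1 := fun π => hA _ (hΦa π x hx)
    have h1 := sum_perm_normsq (fun j => b j ⬝ᵥ x) (hsz x) w hw0 (ρ • ub)
    simp only [← hΦw, ← hN] at h1
    have h2 : (N : ℝ) * (x ⬝ᵥ x) ≤ ∑ π, Φ π x ⬝ᵥ Φ π x := by
      refine le_trans (mul_le_mul_of_nonneg_left ?_ (Nat.cast_nonneg N)) h1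
      rw [hz2]
      have := dot_self_nonneg x
      calc x ⬝ᵥ x = (k + 2) / (k + 1) * (x ⬝ᵥ x) / (k + 1) * ((k + 1) ^ 2 / (k + 2)) := by
            field_simp
        _ ≤ _ := by gcongr
    simp only [hF]
    rw [← ENNReal.ofReal_sum_of_nonneg fun π _ => Real.rpow_nonneg (by linarith [r1 π]) _,
      ← ENNReal.ofReal_natCast, ← ENNReal.ofReal_mul (Nat.cast_nonneg N)]
    refine ENNReal.ofReal_le_ofReal (le_trans ?_
      (Finset.sum_le_sum fun π _ => tangent_rpow hp (r1 π) r0))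
    rw [← Finset.mul_sum, Finset.sum_add_distrib, ← Finset.mul_sum, Finset.sum_sub_distrib,
      Finset.sum_const, Finset.sum_const, Finset.card_univ, ← hN, nsmul_eq_mul, nsmul_eq_mul,
      mul_one, mul_comm (N : ℝ)]
    refine mul_le_mul_of_nonneg_left ?_ (Real.rpow_nonneg (by linarith) _)
    have : 0 ≤ p / (1 - x ⬝ᵥ x) * (∑ π, Φ π x ⬝ᵥ Φ π x - N * (x ⬝ᵥ x)) :=
      mul_nonneg (div_nonneg hp (by linarith)) (by linarith)
    linarith
  have hN0 : (N : ℝ≥0∞) ≠ 0 := by simp [hN]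
  rw [← ENNReal.mul_le_mul_iff_right hN0 (ENNReal.natCast_ne_top N)]
  calc (N : ℝ≥0∞) * ∫⁻ x in {x | ∀ i, b i ⬝ᵥ x ≤ ρ}, F x
      = ∫⁻ x in {x | ∀ i, b i ⬝ᵥ x ≤ ρ}, N * F x := (lintegral_const_mul _ hFm).symm
    _ ≤ ∫⁻ x in {x | ∀ i, b i ⬝ᵥ x ≤ ρ}, ∑ π, F (Φ π x) :=
        setLIntegral_mono' (hcl b) hpt
    _ = ∑ π, ∫⁻ x in {x | ∀ i, b i ⬝ᵥ x ≤ ρ}, F (Φ π x) :=
        lintegral_finsetSum _ fun π _ => hFm.comp (hΦm π)
    _ ≤ ∑ _π : Equiv.Perm (Fin (k + 2)), ∫⁻ x in {x | ∀ i, a i ⬝ᵥ x ≤ ρ}, F x :=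
        Finset.sum_le_sum fun π _ => step π
    _ = _ := by rw [Finset.sum_const, Finset.card_univ, nsmul_eq_mul]

theorem hyperbolic (k : ℕ) (ρ p : ℝ) (hρ : 0 < ρ) (hp : 0 ≤ p)
    (a b : Fin (k + 1 + 1) → EuclideanSpace ℝ (Fin (k + 1)))
    (ha : ∀ i, ‖a i‖ = 1) (hb : ∀ i, ‖b i‖ = 1)
    (hbb : ∀ i j, i ≠ j → ⟪b i, b j⟫_ℝ = -1 / ((k + 1 : ℕ) : ℝ))
    (hA : {x : EuclideanSpace ℝ (Fin (k + 1)) | ∀ i, ⟪a i, x⟫_ℝ ≤ ρ} ⊆ Metric.ball 0 1)
    (hB : {x : EuclideanSpace ℝ (Fin (k + 1)) | ∀ i, ⟪b i, x⟫_ℝ ≤ ρ} ⊆ Metric.ball 0 1) :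
    ∫⁻ x in {x : EuclideanSpace ℝ (Fin (k + 1)) | ∀ i, ⟪b i, x⟫_ℝ ≤ ρ},
        ENNReal.ofReal ((1 - ‖x‖ ^ 2) ^ (-p))
      ≤ ∫⁻ x in {x : EuclideanSpace ℝ (Fin (k + 1)) | ∀ i, ⟪a i, x⟫_ℝ ≤ ρ},
        ENNReal.ofReal ((1 - ‖x‖ ^ 2) ^ (-p)) := by
  have e1 : ∀ u v : EuclideanSpace ℝ (Fin (k + 1)), ⟪u, v⟫_ℝ = u.ofLp ⬝ᵥ v.ofLp := by
    intro u v
    simp [dotProduct, PiLp.inner_apply, mul_comm]
  have e2 : ∀ v : EuclideanSpace ℝ (Fin (k + 1)), ‖v‖ ^ 2 = v.ofLp ⬝ᵥ v.ofLp := by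
    intro v
    rw [← real_inner_self_eq_norm_sq, e1]
  have hm : Measurable fun x : EuclideanSpace ℝ (Fin (k + 1)) =>
      ENNReal.ofReal ((1 - ‖x‖ ^ 2) ^ (-p)) := by
    have : Measurable fun x : EuclideanSpace ℝ (Fin (k + 1)) => 1 - ‖x‖ ^ 2 := by fun_prop
    exact (this.pow_const _).ennreal_ofReal
  have tr : ∀ c : Fin (k + 1 + 1) → EuclideanSpace ℝ (Fin (k + 1)),
      ∫⁻ x in {x : EuclideanSpace ℝ (Fin (k + 1)) | ∀ i, ⟪c i, x⟫_ℝ ≤ ρ},
        ENNReal.ofReal ((1 - ‖x‖ ^ 2) ^ (-p))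
      = ∫⁻ x in {x | ∀ i, (c i).ofLp ⬝ᵥ x ≤ ρ}, ENNReal.ofReal ((1 - x ⬝ᵥ x) ^ (-p)) := by
    intro c
    have hs : MeasurableSet {x : EuclideanSpace ℝ (Fin (k + 1)) | ∀ i, ⟪c i, x⟫_ℝ ≤ ρ} := by
      have : {x : EuclideanSpace ℝ (Fin (k + 1)) | ∀ i, ⟪c i, x⟫_ℝ ≤ ρ}
          = ⋂ i, {x | ⟪c i, x⟫_ℝ ≤ ρ} := by ext x; simp
      rw [this]
      exact (isClosed_iInter fun i => isClosed_le (by fun_prop) continuous_const).measurableSet
    rw [← (PiLp.volume_preserving_toLp (Fin (k + 1))).setLIntegral_comp_preimage hs hm]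
    simp only [e1, e2, preimage_ofPred_eq]
  have hball : ∀ c : Fin (k + 1 + 1) → EuclideanSpace ℝ (Fin (k + 1)),
      {x : EuclideanSpace ℝ (Fin (k + 1)) | ∀ i, ⟪c i, x⟫_ℝ ≤ ρ} ⊆ Metric.ball 0 1 →
      ∀ x, (∀ i, (c i).ofLp ⬝ᵥ x ≤ ρ) → x ⬝ᵥ x < 1 := by
    intro c hc x hx
    have := hc (a := WithLp.toLp 2 x) fun i => by rw [e1]; exact hx i
    rw [mem_ball_zero_iff] at this
    have h2 := e2 (WithLp.toLp 2 x)
    have h3 := norm_nonneg (WithLp.toLp 2 x : EuclideanSpace ℝ (Fin (k + 1)))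
    simp only at h2
    nlinarith
  rw [tr, tr]
  exact hyperbolic_core k ρ p hρ hp (fun i => (a i).ofLp) (fun i => (b i).ofLp)
    (fun i => by rw [← e2, ha, one_pow]) (fun i => by rw [← e2, hb, one_pow])
    (fun i j hij => by rw [← e1, hbb i j hij]; push_cast; rfl) (hball a hA) (hball b hB)

end Pool.Agent.P.MP_bc3e0b_gt
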