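import Pool.Agent.P.MP_bc3e0b_gt.Orthant

set_option autoImplicit false

namespace Pool.Agent.P.MP_bc3e0b_gt

open MeasureTheory Set Filter Topology Matrix

/-- Unnormalised Gaussian density with precision matrix `M`. -/
noncomputable def gauss {n : ℕ} (M : Matrix (Fin n) (Fin n) ℝ) (y : Fin n → ℝ) : ℝ :=
  Real.exp (-((y ⬝ᵥ M *ᵥ y) / 2))

/-- Orthant integral of the second derivatives of the density. -/
noncomputable def PiM {n : ℕ} (M : Matrix (Fin n) (Fin n) ℝ) (i j : Fin n) : ℝ :=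
  ∫ y, ((M *ᵥ y) i * (M *ᵥ y) j - M i j) * gauss M y ∂mu n

/-- Coercivity of a quadratic form. -/
def Coer {n : ℕ} (M : Matrix (Fin n) (Fin n) ℝ) : Prop :=
  ∃ c : ℝ, 0 < c ∧ ∀ y, c * (y ⬝ᵥ y) ≤ y ⬝ᵥ M *ᵥ y

section General

variable {n : ℕ} {M : Matrix (Fin n) (Fin n) ℝ}

theorem gauss_pos (M : Matrix (Fin n) (Fin n) ℝ) (y : Fin n → ℝ) : 0 < gauss M y := Real.exp_pos _

theorem continuous_gauss (M : Matrix (Fin n) (Fin n) ℝ) : Continuous (gauss M) := by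
  unfold gauss
  fun_prop

theorem GB_gauss (h : Coer M) : GB (gauss M) := by
  obtain ⟨c, c0, hc⟩ := h
  refine ⟨continuous_gauss M, 1, c / 2, by positivity, fun y => ?_⟩
  rw [abs_of_pos (gauss_pos M y), one_mul, gauss]
  exact Real.exp_le_exp.2 (by linarith [hc y])

theorem GB_Pi (h : Coer M) (i j : Fin n) :
    GB fun y => ((M *ᵥ y) i * (M *ᵥ y) j - M i j) * gauss M y := by
  have := (((GB_gauss h).mulVec_mul M j).mulVec_mul M i).add ((GB_gauss h).const_mul (-M i j))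
  convert this using 2
  ring

theorem dot_mulVec_comm (hs : M.IsSymm) (x y : Fin n → ℝ) : x ⬝ᵥ M *ᵥ y = y ⬝ᵥ M *ᵥ x := by
  rw [dotProduct_mulVec, ← mulVec_transpose, hs.eq, dotProduct_comm]

theorem hasDerivAt_dot {γ δ : ℝ → Fin n → ℝ} {γ' δ' : Fin n → ℝ} {s : ℝ}
    (h1 : ∀ i, HasDerivAt (fun s => γ s i) (γ' i) s)
    (h2 : ∀ i, HasDerivAt (fun s => δ s i) (δ' i) s) :
    HasDerivAt (fun s => γ s ⬝ᵥ δ s) (γ' ⬝ᵥ δ s + γ s ⬝ᵥ δ') s := by
  simp only [dotProduct, ← Finset.sum_add_distrib]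
  exact HasDerivAt.fun_sum fun i _ => (h1 i).mul (h2 i)

theorem hasDerivAt_mulVec (M : Matrix (Fin n) (Fin n) ℝ) {γ : ℝ → Fin n → ℝ} {γ' : Fin n → ℝ}
    {s : ℝ} (h1 : ∀ i, HasDerivAt (fun s => γ s i) (γ' i) s) (j : Fin n) :
    HasDerivAt (fun s => (M *ᵥ γ s) j) ((M *ᵥ γ') j) s := by
  have := hasDerivAt_dot (γ := fun _ => M j) (γ' := 0) (fun i => hasDerivAt_const s _) h1
  simpa [mulVec] using this

theorem hasDerivAt_gauss (hs : M.IsSymm) {γ : ℝ → Fin n → ℝ} {γ' : Fin n → ℝ}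
    {s : ℝ} (h1 : ∀ i, HasDerivAt (fun s => γ s i) (γ' i) s) :
    HasDerivAt (fun s => gauss M (γ s)) (-(γ' ⬝ᵥ M *ᵥ γ s) * gauss M (γ s)) s := by
  have h2 := hasDerivAt_dot h1 (hasDerivAt_mulVec M h1)
  rw [dot_mulVec_comm hs (γ s) γ'] at h2
  have h3 := ((h2.div_const 2).fun_neg).exp
  unfold gauss
  exact h3.congr_deriv (by ring)

theorem gauss_add_smul (hs : M.IsSymm) (y d : Fin n → ℝ) (θ : ℝ) :
    gauss M (y + θ • d) = gauss M y *
      Real.exp (-(θ * (d ⬝ᵥ M *ᵥ y) + θ ^ 2 * (d ⬝ᵥ M *ᵥ d) / 2)) := by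
  unfold gauss
  rw [← Real.exp_add]
  congr 1
  simp only [mulVec_add, mulVec_smul, add_dotProduct, dotProduct_add, smul_dotProduct,
    dotProduct_smul, smul_eq_mul]
  rw [dot_mulVec_comm hs y d]
  ring

theorem abs_dot_le (v y : Fin n → ℝ) : |v ⬝ᵥ y| ≤ √(v ⬝ᵥ v) * √(y ⬝ᵥ y) := by
  rw [← Real.sqrt_mul (dot_self_nonneg v)]
  apply Real.abs_le_sqrt
  have := Finset.sum_mul_sq_le_sq_mul_sq Finset.univ v y
  simpa [dotProduct, sq] using this

theorem GB_dir_bound (h : Coer M) (d : Fin n → ℝ) :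
    GB fun y => Real.exp (2 * (|d ⬝ᵥ M *ᵥ y| + |d ⬝ᵥ M *ᵥ d|)) * gauss M y := by
  refine (GB_gauss h).mul_of_le_exp (by fun_prop) (A := Real.exp (2 * |d ⬝ᵥ M *ᵥ d|))
    (B := 2 * √((d ᵥ* M) ⬝ᵥ (d ᵥ* M))) fun y => ?_
  rw [abs_of_pos (Real.exp_pos _), ← Real.exp_add]
  refine Real.exp_le_exp.2 ?_
  have := abs_dot_le (d ᵥ* M) y
  rw [← dotProduct_mulVec] at this
  linarith

theorem gauss_dir_lip (hs : M.IsSymm) (y d : Fin n → ℝ) {θ : ℝ} (hθ : |θ| ≤ 1) :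
    |gauss M (y + θ • d) - gauss M y| ≤
      Real.exp (2 * (|d ⬝ᵥ M *ᵥ y| + |d ⬝ᵥ M *ᵥ d|)) * gauss M y * |θ| := by
  rw [gauss_add_smul hs]
  set L := d ⬝ᵥ M *ᵥ y
  set Q := d ⬝ᵥ M *ᵥ d
  set u := -(θ * L + θ ^ 2 * Q / 2) with hu
  have h1 : |u| ≤ |θ| * (|L| + |Q|) := by
    rw [hu, abs_neg]
    refine (abs_add_le _ _).trans ?_
    rw [abs_mul, abs_div, abs_mul, abs_pow, abs_two]
    have := abs_nonneg θ
    have := abs_nonneg Q
    nlinarith [mul_nonneg (abs_nonneg θ) (abs_nonneg Q)]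
  have h2 : |u| ≤ |L| + |Q| := h1.trans (by
    have := add_nonneg (abs_nonneg L) (abs_nonneg Q); nlinarith)
  have h3 := abs_exp_sub_one_le u
  have h4 : |L| + |Q| ≤ Real.exp (|L| + |Q|) := by linarith [Real.add_one_le_exp (|L| + |Q|)]
  have h5 : |Real.exp u - 1| ≤ |θ| * Real.exp (2 * (|L| + |Q|)) := by
    calc |Real.exp u - 1| ≤ (|θ| * (|L| + |Q|)) * Real.exp (|L| + |Q|) :=
          h3.trans (mul_le_mul h1 (Real.exp_le_exp.2 h2) (Real.exp_pos _).le (by positivity))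
      _ ≤ (|θ| * Real.exp (|L| + |Q|)) * Real.exp (|L| + |Q|) := by gcongr
      _ = _ := by rw [mul_assoc, ← Real.exp_add, two_mul]
  have e : gauss M y * Real.exp u - gauss M y = gauss M y * (Real.exp u - 1) := by ring
  rw [e, abs_mul, abs_of_pos (gauss_pos M y)]
  have := mul_le_mul_of_nonneg_left h5 (gauss_pos M y).le
  linarith

theorem mulVec_submatrix_perm (M : Matrix (Fin n) (Fin n) ℝ) (σ : Equiv.Perm (Fin n))
    (y : Fin n → ℝ) : (M.submatrix σ σ) *ᵥ (y ∘ σ) = (M *ᵥ y) ∘ σ := by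
  rw [submatrix_mulVec_equiv]
  congr 2
  funext i
  simp

theorem dot_perm (σ : Equiv.Perm (Fin n)) (x y : Fin n → ℝ) : (x ∘ σ) ⬝ᵥ (y ∘ σ) = x ⬝ᵥ y :=
  Equiv.sum_comp σ (fun i => x i * y i)

theorem gauss_perm (M : Matrix (Fin n) (Fin n) ℝ) (σ : Equiv.Perm (Fin n)) (y : Fin n → ℝ) :
    gauss (M.submatrix σ σ) (y ∘ σ) = gauss M y := by
  unfold gauss
  rw [mulVec_submatrix_perm, dot_perm]

theorem PiM_perm (M : Matrix (Fin n) (Fin n) ℝ) (σ : Equiv.Perm (Fin n)) (i j : Fin n) :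
    PiM (M.submatrix σ σ) i j = PiM M (σ i) (σ j) := by
  unfold PiM
  rw [← integral_mu_perm σ]
  simp only [gauss_perm, mulVec_submatrix_perm, Function.comp_apply, submatrix_apply]

theorem integral_gauss_perm (M : Matrix (Fin n) (Fin n) ℝ) (σ : Equiv.Perm (Fin n)) :
    ∫ y, gauss (M.submatrix σ σ) y ∂mu n = ∫ y, gauss M y ∂mu n := by
  rw [← integral_mu_perm σ]
  simp only [gauss_perm]

theorem Coer.perm (h : Coer M) (σ : Equiv.Perm (Fin n)) : Coer (M.submatrix σ σ) := by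
  obtain ⟨c, c0, hc⟩ := h
  refine ⟨c, c0, fun y => ?_⟩
  have e : y = (y ∘ σ.symm) ∘ σ := by funext i; simp
  have := hc (y ∘ σ.symm)
  rw [← dot_perm σ, ← dot_perm σ _ (M *ᵥ _), ← mulVec_submatrix_perm, ← e] at this
  exact this

theorem PiM_symm (hs : M.IsSymm) (i j : Fin n) : PiM M i j = PiM M j i := by
  unfold PiM
  simp only [mul_comm ((M *ᵥ _) i), hs.apply i j]

end General

section Two

variable {m : ℕ} {M : Matrix (Fin (m + 2)) (Fin (m + 2)) ℝ}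

/-- Two leading coordinates. -/
def c2 (a b : ℝ) (z : Fin m → ℝ) : Fin (m + 2) → ℝ := Fin.cons a (Fin.cons b z)

@[simp] theorem c2_zero (a b : ℝ) (z : Fin m → ℝ) : c2 a b z 0 = a := rfl
@[simp] theorem c2_one (a b : ℝ) (z : Fin m → ℝ) : c2 a b z 1 = b := rfl
@[simp] theorem c2_succ (a b : ℝ) (z : Fin m → ℝ) (k : Fin m) : c2 a b z k.succ.succ = z k := rfl

theorem fin2_ext {x y : Fin (m + 2) → ℝ} (h0 : x 0 = y 0) (h1 : x 1 = y 1)
    (h2 : ∀ k : Fin m, x k.succ.succ = y k.succ.succ) : x = y := by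
  funext i
  refine Fin.cases h0 (fun j => ?_) i
  exact Fin.cases h1 h2 j

theorem sum2 (f : Fin (m + 2) → ℝ) : ∑ i, f i = f 0 + f 1 + ∑ k : Fin m, f k.succ.succ := by
  rw [Fin.sum_univ_succ, Fin.sum_univ_succ]
  exact (add_assoc _ _ _).symm

theorem GB.slice2 {F : (Fin (m + 2) → ℝ) → ℝ} (h : GB F) (a b : ℝ) : GB fun z => F (c2 a b z) :=
  (h.slice a).slice b

/-- Marginal in the two leading coordinates. -/
noncomputable def F2 (M : Matrix (Fin (m + 2)) (Fin (m + 2)) ℝ) (a b : ℝ) : ℝ :=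
  ∫ z, gauss M (c2 a b z) ∂mu m

/-- Minus the partial derivatives of the marginal. -/
noncomputable def D2 (M : Matrix (Fin (m + 2)) (Fin (m + 2)) ℝ) (i : Fin (m + 2)) (a b : ℝ) : ℝ :=
  ∫ z, (M *ᵥ c2 a b z) i * gauss M (c2 a b z) ∂mu m

theorem F2_pos (h : Coer M) (a b : ℝ) : 0 < F2 M a b :=
  integral_exp_pos ((GB_gauss h).slice2 a b).integrable

theorem c2_dot (a b : ℝ) (v : Fin (m + 2) → ℝ) : c2 a b 0 ⬝ᵥ v = a * v 0 + b * v 1 := by
  rw [dotProduct, sum2]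
  simp

theorem hasDerivAt_F2 (hs : M.IsSymm) (h : Coer M) (a b d₁ d₂ : ℝ) :
    HasDerivAt (fun θ => F2 M (a + θ * d₁) (b + θ * d₂))
      (-(d₁ * D2 M 0 a b + d₂ * D2 M 1 a b)) 0 := by
  have e : ∀ θ z, c2 (a + θ * d₁) (b + θ * d₂) z = c2 a b z + θ • c2 d₁ d₂ (0 : Fin m → ℝ) :=
    fun θ z => fin2_ext (by simp) (by simp) (by simp)
  have g0 := ((GB_gauss h).mulVec_mul M 0).slice2 a b
  have g1 := ((GB_gauss h).mulVec_mul M 1).slice2 a b
  have hF' : Integrable (fun z => -(c2 d₁ d₂ 0 ⬝ᵥ M *ᵥ c2 a b z) * gauss M (c2 a b z)) (mu m) := by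
    have := ((g0.const_mul (-d₁)).add (g1.const_mul (-d₂))).integrable
    convert this using 2
    rw [c2_dot]; ring
  have key := hasDerivAt_integral_zero (μ := mu m)
    (F := fun θ z => gauss M (c2 a b z + θ • c2 d₁ d₂ 0))
    (F' := fun z => -(c2 d₁ d₂ 0 ⬝ᵥ M *ᵥ c2 a b z) * gauss M (c2 a b z))
    (s := Icc (-1) 1) (Icc_mem_nhds (by norm_num) (by norm_num))
    (fun θ _ => by
      simp only [← e]
      exact ((GB_gauss h).slice2 _ _).1.aestronglyMeasurable)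
    (by simpa using ((GB_gauss h).slice2 a b).integrable) hF'
    (fun z θ hθ => by
      simpa using gauss_dir_lip hs (c2 a b z) (c2 d₁ d₂ 0) (abs_le.2 hθ))
    ((GB_dir_bound h (c2 d₁ d₂ 0)).slice2 a b).integrable
    (fun z => by
      have := hasDerivAt_gauss hs (γ := fun θ => c2 a b z + θ • c2 d₁ d₂ 0) (γ' := c2 d₁ d₂ 0)
        (s := 0) (fun i => by
          simpa using ((hasDerivAt_id (0 : ℝ)).mul_const (c2 d₁ d₂ 0 i)).const_add (c2 a b z i))
      simpa using this)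
  simp only [F2, e]
  convert key using 1
  rw [D2, D2, ← integral_const_mul, ← integral_const_mul,
    ← integral_add (g0.const_mul _).integrable (g1.const_mul _).integrable, ← integral_neg]
  refine integral_congr_ae (Eventually.of_forall fun z => ?_)
  simp only [c2_dot]
  ring

theorem hasDerivAt_g (hs : M.IsSymm) (h : Coer M) (s : ℝ) :
    HasDerivAt (fun s => F2 M 0 s) (-D2 M 1 0 s) s := by
  have h1 := hasDerivAt_F2 hs h 0 s 0 1
  simp only [mul_zero, add_zero, mul_one, zero_mul, one_mul, zero_add] at h1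
  have h2 : HasDerivAt (fun x : ℝ => x - s) 1 s := (hasDerivAt_id s).sub_const s
  have h3 := HasDerivAt.comp_of_eq (h := fun x : ℝ => x - s) s h1 h2 (by simp)
  simpa [Function.comp_def] using h3

theorem logconc_F2 (h : Coer M) {κ : ℝ}
    (hκ : ∀ y : Fin (m + 2) → ℝ, 0 ≤ κ * y 0 * y 1 + (y ⬝ᵥ M *ᵥ y) / 2)
    (p p' : ℝ × ℝ) (θ : ℝ) (h0 : 0 ≤ θ) (h1 : θ ≤ 1) :
    (1 - θ) * (-(κ * p.1 * p.2) + Real.log (F2 M p.1 p.2))
      + θ * (-(κ * p'.1 * p'.2) + Real.log (F2 M p'.1 p'.2))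
      ≤ -(κ * ((1 - θ) * p.1 + θ * p'.1) * ((1 - θ) * p.2 + θ * p'.2))
        + Real.log (F2 M ((1 - θ) * p.1 + θ * p'.1) ((1 - θ) * p.2 + θ * p'.2)) := by
  set V : ℝ × ℝ → (Fin m → ℝ) → ℝ := fun p z =>
    κ * p.1 * p.2 + (c2 p.1 p.2 z ⬝ᵥ M *ᵥ c2 p.1 p.2 z) / 2 with hV
  have e1 : ∀ p z, Real.exp (-V p z) = Real.exp (-(κ * p.1 * p.2)) * gauss M (c2 p.1 p.2 z) := by
    intro p z
    rw [gauss, ← Real.exp_add, hV]
    congr 1
    ring
  have e2 : ∀ p, Real.log (∫ z, Real.exp (-V p z) ∂mu m)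
      = -(κ * p.1 * p.2) + Real.log (F2 M p.1 p.2) := by
    intro p
    simp only [e1]
    rw [integral_const_mul, ← F2, Real.log_mul (Real.exp_pos _).ne' (F2_pos h _ _).ne',
      Real.log_exp]
  have key := prekopa m V (fun p => by
      simp only [e1]
      exact ((GB_gauss h).slice2 _ _).const_mul _)
    (fun p p' z z' θ h0 h1 => by
      have e : c2 ((1 - θ) • p + θ • p').1 ((1 - θ) • p + θ • p').2 ((1 - θ) • z + θ • z')
          = (1 - θ) • c2 p.1 p.2 z + θ • c2 p'.1 p'.2 z' :=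
        fin2_ext (by simp) (by simp) (by simp)
      have hq := hκ (c2 p.1 p.2 z - c2 p'.1 p'.2 z')
      simp only [hV, e]
      simp only [mulVec_add, mulVec_smul, add_dotProduct, dotProduct_add, smul_dotProduct,
        dotProduct_smul, smul_eq_mul, mulVec_sub, sub_dotProduct, dotProduct_sub, Pi.sub_apply,
        c2_zero, c2_one, Prod.fst_add, Prod.snd_add, Prod.smul_fst, Prod.smul_snd] at hq ⊢
      nlinarith [mul_nonneg (mul_nonneg h0 (sub_nonneg.2 h1)) hq]) p p' θ h0 h1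
  rw [e2, e2, e2] at key
  simpa using key

/-- The flux through the first facet. -/
noncomputable def flux (M : Matrix (Fin (m + 2)) (Fin (m + 2)) ℝ) (κ s : ℝ) : ℝ :=
  D2 M 0 0 s + κ * s * F2 M 0 s

theorem tangent (hs : M.IsSymm) (h : Coer M) {κ : ℝ}
    (hκ : ∀ y : Fin (m + 2) → ℝ, 0 ≤ κ * y 0 * y 1 + (y ⬝ᵥ M *ᵥ y) / 2) (s t : ℝ) :
    t * flux M κ s ≤ -s * (-D2 M 1 0 s) + F2 M 0 s * (Real.log (F2 M 0 s) - Real.log (F2 M t 0)) := by
  set φ : ℝ → ℝ := fun θ => -(κ * (0 + θ * t) * (s + θ * -s))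
    + Real.log (F2 M (0 + θ * t) (s + θ * -s)) with hφ
  have gp := F2_pos h 0 s
  have hd : HasDerivAt φ (-(κ * t * s) + (-(t * D2 M 0 0 s + -s * D2 M 1 0 s)) / F2 M 0 s) 0 := by
    have h1 := (hasDerivAt_F2 hs h 0 s t (-s)).log (by simpa using gp.ne')
    have h2 : HasDerivAt (fun θ : ℝ => -(κ * (0 + θ * t) * (s + θ * -s))) (-(κ * t * s)) 0 := by
      have := ((((hasDerivAt_id' (0 : ℝ)).mul_const t).const_add 0).const_mul κ).fun_mul
        (((hasDerivAt_id' (0 : ℝ)).mul_const (-s)).const_add s)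
      exact this.fun_neg.congr_deriv (by ring)
    exact (h2.fun_add h1).congr_deriv (by simp)
  have hc : ∀ θ, 0 ≤ θ → θ ≤ 1 → (1 - θ) * φ 0 + θ * φ 1 ≤ φ θ := by
    intro θ h0 h1
    have := logconc_F2 h hκ (0, s) (t, 0) θ h0 h1
    simp only [hφ]
    convert this using 3 <;> ring_nf
  have hle : φ 1 - φ 0 ≤ -(κ * t * s) + (-(t * D2 M 0 0 s + -s * D2 M 1 0 s)) / F2 M 0 s := by
    refine ge_of_tendsto (hd.tendsto_slope_zero_right) ?_
    filter_upwards [Ioo_mem_nhdsGT (zero_lt_one (α := ℝ))] with θ hθ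
    have := hc θ hθ.1.le hθ.2.le
    rw [zero_add, smul_eq_mul, ← div_eq_inv_mul, le_div_iff₀ hθ.1]
    linarith
  simp only [hφ, mul_zero, add_zero, zero_mul, zero_add, one_mul, mul_neg, add_neg_cancel,
    neg_zero] at hle
  have := mul_le_mul_of_nonneg_left hle gp.le
  rw [mul_add, mul_div_cancel₀ _ gp.ne'] at this
  unfold flux
  nlinarith

theorem PiM_zero (hs : M.IsSymm) (h : Coer M) (j : Fin (m + 2)) :
    PiM M 0 j = ∫ w, (M *ᵥ Fin.cons 0 w) j * gauss M (Fin.cons 0 w) ∂mu (m + 1) := by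
  have hg := (GB_gauss h).mulVec_mul M j
  have key := ibp (H := fun y => -((M *ᵥ y) j * gauss M y))
    (H' := fun y => ((M *ᵥ y) 0 * (M *ᵥ y) j - M 0 j) * gauss M y)
    (by simpa using hg.const_mul (-1)) (GB_Pi h 0 j) (fun s z => by
      have hγ : ∀ i, HasDerivAt (fun s : ℝ => (Fin.cons s z : Fin (m + 2) → ℝ) i)
          ((Fin.cons 1 0 : Fin (m + 2) → ℝ) i) s := by
        intro i
        refine Fin.cases ?_ (fun k => ?_) i
        · simpa using hasDerivAt_id' s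
        · simpa using hasDerivAt_const s (z k)
      have := ((hasDerivAt_mulVec M hγ j).fun_mul (hasDerivAt_gauss hs hγ)).fun_neg
      refine this.congr_deriv ?_
      have e1 : (M *ᵥ (Fin.cons 1 0 : Fin (m + 2) → ℝ)) j = M 0 j := by
        simp [mulVec, dotProduct, Fin.sum_univ_succ, hs.apply]
      have e2 : ∀ v : Fin (m + 2) → ℝ, (Fin.cons 1 0 : Fin (m + 2) → ℝ) ⬝ᵥ v = v 0 := by
        intro v; simp [dotProduct, Fin.sum_univ_succ]
      rw [e1, e2]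
      ring)
  rw [PiM, key, integral_neg, neg_neg]

theorem PiM_zero_one (hs : M.IsSymm) (h : Coer M) : PiM M 0 1 = F2 M 0 0 := by
  rw [PiM_zero hs h]
  have key := ibp (H := fun w => -gauss M (Fin.cons 0 w))
    (H' := fun w => (M *ᵥ Fin.cons 0 w) 1 * gauss M (Fin.cons 0 w))
    (by simpa using ((GB_gauss h).slice 0).const_mul (-1))
    (((GB_gauss h).mulVec_mul M 1).slice 0) (fun s z => by
      have hγ : ∀ i, HasDerivAt (fun s : ℝ => c2 0 s z i) (c2 0 1 0 i) s := by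
        intro i
        refine Fin.cases ?_ (fun k => ?_) i
        · simpa using hasDerivAt_const s (0 : ℝ)
        · refine Fin.cases ?_ (fun k => ?_) k
          · exact hasDerivAt_id' s
          · exact hasDerivAt_const s (z k)
      have := (hasDerivAt_gauss hs hγ).fun_neg
      refine this.congr_deriv ?_
      rw [c2_dot]
      simp [c2])
  rw [key, integral_neg, neg_neg]
  rfl

theorem integrableOn_flux (h : Coer M) (κ : ℝ) : IntegrableOn (flux M κ) (Ioi 0) ∧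
    ∫ s in Ioi 0, flux M κ s = ∫ w, ((M *ᵥ Fin.cons 0 w) 0 * gauss M (Fin.cons 0 w)
      + κ * (w 0 * gauss M (Fin.cons 0 w))) ∂mu (m + 1) := by
  have g0 := ((GB_gauss h).mulVec_mul M 0).slice 0
  have g1 := (((GB_gauss h).slice 0).coord_mul 0).const_mul κ
  have hi := (g0.add g1).integrable
  have e : flux M κ = fun s => ∫ z, ((M *ᵥ c2 0 s z) 0 * gauss M (c2 0 s z)
      + κ * (s * gauss M (c2 0 s z))) ∂mu m := by
    funext s
    have := integral_add (g0.slice s).integrable (g1.slice s).integrable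
    refine Eq.trans ?_ this.symm
    simp only [Fin.cons_zero]
    rw [integral_const_mul, integral_const_mul, flux, mul_assoc]
    rfl
  rw [e]
  exact ⟨integrableOn_slice hi, (integral_mu_succ hi).symm⟩

theorem integrableOn_g (h : Coer M) : IntegrableOn (fun s => F2 M 0 s) (Ioi 0) :=
  integrableOn_slice ((GB_gauss h).slice 0).integrable

/-- First-order change when the first vector moves towards the second. -/
noncomputable def aK (M R : Matrix (Fin (m + 2)) (Fin (m + 2)) ℝ) : ℝ :=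
  PiM M 0 1 * (1 - R 0 1) + ∑ k : Fin m, PiM M 0 k.succ.succ * (R 1 k.succ.succ - R 0 k.succ.succ)

theorem aK_eq (hs : M.IsSymm) (h : Coer M) {R : Matrix (Fin (m + 2)) (Fin (m + 2)) ℝ}
    (hR : R.IsSymm) (hRM : R * M = 1) (h0 : R 0 0 = 1) (h1 : R 1 1 = 1) (hρ : R 0 1 < 1) :
    aK M R = (1 - R 0 1) * ∫ s in Ioi 0, flux M (1 - R 0 1)⁻¹ s := by
  have gj := fun j => ((GB_gauss h).mulVec_mul M j).slice 0
  have hsum : ∀ i, ∑ j, R i j * PiM M 0 j
      = ∫ w, (Fin.cons 0 w : Fin (m + 2) → ℝ) i * gauss M (Fin.cons 0 w) ∂mu (m + 1) := by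
    intro i
    simp only [PiM_zero hs h, ← integral_const_mul]
    rw [← integral_finsetSum _ fun j _ => ((gj j).const_mul _).integrable]
    refine integral_congr_ae (Eventually.of_forall fun w => ?_)
    have : (R *ᵥ (M *ᵥ Fin.cons 0 w)) i = (Fin.cons 0 w : Fin (m + 2) → ℝ) i := by
      rw [mulVec_mulVec, hRM, one_mulVec]
    simp only [← this]
    rw [mulVec, dotProduct, Finset.sum_mul]
    exact Finset.sum_congr rfl fun j _ => by ring
  have s0 := hsum 0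
  have s1 := hsum 1
  simp only [Fin.cons_zero, zero_mul, integral_zero] at s0
  rw [(integrableOn_flux h _).2, integral_add (gj 0).integrable
    ((((GB_gauss h).slice 0).coord_mul 0).const_mul _).integrable, integral_const_mul,
    ← PiM_zero hs h]
  have e : ∫ w, w 0 * gauss M (Fin.cons 0 w) ∂mu (m + 1) = ∑ j, R 1 j * PiM M 0 j := s1.symm
  rw [e]
  rw [sum2] at s0 ⊢
  have e2 : ∑ k : Fin m, PiM M 0 k.succ.succ * (R 1 k.succ.succ - R 0 k.succ.succ)
      = ∑ k : Fin m, R 1 k.succ.succ * PiM M 0 k.succ.succ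
        - ∑ k : Fin m, R 0 k.succ.succ * PiM M 0 k.succ.succ := by
    rw [← Finset.sum_sub_distrib]
    exact Finset.sum_congr rfl fun k _ => by ring
  have e3 : R 1 0 = R 0 1 := hR.apply 0 1
  have hne : 1 - R 0 1 ≠ 0 := by linarith
  rw [aK, e2, h1, e3]
  rw [h0] at s0
  field_simp
  linarith

theorem c2_swap (a b : ℝ) (z : Fin m → ℝ) : c2 a b z ∘ Equiv.swap 0 1 = c2 b a z := by
  refine fin2_ext (by simp) (by simp) fun k => ?_
  have h1 : k.succ.succ ≠ 0 := Fin.succ_ne_zero _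
  have h2 : k.succ.succ ≠ 1 := fun h => Fin.succ_ne_zero k (Fin.succ_injective _ h)
  simp [Equiv.swap_apply_of_ne_of_ne h1 h2]

theorem F2_swap (M : Matrix (Fin (m + 2)) (Fin (m + 2)) ℝ) (a b : ℝ) :
    F2 (M.submatrix (Equiv.swap 0 1) (Equiv.swap 0 1)) a b = F2 M b a := by
  unfold F2
  simp only [← c2_swap b a, gauss_perm]

/-- The key inequality. -/
theorem key_ineq (hs : M.IsSymm) (h : Coer M) {R : Matrix (Fin (m + 2)) (Fin (m + 2)) ℝ}
    (hR : R.IsSymm) (hRM : R * M = 1) (h0 : R 0 0 = 1) (h1 : R 1 1 = 1) (hρ : R 0 1 < 1)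
    (hκ : ∀ y : Fin (m + 2) → ℝ, 0 ≤ (1 - R 0 1)⁻¹ * y 0 * y 1 + (y ⬝ᵥ M *ᵥ y) / 2) :
    ∃ α β : ℝ, 0 ≤ α ∧ 0 ≤ β ∧ α ^ 2 + β ^ 2 = 1 ∧
      α ^ 2 * (PiM M 0 1 * (1 - R 0 1)
        + ∑ k : Fin m, PiM M 0 k.succ.succ * (R 1 k.succ.succ - R 0 k.succ.succ))
      + β ^ 2 * (PiM M 0 1 * (1 - R 0 1)
        + ∑ k : Fin m, PiM M 1 k.succ.succ * (R 0 k.succ.succ - R 1 k.succ.succ))
      ≤ 2 * α * β * (1 - R 0 1) * PiM M 0 1 := by
  set σ : Equiv.Perm (Fin (m + 2)) := Equiv.swap 0 1 with hσ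
  set M' := M.submatrix σ σ with hM'
  set R' := R.submatrix σ σ with hR'
  have hs' : M'.IsSymm := hs.submatrix σ
  have h' : Coer M' := h.perm σ
  have e10 : R 1 0 = R 0 1 := hR.apply 0 1
  have hσ0 : σ 0 = 1 := by simp [hσ]
  have hσ1 : σ 1 = 0 := by simp [hσ]
  have hσk : ∀ k : Fin m, σ k.succ.succ = k.succ.succ := fun k =>
    Equiv.swap_apply_of_ne_of_ne (Fin.succ_ne_zero _)
      fun h => Fin.succ_ne_zero k (Fin.succ_injective _ h)
  have hρ' : R' 0 1 = R 0 1 := by simp [hR', hσ0, hσ1, e10]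
  have hκ' : ∀ y : Fin (m + 2) → ℝ, 0 ≤ (1 - R 0 1)⁻¹ * y 0 * y 1 + (y ⬝ᵥ M' *ᵥ y) / 2 := by
    intro y
    have e : y = (y ∘ σ.symm) ∘ σ := by funext i; simp
    have := hκ (y ∘ σ.symm)
    rw [e, mulVec_submatrix_perm, dot_perm]
    simp only [Function.comp_apply, hσ0, hσ1] at this ⊢
    linarith
  have a1 := aK_eq hs h hR hRM h0 h1 hρ
  have a2 := aK_eq hs' h' (hR.submatrix σ)
    (by rw [hM', submatrix_mul_equiv, hRM, submatrix_one_equiv])
    (by simp [hσ0, h1]) (by simp [hσ1, h0]) (by rw [← hR', hρ']; exact hρ)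
  rw [← hR', hρ'] at a2
  have a2' : aK M' R' = PiM M 0 1 * (1 - R 0 1)
      + ∑ k : Fin m, PiM M 1 k.succ.succ * (R 0 k.succ.succ - R 1 k.succ.succ) := by
    simp only [aK, hM', PiM_perm, hσ0, hσ1, hσk, hR', submatrix_apply, PiM_symm hs 1 0, e10]
  have two := two_dim (hasDerivAt_g hs h) (hasDerivAt_g hs' h') (F2_pos h 0) (F2_pos h' 0)
    (integrableOn_g h) (integrableOn_g h') (integrableOn_flux h (1 - R 0 1)⁻¹).1
    (integrableOn_flux h' (1 - R 0 1)⁻¹).1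
    (fun s t _ _ => by rw [hM', F2_swap]; exact tangent hs h hκ s t)
    (fun s t _ _ => by
      have := tangent hs' h' hκ' s t
      rwa [show F2 M' t 0 = F2 M 0 t from F2_swap M t 0] at this)
  rw [show F2 M' 0 0 = F2 M 0 0 from F2_swap M 0 0, ← PiM_zero_one hs h] at two
  have pp : 0 < PiM M 0 1 := by rw [PiM_zero_one hs h]; exact F2_pos h 0 0
  rw [← a2', a2]
  change ∃ α β : ℝ, 0 ≤ α ∧ 0 ≤ β ∧ α ^ 2 + β ^ 2 = 1 ∧ α ^ 2 * aK M R + _ ≤ _
  rw [a1]
  set A := ∫ s in Ioi 0, flux M (1 - R 0 1)⁻¹ s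
  set B := ∫ s in Ioi 0, flux M' (1 - R 0 1)⁻¹ s
  set p := PiM M 0 1
  have hw : 0 < 1 - R 0 1 := by linarith
  rcases le_or_gt A 0 with hA | hA
  · exact ⟨1, 0, zero_le_one, le_rfl, by norm_num, by nlinarith⟩
  rcases le_or_gt B 0 with hB | hB
  · exact ⟨0, 1, le_rfl, zero_le_one, by norm_num, by nlinarith⟩
  rw [max_eq_left hA.le, max_eq_left hB.le] at two
  have hAB : 0 < A + B := by linarith
  refine ⟨√(B / (A + B)), √(A / (A + B)), Real.sqrt_nonneg _, Real.sqrt_nonneg _, ?_, ?_⟩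
  · rw [Real.sq_sqrt (by positivity), Real.sq_sqrt (by positivity)]
    field_simp
    ring
  · rw [Real.sq_sqrt (by positivity), Real.sq_sqrt (by positivity)]
    have e : √(B / (A + B)) * √(A / (A + B)) = √(A * B) / (A + B) := by
      rw [← Real.sqrt_mul (by positivity), div_mul_div_comm, Real.sqrt_div' _ (by positivity),
        Real.sqrt_mul_self hAB.le, mul_comm]
    have h3 : √(A * B) ≤ p := Real.sqrt_le_iff.2 ⟨pp.le, by nlinarith⟩
    have h4 : A * B ≤ √(A * B) * p := by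
      have := Real.mul_self_sqrt (show 0 ≤ A * B by positivity)
      nlinarith [Real.sqrt_nonneg (A * B)]
    calc B / (A + B) * ((1 - R 0 1) * A) + A / (A + B) * ((1 - R 0 1) * B)
        = 2 * (1 - R 0 1) / (A + B) * (A * B) := by field_simp; ring
      _ ≤ 2 * (1 - R 0 1) / (A + B) * (√(A * B) * p) := by gcongr
      _ = 2 * (√(A * B) / (A + B)) * (1 - R 0 1) * p := by ring
      _ = _ := by rw [← e]; ring

end Two

end Pool.Agent.P.MP_bc3e0b_gt
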