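import Pool.Agent.P.MP_bc3e0b_gt.Deriv

set_option autoImplicit false

namespace Pool.Agent.P.MP_bc3e0b_gt

open MeasureTheory Set Filter Topology Matrix

/-- The feasible set. -/
def Kset (n : ℕ) (a η : ℝ) : Set (Matrix (Fin n) (Fin n) ℝ) :=
  {R | R.IsSymm ∧ (∀ i, R i i = 1) ∧ ∀ x, a * (∑ i, x i) ^ 2 + η * (x ⬝ᵥ x) ≤ x ⬝ᵥ R *ᵥ x}

/-- Equicorrelated matrix. -/
def Req (n : ℕ) (γ : ℝ) : Matrix (Fin n) (Fin n) ℝ := Matrix.of fun i j => if i = j then 1 else γ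

/-- Penalised functional. -/
noncomputable def Phi {n : ℕ} (ε : ℝ) (R : Matrix (Fin n) (Fin n) ℝ) : ℝ :=
  Lam R + ε / 4 * ∑ i, ∑ j, R i j ^ 2

section General

variable {n : ℕ} {a η ε : ℝ} {R : Matrix (Fin n) (Fin n) ℝ}

theorem Kset_adm (ha : 0 ≤ a) (h : R ∈ Kset n a η) : Adm η R :=
  ⟨h.1, h.2.1, fun x => by nlinarith [h.2.2 x, mul_nonneg ha (sq_nonneg (∑ i, x i))]⟩

theorem Kset_perm (h : R ∈ Kset n a η) (σ : Equiv.Perm (Fin n)) :
    R.submatrix σ σ ∈ Kset n a η := by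
  refine ⟨h.1.submatrix σ, fun i => h.2.1 _, fun y => ?_⟩
  have e : y = (y ∘ σ.symm) ∘ σ := by funext i; simp
  have := h.2.2 (y ∘ σ.symm)
  rw [← dot_perm σ, ← dot_perm σ _ (R *ᵥ _), ← mulVec_submatrix_perm, ← e] at this
  have e2 : ∑ i, (y ∘ σ.symm) i = ∑ i, y i := Equiv.sum_comp σ.symm y
  rwa [e2] at this

theorem Kset_line {R' : Matrix (Fin n) (Fin n) ℝ} (h : R ∈ Kset n a η) (h' : R' ∈ Kset n a η)
    {θ : ℝ} (h0 : 0 ≤ θ) (h1 : θ ≤ 1) : R + θ • (R' - R) ∈ Kset n a η := by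
  refine ⟨h.1.add ((h'.1.sub h.1).smul θ), fun i => by simp [h.2.1, h'.2.1], fun x => ?_⟩
  rw [add_mulVec, smul_mulVec, sub_mulVec, dotProduct_add, dotProduct_smul, dotProduct_sub,
    smul_eq_mul]
  nlinarith [mul_le_mul_of_nonneg_left (h.2.2 x) (sub_nonneg.2 h1),
    mul_le_mul_of_nonneg_left (h'.2.2 x) h0]

theorem isCompact_Kset (ha : 0 ≤ a) (hη : 0 < η) : IsCompact (Kset n a η) := by
  have hc : IsCompact (Set.univ.pi fun _ : Fin n => Set.univ.pi fun _ : Fin n => Icc (-1 : ℝ) 1) :=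
    isCompact_univ_pi fun _ => isCompact_univ_pi fun _ => isCompact_Icc
  refine IsCompact.of_isClosed_subset (s := Set.univ.pi fun _ : Fin n =>
    Set.univ.pi fun _ : Fin n => Icc (-1 : ℝ) 1) hc ?_ ?_
  · have e : Kset n a η = {R : Matrix (Fin n) (Fin n) ℝ | Rᵀ = R} ∩
        ((⋂ i, {R : Matrix (Fin n) (Fin n) ℝ | R i i = 1}) ∩
          ⋂ x, {R : Matrix (Fin n) (Fin n) ℝ |
            a * (∑ i, x i) ^ 2 + η * (x ⬝ᵥ x) ≤ x ⬝ᵥ R *ᵥ x}) := by
      ext R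
      simp [Kset, IsSymm]
    rw [e]
    refine (isClosed_eq (by fun_prop) continuous_id).inter
      ((isClosed_iInter fun i => isClosed_eq (by fun_prop) continuous_const).inter
        (isClosed_iInter fun x => isClosed_le continuous_const (by fun_prop)))
  · intro R hR i _ j _
    exact abs_le.1 ((Kset_adm ha hR).abs_le_one hη i j)

theorem Phi_perm (R : Matrix (Fin n) (Fin n) ℝ) (σ : Equiv.Perm (Fin n)) :
    Phi ε (R.submatrix σ σ) = Phi ε R := by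
  rw [Phi, Phi, Lam_perm]
  congr 2
  rw [← Equiv.sum_comp σ fun i => ∑ j, R i j ^ 2]
  exact Finset.sum_congr rfl fun i _ => Equiv.sum_comp σ fun j => R (σ i) j ^ 2

theorem isMinOn_perm (h : IsMinOn (Phi ε) (Kset n a η) R) (σ : Equiv.Perm (Fin n)) :
    IsMinOn (Phi ε) (Kset n a η) (R.submatrix σ σ) := by
  intro R' hR'
  have := h hR'
  simp only [mem_ofPred_eq] at this ⊢
  rwa [Phi_perm]

theorem first_order (ha : 0 ≤ a) (hη : 0 < η) (hR : R ∈ Kset n a η)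
    (h : IsMinOn (Phi ε) (Kset n a η) R) {H : Matrix (Fin n) (Fin n) ℝ}
    (hH : R + H ∈ Kset n a η) :
    0 ≤ ∑ i, ∑ j, H i j * (PiM R⁻¹ i j / IM R⁻¹ + ε * R i j) := by
  have h1 := hasDerivAt_Lam (Kset_adm ha hR) hη H
  have h2 : HasDerivAt (fun θ : ℝ => ∑ i, ∑ j, (R + θ • H) i j ^ 2)
      (∑ i, ∑ j, 2 * (R i j * H i j)) 0 := by
    refine HasDerivAt.fun_sum fun i _ => HasDerivAt.fun_sum fun j _ => ?_
    have := (((hasDerivAt_id' (0 : ℝ)).mul_const (H i j)).const_add (R i j)).fun_pow 2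
    exact this.congr_deriv (by simp; ring)
  have h3 : HasDerivAt (fun θ : ℝ => Phi ε (R + θ • H))
      ((∑ i, ∑ j, H i j * (PiM R⁻¹ i j / IM R⁻¹ + ε * R i j)) / 2) 0 := by
    refine (h1.fun_add (h2.const_mul (ε / 4))).congr_deriv ?_
    simp only [Finset.sum_div, Finset.mul_sum, ← Finset.sum_add_distrib]
    exact Finset.sum_congr rfl fun i _ => Finset.sum_congr rfl fun j _ => by ring
  have h4 : 0 ≤ (∑ i, ∑ j, H i j * (PiM R⁻¹ i j / IM R⁻¹ + ε * R i j)) / 2 := by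
    refine ge_of_tendsto h3.tendsto_slope_zero_right ?_
    filter_upwards [Ioo_mem_nhdsGT (zero_lt_one (α := ℝ))] with θ hθ
    have := h (Kset_line hR hH hθ.1.le hθ.2.le)
    simp only [add_sub_cancel_left, mem_ofPred_eq] at this
    simp only [zero_add, zero_smul, add_zero, smul_eq_mul]
    exact mul_nonneg (inv_nonneg.2 hθ.1.le) (sub_nonneg.2 this)
  linarith

theorem quad_Req (γ : ℝ) (x : Fin n → ℝ) :
    x ⬝ᵥ Req n γ *ᵥ x = (1 - γ) * (x ⬝ᵥ x) + γ * (∑ i, x i) ^ 2 := by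
  have e : ∀ i, (Req n γ *ᵥ x) i = (1 - γ) * x i + γ * ∑ j, x j := by
    intro i
    have : ∀ j, Req n γ i j * x j = (if i = j then (1 - γ) * x j else 0) + γ * x j := by
      intro j
      simp only [Req, of_apply]
      split_ifs <;> ring
    simp only [mulVec, dotProduct, this, Finset.sum_add_distrib, Finset.sum_ite_eq,
      Finset.mem_univ, if_true, Finset.mul_sum]
  simp only [dotProduct, e, mul_add, Finset.sum_add_distrib]
  rw [← Finset.sum_mul]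
  congr 1
  · rw [Finset.mul_sum]
    exact Finset.sum_congr rfl fun i _ => by ring
  · ring

end General

section Two

variable {m : ℕ} {a η ε : ℝ} {R : Matrix (Fin (m + 2)) (Fin (m + 2)) ℝ}

theorem exists_perm {i j : Fin (m + 2)} (hij : i ≠ j) :
    ∃ σ : Equiv.Perm (Fin (m + 2)), σ 0 = i ∧ σ 1 = j := by
  have h : Equiv.swap 0 i j ≠ 0 := by
    intro e
    rw [Equiv.swap_apply_eq_iff, Equiv.swap_apply_left] at e
    exact hij e.symm
  refine ⟨(Equiv.swap 1 (Equiv.swap 0 i j)).trans (Equiv.swap 0 i), ?_, ?_⟩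
  · rw [Equiv.trans_apply, Equiv.swap_apply_of_ne_of_ne zero_ne_one h.symm, Equiv.swap_apply_left]
  · simp

theorem exists_lower (m : ℕ) (hη : 0 < η) : ∃ c : ℝ, 0 < c ∧
    ∀ R : Matrix (Fin (m + 2)) (Fin (m + 2)) ℝ, Adm η R → ∀ i j, i ≠ j →
      c ≤ PiM R⁻¹ i j / IM R⁻¹ := by
  set N : ℝ := (((m + 2 : ℕ) : ℝ) ^ 2 + 1)⁻¹ / 2 with hN
  have hN0 : 0 < N := by positivity
  have i1 := integrable_gauss m (c := η⁻¹ / 2) (by positivity)
  have i2 := integrable_gauss (m + 2) hN0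
  have p1 := integral_exp_pos i1
  have p2 := integral_exp_pos i2
  have key : ∀ R : Matrix (Fin (m + 2)) (Fin (m + 2)) ℝ, Adm η R →
      (∫ z, Real.exp (-(η⁻¹ / 2) * (z ⬝ᵥ z)) ∂mu m) / (∫ z, Real.exp (-N * (z ⬝ᵥ z)) ∂mu (m + 2))
        ≤ PiM R⁻¹ 0 1 / IM R⁻¹ := by
    intro R hR
    have hc := hR.coer_inv hη
    rw [PiM_zero_one hR.inv_symm hc]
    refine div_le_div₀ (F2_pos hc 0 0).le ?_ (IM_pos hc) ?_
    · refine integral_mono i1 ((GB_gauss hc).slice2 0 0).integrable fun z => ?_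
      refine Real.exp_le_exp.2 ?_
      have h1 := hR.inv_up hη (c2 0 0 z)
      have h2 : c2 0 0 z ⬝ᵥ c2 0 0 z = z ⬝ᵥ z := by
        rw [c2, dot_cons, dot_cons]; ring
      rw [h2] at h1
      linarith
    · refine integral_mono (GB_gauss hc).integrable i2 fun y => ?_
      refine Real.exp_le_exp.2 ?_
      have := hR.inv_low hη y
      rw [hN]
      linarith
  refine ⟨_, div_pos p1 p2, fun R hR i j hij => ?_⟩
  obtain ⟨σ, h0, h1⟩ := exists_perm hij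
  have := key _ (hR.perm σ)
  rwa [inv_submatrix_equiv, PiM_perm, IM, integral_gauss_perm, h0, h1] at this

/-- A symmetric matrix supported in the first two rows and columns, with zero diagonal. -/
def blk (h : ℝ) (r₀ r₁ : Fin m → ℝ) : Matrix (Fin (m + 2)) (Fin (m + 2)) ℝ :=
  Matrix.of (Fin.cons (c2 0 h r₀) (Fin.cons (c2 h 0 r₁) fun k => c2 (r₀ k) (r₁ k) 0))

theorem blk_zero (h : ℝ) (r₀ r₁ : Fin m → ℝ) : blk h r₀ r₁ 0 = c2 0 h r₀ := rfl
theorem blk_one (h : ℝ) (r₀ r₁ : Fin m → ℝ) : blk h r₀ r₁ 1 = c2 h 0 r₁ := rfl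
theorem blk_succ (h : ℝ) (r₀ r₁ : Fin m → ℝ) (k : Fin m) :
    blk h r₀ r₁ k.succ.succ = c2 (r₀ k) (r₁ k) 0 := rfl

theorem forall2 {P : Fin (m + 2) → Prop} (h0 : P 0) (h1 : P 1) (h2 : ∀ k : Fin m, P k.succ.succ)
    (i : Fin (m + 2)) : P i := by
  refine Fin.cases h0 (fun j => ?_) i
  exact Fin.cases h1 h2 j

theorem blk_symm (h : ℝ) (r₀ r₁ : Fin m → ℝ) : (blk h r₀ r₁).IsSymm := by
  refine IsSymm.ext fun i j => ?_
  revert j
  refine forall2 (P := fun i => ∀ j, blk h r₀ r₁ j i = blk h r₀ r₁ i j) ?_ ?_ (fun k => ?_) i <;>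
    exact forall2 rfl rfl fun _ => rfl

theorem blk_diag (h : ℝ) (r₀ r₁ : Fin m → ℝ) (i : Fin (m + 2)) : blk h r₀ r₁ i i = 0 := by
  refine forall2 (P := fun i => blk h r₀ r₁ i i = 0) ?_ ?_ (fun k => ?_) i <;> rfl

theorem blk_sum (h : ℝ) (r₀ r₁ : Fin m → ℝ) (X : Fin (m + 2) → Fin (m + 2) → ℝ)
    (hX : ∀ i j, X i j = X j i) :
    ∑ i, ∑ j, blk h r₀ r₁ i j * X i j
      = 2 * (h * X 0 1 + ∑ k : Fin m, (r₀ k * X 0 k.succ.succ + r₁ k * X 1 k.succ.succ)) := by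
  simp only [sum2, blk_zero, blk_one, blk_succ, c2_zero, c2_one, c2_succ, Pi.zero_apply, zero_mul,
    Finset.sum_const_zero, hX 1 0, hX (Fin.succ (Fin.succ _)) 0, hX (Fin.succ (Fin.succ _)) 1,
    Finset.sum_add_distrib]
  ring

theorem perturb_mem (hR : R ∈ Kset (m + 2) a η) (hw : 0 ≤ 1 - R 0 1 - η) {α β τ : ℝ}
    (hαβ : α ^ 2 + β ^ 2 = 1) (h0 : 0 ≤ τ) (h1 : τ ≤ 1) :
    R + blk (τ * ((1 - R 0 1 - η) * ((α - β) ^ 2 + 2 * τ * (α * β - α ^ 2 * β ^ 2))))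
      (fun k => τ * α ^ 2 * (R 1 k.succ.succ - R 0 k.succ.succ))
      (fun k => τ * β ^ 2 * (R 0 k.succ.succ - R 1 k.succ.succ)) ∈ Kset (m + 2) a η := by
  refine ⟨hR.1.add (blk_symm _ _ _), fun i => by rw [Matrix.add_apply, blk_diag, hR.2.1, add_zero],
    fun x => ?_⟩
  set δ := τ * α ^ 2 * x 0 - τ * β ^ 2 * x 1 with hδ
  set w := 1 - R 0 1 - η with hwd
  set S := ∑ k : Fin m, (R 1 k.succ.succ - R 0 k.succ.succ) * x k.succ.succ with hS
  set v : Fin (m + 2) → ℝ := Pi.single 0 (-δ) + Pi.single 1 δ with hv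
  have hq := hR.2.2 (x + v)
  have e1 : ∑ i, (x + v) i = ∑ i, x i := by
    simp [hv, Finset.sum_add_distrib]
  have e2 : (x + v) ⬝ᵥ (x + v) = x ⬝ᵥ x + 2 * δ * (x 1 - x 0) + 2 * δ ^ 2 := by
    rw [add_dotProduct, dotProduct_add x x v, dotProduct_add v x v, dotProduct_comm x v, hv,
      dot_pair zero_ne_one]
    simp only [add_dotProduct, single_dotProduct]
    ring
  have e10 : R 1 0 = R 0 1 := hR.1.apply 0 1
  have e3 : (R *ᵥ x) 1 - (R *ᵥ x) 0 = (1 - R 0 1) * (x 1 - x 0) + S := by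
    simp only [mulVec, dotProduct, sum2, hS, sub_mul, Finset.sum_sub_distrib, hR.2.1, e10]
    ring
  have e4 : (x + v) ⬝ᵥ R *ᵥ (x + v)
      = x ⬝ᵥ R *ᵥ x + 2 * δ * ((1 - R 0 1) * (x 1 - x 0) + S) + 2 * δ ^ 2 * (1 - R 0 1) := by
    rw [mulVec_add R x v, add_dotProduct, dotProduct_add x, dotProduct_add v,
      dot_mulVec_comm hR.1 x v, hv, quad_pair hR.1, hR.2.1, hR.2.1, ← e3]
    simp only [add_dotProduct, single_dotProduct]
    ring
  have e5 : ∀ H : Matrix (Fin (m + 2)) (Fin (m + 2)) ℝ,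
      x ⬝ᵥ H *ᵥ x = ∑ i, ∑ j, H i j * (x i * x j) := by
    intro H
    simp only [dotProduct, mulVec, Finset.mul_sum]
    exact Finset.sum_congr rfl fun i _ => Finset.sum_congr rfl fun j _ => by ring
  have e6 : ∑ k : Fin m, (τ * α ^ 2 * (R 1 k.succ.succ - R 0 k.succ.succ) * (x 0 * x k.succ.succ)
      + τ * β ^ 2 * (R 0 k.succ.succ - R 1 k.succ.succ) * (x 1 * x k.succ.succ)) = δ * S := by
    rw [hS, Finset.mul_sum]
    exact Finset.sum_congr rfl fun k _ => by rw [hδ]; ring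
  rw [add_mulVec, dotProduct_add, e5 (blk _ _ _), blk_sum _ _ _ _ fun i j => mul_comm _ _, e6]
  rw [e1, e2, e4] at hq
  have hβ : β ^ 2 = 1 - α ^ 2 := by linarith
  have r : 2 * (τ * (w * ((α - β) ^ 2 + 2 * τ * (α * β - α ^ 2 * β ^ 2))) * (x 0 * x 1))
      - 2 * δ * w * (x 1 - x 0) - 2 * w * δ ^ 2
      = 2 * w * τ * (1 - τ) * (α * x 0 - β * x 1) ^ 2
        + 2 * w * τ ^ 2 * (α ^ 2 * β ^ 2) * (x 0 ^ 2 + x 1 ^ 2) := by
    rw [hδ]
    linear_combination (-2 * w * τ ^ 2 * (α ^ 2 * x 0 ^ 2 + β ^ 2 * x 1 ^ 2)) * hαβ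
  have r1 : 0 ≤ 2 * w * τ * (1 - τ) * (α * x 0 - β * x 1) ^ 2 := by
    have := sub_nonneg.2 h1
    positivity
  have r2 : 0 ≤ 2 * w * τ ^ 2 * (α ^ 2 * β ^ 2) * (x 0 ^ 2 + x 1 ^ 2) := by positivity
  have e7 : 1 - R 0 1 = w + η := by rw [hwd]; ring
  rw [e7] at hq
  nlinarith

theorem real_aux {α β x y : ℝ} (hαβ : α ^ 2 + β ^ 2 = 1) (b0 : -1 ≤ x ∧ x ≤ 1)
    (b1 : -1 ≤ y ∧ y ≤ 1) :
    α ^ 2 * (y - x) * x + β ^ 2 * (x - y) * y ≤ 2 * (α - β) ^ 2 - (y - x) ^ 2 / 4 := by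
  have u1 : (α ^ 2 - β ^ 2) ^ 2 ≤ 2 * (α - β) ^ 2 := by
    have : (α + β) ^ 2 ≤ 2 := by nlinarith [sq_nonneg (α - β)]
    calc (α ^ 2 - β ^ 2) ^ 2 = (α + β) ^ 2 * (α - β) ^ 2 := by ring
      _ ≤ _ := mul_le_mul_of_nonneg_right this (sq_nonneg _)
  have u2 : α ^ 2 * (y - x) * x + β ^ 2 * (x - y) * y
      = -(y - x) ^ 2 / 2 + (α ^ 2 - β ^ 2) * ((x + y) / 2) * (y - x) := by
    linear_combination (-(y - x) ^ 2 / 2) * hαβ
  have u3 : ((x + y) / 2) ^ 2 ≤ 1 := by nlinarith [b0.1, b0.2, b1.1, b1.2]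
  have u4 : ((α ^ 2 - β ^ 2) * ((x + y) / 2)) ^ 2 ≤ (α ^ 2 - β ^ 2) ^ 2 := by
    rw [mul_pow]
    exact mul_le_of_le_one_right (sq_nonneg _) u3
  rw [u2]
  generalize (α ^ 2 - β ^ 2) * ((x + y) / 2) = t at u4 ⊢
  nlinarith [sq_nonneg (t - (y - x) / 2)]

theorem swap_symm (ha : 0 ≤ a) (hη : 0 < η) (hε : 0 < ε) {c : ℝ} (hc : c ≤ PiM R⁻¹ 0 1 / IM R⁻¹)
    (hεc : ε * (2 * m + 2) ≤ η * c) (hR : R ∈ Kset (m + 2) a η)
    (h : IsMinOn (Phi ε) (Kset (m + 2) a η) R) (k : Fin m) :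
    R 0 k.succ.succ = R 1 k.succ.succ := by
  have hA := Kset_adm ha hR
  have hco := hA.coer_inv hη
  have hI := IM_pos hco
  have hρ := hA.off_le (i := 0) (j := 1) zero_ne_one
  obtain ⟨α, β, hα, hβ, hαβ, hk⟩ := key_ineq hA.inv_symm hco hA.symm (hA.mul_inv hη) (hA.diag 0)
    (hA.diag 1) (by linarith) (hA.kappa hη zero_ne_one)
  set P : Fin (m + 2) → Fin (m + 2) → ℝ := fun i j => PiM R⁻¹ i j / IM R⁻¹ + ε * R i j with hP
  have hPs : ∀ i j, P i j = P j i := fun i j => by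
    simp only [hP, PiM_symm hA.inv_symm i j, hA.symm.apply i j]
  set w := 1 - R 0 1 - η with hw
  have hw0 : 0 ≤ w := by linarith
  set E₀ := w * (α - β) ^ 2 * P 0 1 + ∑ k : Fin m,
    (α ^ 2 * (R 1 k.succ.succ - R 0 k.succ.succ) * P 0 k.succ.succ
      + β ^ 2 * (R 0 k.succ.succ - R 1 k.succ.succ) * P 1 k.succ.succ) with hE₀
  have h1 : ∀ τ : ℝ, 0 < τ → τ ≤ 1 → 0 ≤ E₀ + τ * (2 * w * (α * β - α ^ 2 * β ^ 2) * P 0 1) := by
    intro τ h0 h1
    have := first_order ha hη hR h (perturb_mem hR hw0 hαβ h0.le h1)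
    rw [blk_sum _ _ _ P hPs] at this
    have e : 2 * (τ * (w * ((α - β) ^ 2 + 2 * τ * (α * β - α ^ 2 * β ^ 2))) * P 0 1
        + ∑ k : Fin m, (τ * α ^ 2 * (R 1 k.succ.succ - R 0 k.succ.succ) * P 0 k.succ.succ
          + τ * β ^ 2 * (R 0 k.succ.succ - R 1 k.succ.succ) * P 1 k.succ.succ))
        = 2 * τ * (E₀ + τ * (2 * w * (α * β - α ^ 2 * β ^ 2) * P 0 1)) := by
      have : ∑ k : Fin m, (τ * α ^ 2 * (R 1 k.succ.succ - R 0 k.succ.succ) * P 0 k.succ.succ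
          + τ * β ^ 2 * (R 0 k.succ.succ - R 1 k.succ.succ) * P 1 k.succ.succ)
          = τ * ∑ k : Fin m, (α ^ 2 * (R 1 k.succ.succ - R 0 k.succ.succ) * P 0 k.succ.succ
          + β ^ 2 * (R 0 k.succ.succ - R 1 k.succ.succ) * P 1 k.succ.succ) := by
        rw [Finset.mul_sum]
        exact Finset.sum_congr rfl fun k _ => by ring
      rw [this, hE₀]
      ring
    rw [e] at this
    exact (mul_nonneg_iff_of_pos_left (by positivity)).1 this
  have h2 : 0 ≤ E₀ := by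
    have ht : Tendsto (fun τ : ℝ => E₀ + τ * (2 * w * (α * β - α ^ 2 * β ^ 2) * P 0 1)) (𝓝[>] 0)
        (𝓝 (E₀ + 0 * (2 * w * (α * β - α ^ 2 * β ^ 2) * P 0 1))) :=
      (Continuous.tendsto (by fun_prop) 0).mono_left nhdsWithin_le_nhds
    rw [zero_mul, add_zero] at ht
    refine ge_of_tendsto ht ?_
    filter_upwards [Ioo_mem_nhdsGT (zero_lt_one (α := ℝ))] with τ hτ using h1 τ hτ.1 hτ.2.le
  set p := PiM R⁻¹ 0 1 / IM R⁻¹ with hp
  set S₀ := ∑ k : Fin m, PiM R⁻¹ 0 k.succ.succ * (R 1 k.succ.succ - R 0 k.succ.succ) with hS₀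
  set S₁ := ∑ k : Fin m, PiM R⁻¹ 1 k.succ.succ * (R 0 k.succ.succ - R 1 k.succ.succ) with hS₁
  set D := ∑ k : Fin m, (α ^ 2 * (R 1 k.succ.succ - R 0 k.succ.succ) * R 0 k.succ.succ
      + β ^ 2 * (R 0 k.succ.succ - R 1 k.succ.succ) * R 1 k.succ.succ) with hD
  have e1 : E₀ = w * (α - β) ^ 2 * (p + ε * R 0 1) + (α ^ 2 * S₀ + β ^ 2 * S₁) / IM R⁻¹ + ε * D := by
    rw [hE₀, hS₀, hS₁, hD, Finset.mul_sum, Finset.mul_sum, Finset.mul_sum,
      ← Finset.sum_add_distrib, Finset.sum_div, add_assoc, ← Finset.sum_add_distrib]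
    congr 1
    exact Finset.sum_congr rfl fun k _ => by simp only [hP]; ring
  have e2 : (α ^ 2 * S₀ + β ^ 2 * S₁) / IM R⁻¹ ≤ -((w + η) * (α - β) ^ 2 * p) := by
    rw [div_le_iff₀ hI]
    have : p * IM R⁻¹ = PiM R⁻¹ 0 1 := div_mul_cancel₀ _ hI.ne'
    have e : -((w + η) * (α - β) ^ 2 * p) * IM R⁻¹ = -((1 - R 0 1) * (α - β) ^ 2 * PiM R⁻¹ 0 1) := by
      rw [← this, hw]; ring
    rw [e]
    nlinarith
  have e3 : D ≤ ∑ k : Fin m, (2 * (α - β) ^ 2 - (R 1 k.succ.succ - R 0 k.succ.succ) ^ 2 / 4) := by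
    refine Finset.sum_le_sum fun k _ => ?_
    have b0 := abs_le.1 (hA.abs_le_one hη 0 k.succ.succ)
    have b1 := abs_le.1 (hA.abs_le_one hη 1 k.succ.succ)
    exact real_aux hαβ b0 b1
  rw [Finset.sum_sub_distrib, Finset.sum_const, Finset.card_univ, Fintype.card_fin, nsmul_eq_mul,
    ← Finset.sum_div] at e3
  have b01 := abs_le.1 (hA.abs_le_one hη 0 1)
  have e4 : w * R 0 1 ≤ 2 := by nlinarith
  have hx := sq_nonneg (α - β)
  have e5 : ε * (∑ k : Fin m, (R 1 k.succ.succ - R 0 k.succ.succ) ^ 2) ≤ 0 := by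
    have f1 : ε * (w * R 0 1) * (α - β) ^ 2 ≤ ε * 2 * (α - β) ^ 2 := by gcongr
    have f2 : ε * (2 * m + 2) * (α - β) ^ 2 ≤ η * p * (α - β) ^ 2 := by
      refine mul_le_mul_of_nonneg_right (hεc.trans ?_) hx
      exact mul_le_mul_of_nonneg_left hc hη.le
    have f3 := mul_le_mul_of_nonneg_left e3 hε.le
    rw [e1] at h2
    linarith
  have e6 : ∑ k : Fin m, (R 1 k.succ.succ - R 0 k.succ.succ) ^ 2 = 0 :=
    le_antisymm (nonpos_of_mul_nonpos_right e5 hε)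
      (Finset.sum_nonneg fun k _ => sq_nonneg _)
  have := (Finset.sum_eq_zero_iff_of_nonneg fun k _ => sq_nonneg _).1 e6 k (Finset.mem_univ k)
  have := pow_eq_zero_iff (two_ne_zero) |>.1 this
  linarith

theorem Req_mem (hb : a + η ≤ 1) :
    Req (m + 2) ((a * (m + 2) + η - 1) / (m + 1)) ∈ Kset (m + 2) a η := by
  refine ⟨IsSymm.ext fun i j => by simp [Req, eq_comm], fun i => by simp [Req], fun x => ?_⟩
  rw [quad_Req]
  have h1 : (∑ i, x i) ^ 2 ≤ (m + 2) * (x ⬝ᵥ x) := by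
    have := sq_sum_le_card_mul_sum_sq (s := Finset.univ) (f := x)
    simpa [dotProduct, sq] using this
  have hm : (0 : ℝ) < m + 1 := by positivity
  have e : (1 - (a * (m + 2) + η - 1) / (m + 1)) * (x ⬝ᵥ x)
      + (a * (m + 2) + η - 1) / (m + 1) * (∑ i, x i) ^ 2 - (a * (∑ i, x i) ^ 2 + η * (x ⬝ᵥ x))
      = (1 - a - η) / (m + 1) * ((m + 2) * (x ⬝ᵥ x) - (∑ i, x i) ^ 2) := by
    field_simp
    ring
  have : 0 ≤ (1 - a - η) / (m + 1) * ((m + 2) * (x ⬝ᵥ x) - (∑ i, x i) ^ 2) :=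
    mul_nonneg (div_nonneg (by linarith) hm.le) (sub_nonneg.2 h1)
  linarith

theorem min_eq_Req (ha : 0 ≤ a) (hη : 0 < η) (hb : a + η ≤ 1) (hε : 0 < ε) {c : ℝ}
    (hc : ∀ R : Matrix (Fin (m + 2)) (Fin (m + 2)) ℝ, Adm η R → ∀ i j, i ≠ j →
      c ≤ PiM R⁻¹ i j / IM R⁻¹)
    (hεc : ε * (2 * m + 2) ≤ η * c) (hεc' : ε < c) (hR : R ∈ Kset (m + 2) a η)
    (h : IsMinOn (Phi ε) (Kset (m + 2) a η) R) :
    R = Req (m + 2) ((a * (m + 2) + η - 1) / (m + 1)) := by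
  have hA := Kset_adm ha hR
  have s1 : ∀ i j k, i ≠ k → j ≠ k → R i k = R j k := by
    intro i j k hik hjk
    by_cases hij : i = j
    · rw [hij]
    obtain ⟨σ, h0, h1⟩ := exists_perm hij
    have hR' := Kset_perm hR σ
    have key := swap_symm ha hη hε (hc _ (Kset_adm ha hR') 0 1 zero_ne_one) hεc hR'
      (isMinOn_perm h σ)
    have : ∀ l, σ l = k → R i k = R j k := by
      refine forall2 (fun e => absurd (h0.symm.trans e) hik) (fun e => absurd (h1.symm.trans e) hjk)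
        fun l e => ?_
      have := key l
      rwa [submatrix_apply, submatrix_apply, h0, h1, e] at this
    exact this (σ.symm k) (by simp)
  have s2 : ∀ i j, i ≠ j → R i j = R 0 1 := by
    intro i j hij
    by_cases hj : j = 0
    · subst hj
      rw [s1 i 1 0 hij one_ne_zero, hA.symm.apply]
    · rw [s1 i 0 j hij (Ne.symm hj), ← hA.symm.apply 0 j, s1 j 1 0 hj one_ne_zero, hA.symm.apply]
  have e : R = Req (m + 2) (R 0 1) := by
    ext i j
    simp only [Req, of_apply]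
    split_ifs with hij
    · rw [hij, hA.diag]
    · exact s2 i j hij
  set γ := (a * (m + 2) + η - 1) / (m + 1) with hγ
  have hm : (0 : ℝ) < m + 1 := by positivity
  have l1 : γ ≤ R 0 1 := by
    have := hR.2.2 fun _ => 1
    rw [e, quad_Req] at this
    simp only [dotProduct, mul_one, Finset.sum_const, Finset.card_univ, Fintype.card_fin,
      nsmul_eq_mul, Nat.cast_add, Nat.cast_ofNat] at this
    rw [hγ, div_le_iff₀ hm]
    have h2 : (0 : ℝ) < m + 2 := by positivity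
    have : (m + 2) * (a * (m + 2) + η - 1) ≤ (m + 2) * (R 0 1 * (m + 1)) := by nlinarith
    exact le_of_mul_le_mul_left this h2
  have l2 : R 0 1 ≤ γ := by
    by_contra hlt
    push Not at hlt
    have := first_order ha hη hR h (H := Req (m + 2) γ - R) (by
      rw [add_sub_cancel]; exact Req_mem hb)
    have hneg : ∀ i j, i ≠ j →
        (Req (m + 2) γ - R) i j * (PiM R⁻¹ i j / IM R⁻¹ + ε * R i j) < 0 := by
      intro i j hij
      have b := abs_le.1 (hA.abs_le_one hη i j)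
      have := hc R hA i j hij
      refine mul_neg_of_neg_of_pos ?_ (by nlinarith)
      rw [Matrix.sub_apply, s2 i j hij]
      simp only [Req, of_apply, if_neg hij]
      linarith
    have hle : ∀ i j, (Req (m + 2) γ - R) i j * (PiM R⁻¹ i j / IM R⁻¹ + ε * R i j) ≤ 0 := by
      intro i j
      by_cases hij : i = j
      · subst hij
        simp [Req, hA.diag]
      · exact (hneg i j hij).le
    refine absurd this (not_le.2 ?_)
    refine Finset.sum_neg' (fun i _ => Finset.sum_nonpos fun j _ => hle i j)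
      ⟨0, Finset.mem_univ _, ?_⟩
    exact Finset.sum_neg' (fun j _ => hle 0 j) ⟨1, Finset.mem_univ _, hneg 0 1 zero_ne_one⟩
  rw [e, le_antisymm l2 l1]

theorem Lam_Req_le (ha : 0 ≤ a) (hη : 0 < η) (hb : a + η ≤ 1) (hR : R ∈ Kset (m + 2) a η) :
    Lam (Req (m + 2) ((a * (m + 2) + η - 1) / (m + 1))) ≤ Lam R := by
  obtain ⟨c, c0, hc⟩ := exists_lower m hη
  have key : ∀ ε : ℝ, 0 < ε → ε * (2 * m + 2) ≤ η * c → ε < c →
      Lam (Req (m + 2) ((a * (m + 2) + η - 1) / (m + 1))) ≤ Lam R + ε / 4 * ∑ i, ∑ j, R i j ^ 2 := by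
    intro ε hε h1 h2
    have hcont : ContinuousOn (Phi ε) (Kset (m + 2) a η) :=
      ((continuousOn_Lam hη).mono fun R hR => Kset_adm ha hR).add
        (Continuous.continuousOn (by fun_prop))
    obtain ⟨R₀, hR₀, hmin⟩ := (isCompact_Kset ha hη).exists_isMinOn ⟨R, hR⟩ hcont
    have e := min_eq_Req ha hη hb hε hc h1 h2 hR₀ hmin
    have h3 := hmin hR
    simp only [mem_ofPred_eq, Phi] at h3
    rw [← e]
    have : 0 ≤ ε / 4 * ∑ i, ∑ j, R₀ i j ^ 2 := by positivity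
    linarith
  have ht : Tendsto (fun ε : ℝ => Lam R + ε / 4 * ∑ i, ∑ j, R i j ^ 2) (𝓝[>] 0)
      (𝓝 (Lam R + 0 / 4 * ∑ i, ∑ j, R i j ^ 2)) :=
    (Continuous.tendsto (by fun_prop) 0).mono_left nhdsWithin_le_nhds
  rw [zero_div, zero_mul, add_zero] at ht
  refine ge_of_tendsto ht ?_
  have hpos : 0 < min c (η * c / (2 * m + 2)) := lt_min c0 (by positivity)
  filter_upwards [Ioo_mem_nhdsGT hpos] with ε hε
  refine key ε hε.1 ?_ (hε.2.trans_le (min_le_left _ _))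
  have := (hε.2.trans_le (min_le_right _ _)).le
  rwa [le_div_iff₀ (by positivity)] at this

/-- The orthant comparison for nondegenerate correlation matrices. -/
theorem Lam_Req_le' {η₁ η₂ : ℝ} (ha : 0 ≤ a) (ha1 : a ≤ 1) (h₁ : 0 < η₁) (h₂ : 0 < η₂)
    (hR : Adm η₁ R) (hRa : ∀ x, a * (∑ i, x i) ^ 2 ≤ x ⬝ᵥ R *ᵥ x)
    (hQ : Adm η₂ (Req (m + 2) ((a * (m + 2) - 1) / (m + 1)))) :
    Lam (Req (m + 2) ((a * (m + 2) - 1) / (m + 1))) ≤ Lam R := by
  set Q := Req (m + 2) ((a * (m + 2) - 1) / (m + 1)) with hQd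
  have t1 := ((hasDerivAt_Lam hR h₁ (1 - R)).continuousAt.tendsto).mono_left
    (nhdsWithin_le_nhds (s := Ioi 0))
  have t2 := ((hasDerivAt_Lam hQ h₂ (1 - Q)).continuousAt.tendsto).mono_left
    (nhdsWithin_le_nhds (s := Ioi 0))
  simp only [zero_smul, add_zero] at t1 t2
  refine le_of_tendsto_of_tendsto t2 t1 ?_
  filter_upwards [Ioo_mem_nhdsGT (zero_lt_one (α := ℝ))] with θ hθ
  have hK : R + θ • (1 - R) ∈ Kset (m + 2) ((1 - θ) * a) θ := by
    refine ⟨hR.symm.add ((isSymm_one.sub hR.symm).smul θ), fun i => by simp [hR.diag],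
      fun x => ?_⟩
    rw [add_mulVec, smul_mulVec, sub_mulVec, dotProduct_add, dotProduct_smul, dotProduct_sub,
      smul_eq_mul, one_mulVec]
    nlinarith [mul_le_mul_of_nonneg_left (hRa x) (sub_nonneg.2 hθ.2.le)]
  have := Lam_Req_le (mul_nonneg (sub_nonneg.2 hθ.2.le) ha) hθ.1 (by nlinarith [hθ.1, hθ.2]) hK
  suffices e : Q + θ • (1 - Q) = Req (m + 2) (((1 - θ) * a * (m + 2) + θ - 1) / (m + 1)) by
    rw [e]; exact this
  ext i j
  have hm : (m + 1 : ℝ) ≠ 0 := by positivity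
  by_cases hij : i = j
  · simp [hQd, Req, hij]
  · simp only [hQd, Req, Matrix.add_apply, of_apply, if_neg hij, Matrix.smul_apply,
      Matrix.sub_apply, one_apply_ne hij, smul_eq_mul]
    field_simp
    ring

end Two

end Pool.Agent.P.MP_bc3e0b_gt
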