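import Pool.Agent.P.MP_bc3e0b_gt.Transport

set_option autoImplicit false

namespace Pool.Agent.P.MP_bc3e0b_gt

open MeasureTheory Set Filter Topology Matrix

/-- Lebesgue measure on the open positive orthant, as a product measure. -/
noncomputable def mu (k : ℕ) : Measure (Fin k → ℝ) :=
  Measure.pi fun _ => (volume : Measure ℝ).restrict (Ioi 0)

instance (k : ℕ) : SigmaFinite (mu k) := by unfold mu; infer_instance

instance (k : ℕ) : NeZero (mu k) := ⟨by
  intro h
  have h1 : mu k (Set.univ.pi fun _ => Set.univ) = 0 := by rw [h]; rfl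
  rw [mu, Measure.pi_pi] at h1
  simp at h1⟩

theorem mu_eq_restrict (k : ℕ) :
    mu k = (volume : Measure (Fin k → ℝ)).restrict (Set.univ.pi fun _ => Ioi 0) := by
  rw [mu, volume_pi, Measure.restrict_pi_pi]

theorem mp_cons (k : ℕ) : MeasurePreserving (fun p : ℝ × (Fin k → ℝ) => (Fin.cons p.1 p.2 : Fin (k + 1) → ℝ))
    (((volume : Measure ℝ).restrict (Ioi 0)).prod (mu k)) (mu (k + 1)) := by
  have := (measurePreserving_piFinSuccAbove
    (fun _ : Fin (k + 1) => (volume : Measure ℝ).restrict (Ioi 0)) 0).symm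
  convert this using 1
  · funext p
    simp [MeasurableEquiv.piFinSuccAbove_symm_apply, Fin.insertNthEquiv]
  · rfl
  · rfl

theorem me_cons (k : ℕ) :
    MeasurableEmbedding (fun p : ℝ × (Fin k → ℝ) => (Fin.cons p.1 p.2 : Fin (k + 1) → ℝ)) := by
  have := (MeasurableEquiv.piFinSuccAbove (fun _ : Fin (k + 1) => ℝ) 0).symm.measurableEmbedding
  convert this using 1
  funext p
  simp [MeasurableEquiv.piFinSuccAbove_symm_apply, Fin.insertNthEquiv]

theorem integrable_cons {k : ℕ} {F : (Fin (k + 1) → ℝ) → ℝ} (hF : Integrable F (mu (k + 1))) :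
    Integrable (fun p : ℝ × (Fin k → ℝ) => F (Fin.cons p.1 p.2))
      (((volume : Measure ℝ).restrict (Ioi 0)).prod (mu k)) :=
  ((mp_cons k).integrable_comp_emb (me_cons k)).2 hF

theorem integral_mu_succ {k : ℕ} {F : (Fin (k + 1) → ℝ) → ℝ} (hF : Integrable F (mu (k + 1))) :
    ∫ y, F y ∂mu (k + 1) = ∫ s in Ioi 0, ∫ z, F (Fin.cons s z) ∂mu k := by
  rw [← (mp_cons k).integral_comp (me_cons k), integral_prod _ (integrable_cons hF)]

theorem integral_mu_succ' {k : ℕ} {F : (Fin (k + 1) → ℝ) → ℝ} (hF : Integrable F (mu (k + 1))) :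
    ∫ y, F y ∂mu (k + 1) = ∫ z, (∫ s in Ioi 0, F (Fin.cons s z)) ∂mu k := by
  rw [← (mp_cons k).integral_comp (me_cons k), integral_prod_symm _ (integrable_cons hF)]

theorem integrableOn_slice {k : ℕ} {F : (Fin (k + 1) → ℝ) → ℝ} (hF : Integrable F (mu (k + 1))) :
    IntegrableOn (fun s => ∫ z, F (Fin.cons s z) ∂mu k) (Ioi 0) :=
  (integrable_cons hF).integral_prod_left

theorem integral_mu_perm {k : ℕ} (σ : Equiv.Perm (Fin k)) (F : (Fin k → ℝ) → ℝ) :
    ∫ y, F (y ∘ σ) ∂mu k = ∫ y, F y ∂mu k := by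
  have := measurePreserving_arrowCongr' (fun _ : Fin k => (volume : Measure ℝ).restrict (Ioi 0))
    (fun _ : Fin k => (volume : Measure ℝ).restrict (Ioi 0)) σ.symm (MeasurableEquiv.refl ℝ)
    (fun _ => MeasurePreserving.id _)
  rw [mu, ← this.integral_comp' F]
  rfl

theorem integrable_gauss (k : ℕ) {c : ℝ} (hc : 0 < c) :
    Integrable (fun y : Fin k → ℝ => Real.exp (-c * (y ⬝ᵥ y))) (mu k) := by
  have : (fun y : Fin k → ℝ => Real.exp (-c * (y ⬝ᵥ y)))
      = fun y => ∏ i, Real.exp (-c * y i ^ 2) := by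
    funext y
    rw [← Real.exp_sum, dotProduct, Finset.mul_sum]
    congr 1
    exact Finset.sum_congr rfl fun i _ => by ring
  rw [this, mu]
  exact Integrable.fintype_prod (f := fun _ x => Real.exp (-c * x ^ 2))
    fun _ => (integrable_exp_neg_mul_sq hc).integrableOn

/-- Continuous functions with a Gaussian bound. -/
def GB {k : ℕ} (F : (Fin k → ℝ) → ℝ) : Prop :=
  Continuous F ∧ ∃ C c : ℝ, 0 < c ∧ ∀ y, |F y| ≤ C * Real.exp (-c * (y ⬝ᵥ y))

theorem dot_self_nonneg {k : ℕ} (y : Fin k → ℝ) : 0 ≤ y ⬝ᵥ y :=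
  Finset.sum_nonneg fun i _ => mul_self_nonneg (y i)

theorem sq_le_dot {k : ℕ} (y : Fin k → ℝ) (i : Fin k) : y i ^ 2 ≤ y ⬝ᵥ y := by
  rw [sq]
  exact Finset.single_le_sum (f := fun j => y j * y j) (fun j _ => mul_self_nonneg (y j))
    (Finset.mem_univ i)

theorem dot_cons {k : ℕ} (s : ℝ) (z : Fin k → ℝ) :
    (Fin.cons s z : Fin (k + 1) → ℝ) ⬝ᵥ Fin.cons s z = s ^ 2 + z ⬝ᵥ z := by
  simp [dotProduct, Fin.sum_univ_succ, sq]

namespace GB

variable {k : ℕ} {F G : (Fin k → ℝ) → ℝ}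

theorem integrable (h : GB F) : Integrable F (mu k) := by
  obtain ⟨hc, C, c, c0, hb⟩ := h
  exact Integrable.mono' ((integrable_gauss k c0).const_mul C) hc.aestronglyMeasurable
    (Eventually.of_forall hb)

theorem nonneg_const {C c : ℝ} (hb : ∀ y, |F y| ≤ C * Real.exp (-c * (y ⬝ᵥ y))) : 0 ≤ C := by
  have := (abs_nonneg _).trans (hb 0)
  simpa using this

theorem slice {F : (Fin (k + 1) → ℝ) → ℝ} (h : GB F) (s : ℝ) : GB fun z => F (Fin.cons s z) := by
  obtain ⟨hc, C, c, c0, hb⟩ := h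
  refine ⟨hc.comp (by fun_prop), C, c, c0, fun z => (hb _).trans ?_⟩
  rw [dot_cons]
  exact mul_le_mul_of_nonneg_left (Real.exp_le_exp.2 (by nlinarith [sq_nonneg s]))
    (nonneg_const hb)

theorem add (h1 : GB F) (h2 : GB G) : GB fun y => F y + G y := by
  obtain ⟨hc, C, c, c0, hb⟩ := h1
  obtain ⟨hc', C', c', c0', hb'⟩ := h2
  refine ⟨hc.add hc', C + C', min c c', lt_min c0 c0', fun y => (abs_add_le _ _).trans ?_⟩
  have := dot_self_nonneg y
  have e1 : Real.exp (-c * (y ⬝ᵥ y)) ≤ Real.exp (-min c c' * (y ⬝ᵥ y)) :=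
    Real.exp_le_exp.2 (by nlinarith [min_le_left c c'])
  have e2 : Real.exp (-c' * (y ⬝ᵥ y)) ≤ Real.exp (-min c c' * (y ⬝ᵥ y)) :=
    Real.exp_le_exp.2 (by nlinarith [min_le_right c c'])
  have := mul_le_mul_of_nonneg_left e1 (nonneg_const hb)
  have := mul_le_mul_of_nonneg_left e2 (nonneg_const hb')
  linarith [hb y, hb' y]

theorem const_mul (h : GB F) (a : ℝ) : GB fun y => a * F y := by
  obtain ⟨hc, C, c, c0, hb⟩ := h
  refine ⟨continuous_const.mul hc, |a| * C, c, c0, fun y => ?_⟩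
  rw [abs_mul, mul_assoc]
  exact mul_le_mul_of_nonneg_left (hb y) (abs_nonneg a)

theorem zero : GB fun _ : Fin k → ℝ => (0 : ℝ) :=
  ⟨continuous_const, 0, 1, one_pos, fun y => by simp⟩

theorem sum {ι : Type*} (s : Finset ι) {F : ι → (Fin k → ℝ) → ℝ} (h : ∀ i ∈ s, GB (F i)) :
    GB fun y => ∑ i ∈ s, F i y := by
  classical
  induction s using Finset.induction_on with
  | empty => simpa using zero
  | insert a s ha ih =>
    simp only [Finset.sum_insert ha]
    exact (h a (Finset.mem_insert_self _ _)).add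
      (ih fun i hi => h i (Finset.mem_insert_of_mem hi))

/-- multiplication by a continuous function of at most exponential-linear growth -/
theorem mul_of_le_exp (h : GB F) {L : (Fin k → ℝ) → ℝ} (hL : Continuous L) {A B : ℝ}
    (hb' : ∀ y, |L y| ≤ A * Real.exp (B * √(y ⬝ᵥ y))) : GB fun y => L y * F y := by
  obtain ⟨hc, C, c, c0, hb⟩ := h
  have hA : 0 ≤ A := by simpa using (abs_nonneg _).trans (hb' 0)
  refine ⟨hL.mul hc, A * C * Real.exp (B ^ 2 / (2 * c)), c / 2, by positivity, fun y => ?_⟩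
  rw [abs_mul]
  have h1 := mul_le_mul (hb' y) (hb y) (abs_nonneg _) (by positivity)
  refine h1.trans ?_
  have hC := nonneg_const hb
  have e : B * √(y ⬝ᵥ y) + -c * (y ⬝ᵥ y) ≤ B ^ 2 / (2 * c) + -(c / 2) * (y ⬝ᵥ y) := by
    have hs := Real.sq_sqrt (dot_self_nonneg y)
    set r := √(y ⬝ᵥ y)
    rw [← hs]
    have : B ^ 2 / (2 * c) + -(c / 2) * r ^ 2 - (B * r + -c * r ^ 2)
        = (B - c * r) ^ 2 / (2 * c) := by field_simp; ring
    have : 0 ≤ (B - c * r) ^ 2 / (2 * c) := by positivity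
    linarith
  calc A * Real.exp (B * √(y ⬝ᵥ y)) * (C * Real.exp (-c * (y ⬝ᵥ y)))
      = A * C * Real.exp (B * √(y ⬝ᵥ y) + -c * (y ⬝ᵥ y)) := by rw [Real.exp_add]; ring
    _ ≤ A * C * Real.exp (B ^ 2 / (2 * c) + -(c / 2) * (y ⬝ᵥ y)) := by gcongr
    _ = _ := by rw [Real.exp_add]; ring

theorem coord_mul (h : GB F) (i : Fin k) : GB fun y => y i * F y := by
  refine h.mul_of_le_exp (by fun_prop) (A := 1) (B := 1) fun y => ?_
  have h1 : |y i| ≤ √(y ⬝ᵥ y) := Real.abs_le_sqrt (sq_le_dot y i)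
  have h2 := Real.add_one_le_exp (√(y ⬝ᵥ y))
  simp only [one_mul]
  linarith

theorem dot_mul (h : GB F) (v : Fin k → ℝ) : GB fun y => (v ⬝ᵥ y) * F y := by
  have : (fun y => (v ⬝ᵥ y) * F y) = fun y => ∑ i, v i * (y i * F y) := by
    funext y
    rw [dotProduct, Finset.sum_mul]
    exact Finset.sum_congr rfl fun i _ => by ring
  rw [this]
  exact sum _ fun i _ => (h.coord_mul i).const_mul _

theorem mulVec_mul (h : GB F) {n : ℕ} (M : Matrix (Fin n) (Fin k) ℝ) (i : Fin n) :
    GB fun y => (M *ᵥ y) i * F y := h.dot_mul (M i)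

theorem tendsto_slice {F : (Fin (k + 1) → ℝ) → ℝ} (h : GB F) (z : Fin k → ℝ) :
    Tendsto (fun s => F (Fin.cons s z)) atTop (𝓝 0) := by
  obtain ⟨hc, C, c, c0, hb⟩ := h
  have h1 : Tendsto (fun s : ℝ => C * Real.exp (-c * s ^ 2)) atTop (𝓝 (C * 0)) := by
    refine Tendsto.const_mul C (Real.tendsto_exp_atBot.comp ?_)
    exact (tendsto_pow_atTop two_ne_zero).const_mul_atTop_of_neg (by linarith)
  rw [mul_zero] at h1
  refine squeeze_zero_norm (fun s => (hb _).trans ?_) h1
  rw [dot_cons]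
  exact mul_le_mul_of_nonneg_left (Real.exp_le_exp.2 (by nlinarith [dot_self_nonneg z]))
    (nonneg_const hb)

theorem integrableOn_line {F : (Fin (k + 1) → ℝ) → ℝ} (h : GB F) (z : Fin k → ℝ) :
    IntegrableOn (fun s => F (Fin.cons s z)) (Ioi 0) := by
  obtain ⟨hc, C, c, c0, hb⟩ := h
  refine Integrable.mono' ((integrable_exp_neg_mul_sq c0).const_mul C).integrableOn
    (hc.comp (by fun_prop)).aestronglyMeasurable (Eventually.of_forall fun s => (hb _).trans ?_)
  rw [dot_cons]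
  exact mul_le_mul_of_nonneg_left (Real.exp_le_exp.2 (by nlinarith [dot_self_nonneg z]))
    (nonneg_const hb)

end GB

/-- Integration by parts in the first coordinate of the orthant. -/
theorem ibp {k : ℕ} {H H' : (Fin (k + 1) → ℝ) → ℝ} (hH : GB H) (hH' : GB H')
    (hd : ∀ s z, HasDerivAt (fun s => H (Fin.cons s z)) (H' (Fin.cons s z)) s) :
    ∫ y, H' y ∂mu (k + 1) = -∫ z, H (Fin.cons 0 z) ∂mu k := by
  rw [integral_mu_succ' hH'.integrable, ← integral_neg]
  refine integral_congr_ae (Eventually.of_forall fun z => ?_)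
  have := integral_Ioi_of_hasDerivAt_of_tendsto' (fun s _ => hd s z) (hH'.integrableOn_line z)
    (hH.tendsto_slice z)
  simp only [this, zero_sub]

/-- Prekopa's theorem for marginals over an orthant. -/
theorem prekopa (k : ℕ) : ∀ {E : Type} [AddCommGroup E] [Module ℝ E] (V : E → (Fin k → ℝ) → ℝ),
    (∀ x, GB fun z => Real.exp (-V x z)) →
    (∀ x x' z z' (θ : ℝ), 0 ≤ θ → θ ≤ 1 →
      V ((1 - θ) • x + θ • x') ((1 - θ) • z + θ • z') ≤ (1 - θ) * V x z + θ * V x' z') →
    ∀ x x' (θ : ℝ), 0 ≤ θ → θ ≤ 1 →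
      (1 - θ) * Real.log (∫ z, Real.exp (-V x z) ∂mu k)
        + θ * Real.log (∫ z, Real.exp (-V x' z) ∂mu k)
        ≤ Real.log (∫ z, Real.exp (-V ((1 - θ) • x + θ • x') z) ∂mu k) := by
  induction k with
  | zero =>
    intro E _ _ V _ hV x x' θ h0 h1
    have e : ∀ x, ∫ z, Real.exp (-V x z) ∂mu 0 = Real.exp (-V x 0) := by
      intro x
      rw [mu, Measure.pi_of_empty _ 0, integral_dirac]
    simp only [e, Real.log_exp]
    have := hV x x' 0 0 θ h0 h1
    simp only [smul_zero, add_zero] at this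
    linarith
  | succ k ih =>
    intro E _ _ V hG hV x x' θ h0 h1
    set W : E × ℝ → ℝ := fun p => -Real.log (∫ z, Real.exp (-V p.1 (Fin.cons p.2 z)) ∂mu k)
      with hW
    have hWc : ∀ p p' (θ : ℝ), 0 ≤ θ → θ ≤ 1 →
        W ((1 - θ) • p + θ • p') ≤ (1 - θ) * W p + θ * W p' := by
      intro p p' θ h0 h1
      have := ih (E := E × ℝ) (fun p z => V p.1 (Fin.cons p.2 z)) (fun p => (hG p.1).slice p.2)
        (fun p p' z z' θ h0 h1 => by
          have := hV p.1 p'.1 (Fin.cons p.2 z) (Fin.cons p'.2 z') θ h0 h1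
          convert this using 2
          · rfl
          · funext i
            refine Fin.cases ?_ (fun j => ?_) i <;> simp) p p' θ h0 h1
      simp only [hW]
      linarith
    have hexp : ∀ x s, Real.exp (-W (x, s)) = ∫ z, Real.exp (-V x (Fin.cons s z)) ∂mu k := by
      intro x s
      simp only [hW, neg_neg]
      exact Real.exp_log (integral_exp_pos ((hG x).slice s).integrable)
    have hcont : ∀ x, Continuous fun s => W (x, s) := by
      intro x
      rw [← continuousOn_univ]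
      refine ConvexOn.continuousOn isOpen_univ ⟨convex_univ, fun s _ t _ a b ha hb hab => ?_⟩
      have := hWc (x, s) (x, t) b hb (by linarith)
      have ea : a = 1 - b := by linarith
      have e : (1 - b) • (x, s) + b • (x, t) = (x, a • s + b • t) := by
        ext
        · simp [sub_smul]
        · simp [ea]
      rw [e] at this
      simpa [ea] using this
    have hint : ∀ x, IntegrableOn (fun s => Real.exp (-W (x, s))) (Ioi 0) := by
      intro x
      simp only [hexp]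
      exact integrableOn_slice (F := fun z => Real.exp (-V x z)) (hG x).integrable
    have hI : ∀ x, ∫ z, Real.exp (-V x z) ∂mu (k + 1) = ∫ s in Ioi 0, Real.exp (-W (x, s)) := by
      intro x
      simp only [hexp]
      exact integral_mu_succ (F := fun z => Real.exp (-V x z)) (hG x).integrable
    rw [hI, hI, hI]
    refine prekopa_one h0 h1 (hcont x) (hcont x') (hcont _) (hint x) (hint x') (hint _)
      fun s t => ?_
    have := hWc (x, s) (x', t) θ h0 h1
    simpa using this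

/-- Differentiation under the integral sign at `0`, pointed Lipschitz bound. -/
theorem hasDerivAt_integral_zero {α : Type*} [MeasurableSpace α] {μ : Measure α}
    {F : ℝ → α → ℝ} {F' b : α → ℝ} {s : Set ℝ} (hs : s ∈ 𝓝 (0 : ℝ))
    (hm : ∀ θ ∈ s, AEStronglyMeasurable (F θ) μ) (h0 : Integrable (F 0) μ)
    (hF' : Integrable F' μ) (hl : ∀ a, ∀ θ ∈ s, |F θ a - F 0 a| ≤ b a * |θ|)
    (hb : Integrable b μ) (hd : ∀ a, HasDerivAt (fun θ => F θ a) (F' a) 0) :
    HasDerivAt (fun θ => ∫ a, F θ a ∂μ) (∫ a, F' a ∂μ) 0 := by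
  set L : ℝ →L[ℝ] ℝ →L[ℝ] ℝ := ContinuousLinearMap.smulRightL ℝ ℝ ℝ 1
  have hd' : ∀ᵐ a ∂μ, HasFDerivAt (F · a) (L (F' a)) 0 :=
    Eventually.of_forall fun a => (hd a).hasFDerivAt
  have hm' : AEStronglyMeasurable (L ∘ F') μ :=
    L.continuous.comp_aestronglyMeasurable hF'.aestronglyMeasurable
  obtain ⟨-, key⟩ := hasFDerivAt_integral_of_dominated_loc_of_lip' (bound := b) hs hm h0 hm'
    (Eventually.of_forall fun a θ hθ => by simpa using hl a θ hθ) hb hd'
  simp_rw [hasDerivAt_iff_hasFDerivAt]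
  simpa only [(· ∘ ·), ContinuousLinearMap.integral_comp_comm _ hF'] using! key

theorem abs_exp_sub_one_le (u : ℝ) : |Real.exp u - 1| ≤ |u| * Real.exp |u| := by
  rcases le_total 0 u with h | h
  · have h1 : 1 ≤ Real.exp u := Real.one_le_exp h
    rw [abs_of_nonneg h, abs_of_nonneg (by linarith)]
    have h2 := Real.add_one_le_exp (-u)
    have h3 : Real.exp u * Real.exp (-u) = 1 := by rw [← Real.exp_add]; simp
    nlinarith [Real.exp_pos u]
  · have h1 : Real.exp u ≤ 1 := Real.exp_le_one_iff.2 h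
    rw [abs_of_nonpos h, abs_of_nonpos (by linarith)]
    have h2 := Real.add_one_le_exp u
    have h3 : 1 ≤ Real.exp (-u) := Real.one_le_exp (by linarith)
    nlinarith

end Pool.Agent.P.MP_bc3e0b_gt
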