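import Pool.Agent.P.MP_bc3e0b_gt.Minimize

set_option autoImplicit false

namespace Pool.Agent.P.MP_bc3e0b_gt

open MeasureTheory Set Filter Topology Matrix
open scoped ENNReal InnerProductSpace

section Unique

variable {E : Type} [NormedAddCommGroup E] [InnerProductSpace ℝ E] [FiniteDimensional ℝ E]
  [MeasurableSpace E] [BorelSpace E]

theorem charFun_eq_of_norm_eq {μ : Measure E} (h : ∀ T : E ≃ₗᵢ[ℝ] E, μ.map T = μ) {ξ ζ : E}
    (hn : ‖ξ‖ = ‖ζ‖) : charFun μ ζ = charFun μ ξ := by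
  set T : E ≃ₗᵢ[ℝ] E := (ℝ ∙ (ξ - ζ))ᗮ.reflection with hT
  have e : T ξ = ζ := Submodule.reflection_sub hn
  rw [charFun_apply, charFun_apply, ← e]
  conv_lhs => rw [← h T]
  rw [integral_map (by fun_prop) (by fun_prop)]
  simp only [LinearIsometryEquiv.inner_map_map]

theorem invariant_unique {μ ν : Measure E} [IsFiniteMeasure μ] [IsFiniteMeasure ν]
    (hμ : ∀ᵐ x ∂μ, ‖x‖ = 1) (hν : ∀ᵐ x ∂ν, ‖x‖ = 1)
    (iμ : ∀ T : E ≃ₗᵢ[ℝ] E, μ.map T = μ) (iν : ∀ T : E ≃ₗᵢ[ℝ] E, ν.map T = ν) :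
    ν univ • μ = μ univ • ν := by
  have : IsFiniteMeasure (ν univ • μ) := Measure.smul_finite μ (measure_ne_top _ _)
  have : IsFiniteMeasure (μ univ • ν) := Measure.smul_finite ν (measure_ne_top _ _)
  refine Measure.ext_of_charFun (funext fun ξ => ?_)
  have h1 : ∀ (μ ν : Measure E) [IsFiniteMeasure ν], (∀ᵐ x ∂ν, ‖x‖ = 1) →
      (∀ T : E ≃ₗᵢ[ℝ] E, μ.map T = μ) →
      charFun (ν univ • μ) ξ = ∫ y, ∫ x, Complex.exp ((‖ξ‖ * ⟪x, y⟫_ℝ : ℝ) * Complex.I) ∂μ ∂ν := by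
    intro μ ν _ hν iμ
    have : ∀ᵐ y ∂ν, ∫ x, Complex.exp ((‖ξ‖ * ⟪x, y⟫_ℝ : ℝ) * Complex.I) ∂μ = charFun μ ξ := by
      filter_upwards [hν] with y hy
      rw [← charFun_eq_of_norm_eq iμ (ξ := ξ) (ζ := ‖ξ‖ • y) (by simp [norm_smul, hy]),
        charFun_apply]
      simp only [inner_smul_right]
    rw [integral_congr_ae this, integral_const, charFun_apply, integral_smul_measure,
      charFun_apply]
    rfl
  rw [h1 μ ν hν iμ, h1 ν μ hμ iν, integral_integral_swap]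
  · simp only [real_inner_comm]
  · refine Integrable.of_bound (C := 1) (Continuous.aestronglyMeasurable (by fun_prop))
      (Eventually.of_forall fun p => ?_)
    simp only [Function.uncurry]
    rw [Complex.norm_exp_ofReal_mul_I]

end Unique

theorem hausdorff_sphere_lt_top (d : ℕ) :
    (μH[d] : Measure (EuclideanSpace ℝ (Fin (d + 1)))) (Metric.sphere 0 1) < ∞ := by
  set g : Fin (d + 1) → ℝ → (Fin d → ℝ) → EuclideanSpace ℝ (Fin (d + 1)) :=
    fun i ε z => WithLp.toLp 2 (i.insertNth ε z) with hg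
  set f : Fin (d + 1) → ℝ → (Fin d → ℝ) → EuclideanSpace ℝ (Fin (d + 1)) :=
    fun i ε z => ‖g i ε z‖⁻¹ • g i ε z with hf
  have hfin : ∀ i ε, ε ≠ 0 → μH[d] (f i ε '' Metric.closedBall 0 1) < ∞ := by
    intro i ε hε
    have h1 : ContDiff ℝ 1 (g i ε) := by
      rw [contDiff_euclidean]
      refine i.forall_iff_succAbove.2 ⟨?_, fun j => ?_⟩
      · simpa [hg] using contDiff_const
      · simpa [hg] using contDiff_apply ℝ ℝ j
    have h2 : ∀ z, g i ε z ≠ 0 := by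
      intro z e
      have := congrArg (fun v : EuclideanSpace ℝ (Fin (d + 1)) => v i) e
      simp [hg, hε] at this
    have h3 : ContDiff ℝ 1 (f i ε) :=
      ((h1.norm ℝ h2).inv fun z => norm_ne_zero_iff.2 (h2 z)).smul h1
    obtain ⟨K, hK⟩ := h3.locallyLipschitz.locallyLipschitzOn.exists_lipschitzOnWith_of_compact
      (isCompact_closedBall (0 : Fin d → ℝ) 1)
    refine (hK.hausdorffMeasure_image_le (Nat.cast_nonneg d)).trans_lt ?_
    refine ENNReal.mul_lt_top (ENNReal.rpow_lt_top_of_nonneg (Nat.cast_nonneg d) ENNReal.coe_ne_top)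
      ?_
    have := hausdorffMeasure_pi_real (ι := Fin d)
    rw [Fintype.card_fin] at this
    rw [this]
    exact (isCompact_closedBall _ _).measure_lt_top
  have hcov : Metric.sphere (0 : EuclideanSpace ℝ (Fin (d + 1))) 1 ⊆
      ⋃ i, (f i 1 '' Metric.closedBall 0 1 ∪ f i (-1) '' Metric.closedBall 0 1) := by
    intro x hx
    have hx1 : ‖x‖ = 1 := by simpa using hx
    obtain ⟨i, -, hi⟩ := Finset.exists_max_image Finset.univ (fun j => |x j|) Finset.univ_nonempty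
    have hpos : 0 < |x i| := by
      by_contra h0
      have : x = 0 := by
        ext j
        have := hi j (Finset.mem_univ j)
        have h2 : |x j| ≤ 0 := this.trans (not_lt.1 h0)
        simpa using h2
      simp [this] at hx1
    have hz : (fun j => x (i.succAbove j) / |x i|) ∈ Metric.closedBall (0 : Fin d → ℝ) 1 := by
      rw [mem_closedBall_zero_iff, pi_norm_le_iff_of_nonneg zero_le_one]
      intro j
      rw [Real.norm_eq_abs, abs_div, abs_abs, div_le_one hpos]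
      exact hi _ (Finset.mem_univ _)
    have hge : g i (x i / |x i|) (fun j => x (i.succAbove j) / |x i|) = |x i|⁻¹ • x := by
      ext j
      revert j
      refine i.forall_iff_succAbove.2 ⟨?_, fun j => ?_⟩ <;> simp [hg, div_eq_inv_mul]
    have hfe : f i (x i / |x i|) (fun j => x (i.succAbove j) / |x i|) = x := by
      simp only [hf, hge, norm_smul, hx1, mul_one, norm_inv, Real.norm_eq_abs, abs_abs, inv_inv,
        smul_smul, mul_inv_cancel₀ hpos.ne', one_smul]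
    refine mem_iUnion.2 ⟨i, ?_⟩
    rcases lt_or_gt_of_ne (abs_pos.1 hpos) with h | h
    · right
      refine ⟨_, hz, ?_⟩
      rwa [show x i / |x i| = -1 by rw [abs_of_neg h, div_neg, div_self h.ne]] at hfe
    · left
      refine ⟨_, hz, ?_⟩
      rwa [show x i / |x i| = 1 by rw [abs_of_pos h, div_self h.ne']] at hfe
  refine (measure_mono hcov).trans_lt ((measure_iUnion_fintype_le _ _).trans_lt ?_)
  refine ENNReal.sum_lt_top.2 fun i _ => (measure_union_le _ _).trans_lt ?_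
  exact ENNReal.add_lt_top.2 ⟨hfin i 1 one_ne_zero, hfin i (-1) (by norm_num)⟩

/-- Unnormalised standard Gaussian measure. -/
noncomputable def gam (n : ℕ) : Measure (EuclideanSpace ℝ (Fin n)) :=
  volume.withDensity fun x => ENNReal.ofReal (Real.exp (-(‖x‖ ^ 2 / 2)))

theorem gam_meas (n : ℕ) :
    Measurable fun x : EuclideanSpace ℝ (Fin n) => ENNReal.ofReal (Real.exp (-(‖x‖ ^ 2 / 2))) := by
  fun_prop

instance (n : ℕ) : IsFiniteMeasure (gam n) := by
  refine isFiniteMeasure_withDensity_ofReal ?_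
  have := (GaussianFourier.integrable_cexp_neg_mul_sq_norm_add
    (V := EuclideanSpace ℝ (Fin n)) (b := 1 / 2) (by norm_num) 0 0).norm
  refine (this.congr (Eventually.of_forall fun x => ?_)).hasFiniteIntegral
  simp only [Complex.norm_exp]
  congr 1
  simp only [zero_mul, add_zero, ← Complex.ofReal_pow]
  rw [show (-(1 / 2 : ℂ) * ((‖x‖ ^ 2 : ℝ) : ℂ)) = ((-(‖x‖ ^ 2 / 2) : ℝ) : ℂ) by push_cast; ring,
    Complex.ofReal_re]

theorem gam_ne_zero (n : ℕ) : gam n univ ≠ 0 := by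
  rw [gam, Ne, withDensity_apply_eq_zero (gam_meas n)]
  have : {x : EuclideanSpace ℝ (Fin n) | ENNReal.ofReal (Real.exp (-(‖x‖ ^ 2 / 2))) ≠ 0} = univ := by
    ext x
    simp [Real.exp_pos]
  rw [this, inter_self]
  exact (isOpen_univ.measure_pos _ univ_nonempty).ne'

theorem gam_map (n : ℕ) (T : EuclideanSpace ℝ (Fin n) ≃ₗᵢ[ℝ] EuclideanSpace ℝ (Fin n)) :
    (gam n).map T = gam n := by
  ext s hs
  have hT : Measurable T := T.continuous.measurable
  rw [Measure.map_apply hT hs, gam, withDensity_apply _ (hT hs), withDensity_apply _ hs,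
    ← T.measurePreserving.setLIntegral_comp_preimage hs (gam_meas n)]
  simp only [LinearIsometryEquiv.norm_map]

/-- The cone with inner normals `v i`. -/
def cone {n : ℕ} (v : Fin n → EuclideanSpace ℝ (Fin n)) : Set (EuclideanSpace ℝ (Fin n)) :=
  {x | ∀ i, 0 ≤ ⟪v i, x⟫_ℝ}

theorem isClosed_cone {n : ℕ} (v : Fin n → EuclideanSpace ℝ (Fin n)) : IsClosed (cone v) := by
  have : cone v = ⋂ i, {x | 0 ≤ ⟪v i, x⟫_ℝ} := by ext x; simp [cone]
  rw [this]
  exact isClosed_iInter fun i => isClosed_le continuous_const (by fun_prop)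

theorem hausdorff_le_of_gam_le {d : ℕ} {u v : Fin (d + 1) → EuclideanSpace ℝ (Fin (d + 1))}
    (h : gam (d + 1) (cone u) ≤ gam (d + 1) (cone v)) :
    μH[d] {x : EuclideanSpace ℝ (Fin (d + 1)) | ‖x‖ = 1 ∧ ∀ i, 0 ≤ ⟪u i, x⟫_ℝ}
      ≤ μH[d] {x : EuclideanSpace ℝ (Fin (d + 1)) | ‖x‖ = 1 ∧ ∀ i, 0 ≤ ⟪v i, x⟫_ℝ} := by
  set μ : Measure (EuclideanSpace ℝ (Fin (d + 1))) := (μH[d]).restrict (Metric.sphere 0 1) with hμ
  set nrm : EuclideanSpace ℝ (Fin (d + 1)) → EuclideanSpace ℝ (Fin (d + 1)) :=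
    fun x => ‖x‖⁻¹ • x with hnrm
  have hm : Measurable nrm := by fun_prop
  set ν := (gam (d + 1)).map nrm with hν
  have hS : MeasurableSet (Metric.sphere (0 : EuclideanSpace ℝ (Fin (d + 1))) 1) :=
    Metric.isClosed_sphere.measurableSet
  have : IsFiniteMeasure μ := isFiniteMeasure_restrict.2 (hausdorff_sphere_lt_top d).ne
  have h0 : ∀ᵐ x ∂gam (d + 1), x ≠ 0 :=
    (withDensity_absolutelyContinuous _ _).ae_le (Measure.ae_ne volume 0)
  have key := invariant_unique (μ := μ) (ν := ν)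
    ((ae_restrict_mem hS).mono fun x hx => by simpa using hx)
    (by
      rw [hν, ae_map_iff hm.aemeasurable (by measurability)]
      filter_upwards [h0] with x hx
      simp [hnrm, norm_smul, hx])
    (fun T => by
      have hT : T ⁻¹' Metric.sphere 0 1 = Metric.sphere 0 1 := by ext x; simp
      have := (T.toIsometryEquiv.measurePreserving_hausdorffMeasure d).restrict_preimage hS
      rw [LinearIsometryEquiv.coe_toIsometryEquiv, hT] at this
      exact this.map_eq)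
    (fun T => by
      have hT : Measurable T := T.continuous.measurable
      rw [hν, Measure.map_map hT hm]
      conv_rhs => rw [← gam_map _ T, Measure.map_map hm hT]
      congr 1
      funext x
      simp [hnrm])
  have e1 : ∀ w : Fin (d + 1) → EuclideanSpace ℝ (Fin (d + 1)),
      μH[d] {x : EuclideanSpace ℝ (Fin (d + 1)) | ‖x‖ = 1 ∧ ∀ i, 0 ≤ ⟪w i, x⟫_ℝ} = μ (cone w) := by
    intro w
    rw [hμ, Measure.restrict_apply (isClosed_cone w).measurableSet]
    congr 1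
    ext x
    simp [cone, and_comm]
  have e2 : ∀ w : Fin (d + 1) → EuclideanSpace ℝ (Fin (d + 1)),
      ν (cone w) = gam (d + 1) (cone w) := by
    intro w
    rw [hν, Measure.map_apply hm (isClosed_cone w).measurableSet]
    refine measure_congr ?_
    filter_upwards [h0] with x hx
    have hx' : 0 < ‖x‖⁻¹ := inv_pos.2 (norm_pos_iff.2 hx)
    refine propext ?_
    change (∀ i, 0 ≤ ⟪w i, ‖x‖⁻¹ • x⟫_ℝ) ↔ ∀ i, 0 ≤ ⟪w i, x⟫_ℝ
    simp only [inner_smul_right, mul_nonneg_iff_of_pos_left hx']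
  have e3 : ν univ = gam (d + 1) univ := by rw [hν, Measure.map_apply hm MeasurableSet.univ]; rfl
  have k1 := congrArg (fun κ : Measure _ => κ (cone u)) key
  have k2 := congrArg (fun κ : Measure _ => κ (cone v)) key
  simp only [Measure.smul_apply, smul_eq_mul, e2, e3] at k1 k2
  rw [e1, e1, ← ENNReal.mul_le_mul_iff_right (gam_ne_zero (d + 1)) (measure_ne_top _ _), k1, k2]
  gcongr

section Gram

variable {n : ℕ}

/-- Matrix whose rows are the vectors `v i`. -/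
def rows (v : Fin n → EuclideanSpace ℝ (Fin n)) : Matrix (Fin n) (Fin n) ℝ :=
  Matrix.of fun i j => v i j

theorem rows_mulVec (v : Fin n → EuclideanSpace ℝ (Fin n)) (x : Fin n → ℝ) (i : Fin n) :
    (rows v *ᵥ x) i = ⟪v i, WithLp.toLp 2 x⟫_ℝ := by
  simp [rows, mulVec, dotProduct, PiLp.inner_apply, mul_comm]

theorem gram_apply (v : Fin n → EuclideanSpace ℝ (Fin n)) (i j : Fin n) :
    (rows v * (rows v)ᵀ) i j = ⟪v i, v j⟫_ℝ := by
  simp [rows, mul_apply, PiLp.inner_apply, mul_comm]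

theorem rows_det_ne_zero {v : Fin n → EuclideanSpace ℝ (Fin n)} (h : LinearIndependent ℝ v) :
    (rows v).det ≠ 0 := by
  have h1 : LinearIndependent ℝ (rows v).row :=
    h.map' (WithLp.linearEquiv 2 ℝ (Fin n → ℝ)).toLinearMap (LinearEquiv.ker _)
  exact ((isUnit_iff_isUnit_det _).1 (linearIndependent_rows_iff_isUnit.1 h1)).ne_zero

theorem quad_gram (N : Matrix (Fin n) (Fin n) ℝ) (x : Fin n → ℝ) :
    x ⬝ᵥ (N * Nᵀ) *ᵥ x = (Nᵀ *ᵥ x) ⬝ᵥ (Nᵀ *ᵥ x) := by
  rw [← mulVec_mulVec, dotProduct_mulVec, ← mulVec_transpose]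

theorem adm_gram {N : Matrix (Fin n) (Fin n) ℝ} (hN : N.det ≠ 0) (hd : ∀ i, (N * Nᵀ) i i = 1) :
    ∃ η : ℝ, 0 < η ∧ Adm η (N * Nᵀ) := by
  set W := Nᵀ⁻¹ with hW
  set C := ∑ i, ∑ j, |(Wᵀ * W) i j| with hC
  have hC0 : 0 ≤ C := by positivity
  refine ⟨(C + 1)⁻¹, by positivity, isSymm_mul_transpose_self N, hd, fun x => ?_⟩
  have e : W *ᵥ (Nᵀ *ᵥ x) = x := by
    rw [mulVec_mulVec, hW, nonsing_inv_mul _ (by rw [det_transpose]; exact hN.isUnit), one_mulVec]
  have h1 := (le_abs_self _).trans (abs_quad_le (Wᵀ * W) (Nᵀ *ᵥ x))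
  have h2 := quad_gram Wᵀ (Nᵀ *ᵥ x)
  rw [transpose_transpose, e] at h2
  rw [h2, ← hC] at h1
  rw [quad_gram, inv_mul_le_iff₀ (by positivity)]
  nlinarith [dot_self_nonneg (Nᵀ *ᵥ x)]

theorem gam_cone {v : Fin n → EuclideanSpace ℝ (Fin n)} (hN : (rows v).det ≠ 0) {η : ℝ}
    (hη : 0 < η) (hA : Adm η (rows v * (rows v)ᵀ)) :
    gam n (cone v) = ENNReal.ofReal (Real.exp (Lam (rows v * (rows v)ᵀ))) := by
  set N := rows v with hNd
  have hc := hA.coer_inv hη
  have hI := IM_pos hc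
  have hq : ∀ x : Fin n → ℝ, gauss (N * Nᵀ)⁻¹ (N *ᵥ x)
      = Real.exp (-(‖(WithLp.toLp 2 x : EuclideanSpace ℝ (Fin n))‖ ^ 2 / 2)) := by
    intro x
    have e : Nᵀ * ((N * Nᵀ)⁻¹ * N) = 1 := by
      rw [Matrix.mul_inv_rev, Matrix.mul_assoc, nonsing_inv_mul _ hN.isUnit, Matrix.mul_one,
        mul_nonsing_inv _ (by rw [det_transpose]; exact hN.isUnit)]
    rw [gauss, mulVec_mulVec, dotProduct_comm, dotProduct_mulVec, ← mulVec_transpose,
      mulVec_mulVec, e, one_mulVec, EuclideanSpace.real_norm_sq_eq]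
    simp [dotProduct, sq]
  have hmeas : Measurable fun y : Fin n → ℝ => ENNReal.ofReal (gauss (N * Nᵀ)⁻¹ y) :=
    (continuous_gauss _).measurable.ennreal_ofReal
  have hL : Measurable (toLin' N) := (LinearMap.continuous_of_finiteDimensional _).measurable
  have s1 : gam n (cone v) = ∫⁻ x in (toLin' N) ⁻¹' Ici 0,
      ENNReal.ofReal (gauss (N * Nᵀ)⁻¹ (toLin' N x)) := by
    rw [gam, withDensity_apply _ (isClosed_cone v).measurableSet,
      ← (PiLp.volume_preserving_toLp (Fin n)).setLIntegral_comp_preimage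
        (isClosed_cone v).measurableSet (gam_meas n)]
    congr 1
    · congr 1
      ext x
      simp only [mem_preimage, cone, mem_ofPred_eq, toLin'_apply, mem_Ici, Pi.le_def, hNd,
        rows_mulVec, Pi.zero_apply]
    · funext x
      rw [toLin'_apply, hq]
  rw [s1, ← setLIntegral_map measurableSet_Ici hmeas hL,
    Real.map_matrix_volume_pi_eq_smul_volume_pi hN, Measure.restrict_smul, lintegral_smul_measure]
  have s2 : (volume : Measure (Fin n → ℝ)).restrict (Ici 0) = mu n := by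
    rw [mu_eq_restrict]
    exact Measure.restrict_congr_set (Measure.univ_pi_Ioi_ae_eq_Ici (f := 0)).symm
  rw [s2, ← ofReal_integral_eq_lintegral_ofReal (GB_gauss hc).integrable
    (Eventually.of_forall fun y => (gauss_pos _ y).le), smul_eq_mul,
    ← ENNReal.ofReal_mul (abs_nonneg _)]
  congr 1
  rw [Lam, Real.exp_sub, Real.exp_log hI, det_mul, det_transpose, ← sq, ← sq_abs, Real.log_pow,
    show ((2 : ℕ) : ℝ) * Real.log |N.det| / 2 = Real.log |N.det| by push_cast; ring,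
    Real.exp_log (abs_pos.2 hN), abs_inv, div_eq_inv_mul]
  rfl

end Gram

theorem spherical (k : ℕ) (s : ℝ) (hs0 : 0 < s) (hs1 : s ≤ 1)
    (c : EuclideanSpace ℝ (Fin (k + 1 + 1)))
    (n m : Fin (k + 1 + 1) → EuclideanSpace ℝ (Fin (k + 1 + 1)))
    (hc : ‖c‖ = 1) (hn : ∀ i, ‖n i‖ = 1) (hm : ∀ i, ‖m i‖ = 1)
    (hnc : ∀ i, ⟪n i, c⟫_ℝ = s) (hmc : ∀ i, ⟪m i, c⟫_ℝ = s)
    (hnl : LinearIndependent ℝ n) (hml : LinearIndependent ℝ m)
    (hreg : ∀ i j k l, i ≠ j → k ≠ l → ⟪m i, m j⟫_ℝ = ⟪m k, m l⟫_ℝ) :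
    μH[((k + 1 : ℕ) : ℝ)] {x : EuclideanSpace ℝ (Fin (k + 1 + 1)) | ‖x‖ = 1 ∧ ∀ i, 0 ≤ ⟪m i, x⟫_ℝ}
      ≤ μH[((k + 1 : ℕ) : ℝ)]
        {x : EuclideanSpace ℝ (Fin (k + 1 + 1)) | ‖x‖ = 1 ∧ ∀ i, 0 ≤ ⟪n i, x⟫_ℝ} := by
  refine hausdorff_le_of_gam_le ?_
  have dn := rows_det_ne_zero hnl
  have dm := rows_det_ne_zero hml
  obtain ⟨η₁, h₁, A₁⟩ := adm_gram dn fun i => by
    rw [gram_apply, real_inner_self_eq_norm_sq, hn, one_pow]
  obtain ⟨η₂, h₂, A₂⟩ := adm_gram dm fun i => by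
    rw [gram_apply, real_inner_self_eq_norm_sq, hm, one_pow]
  rw [gam_cone dn h₁ A₁, gam_cone dm h₂ A₂]
  refine ENNReal.ofReal_le_ofReal (Real.exp_le_exp.2 ?_)
  have hcc : c.ofLp ⬝ᵥ c.ofLp = 1 := by
    have := EuclideanSpace.real_norm_sq_eq c
    rw [hc] at this
    simpa [dotProduct, sq] using this.symm
  have hNc : ∀ v : Fin (k + 1 + 1) → EuclideanSpace ℝ (Fin (k + 1 + 1)), (∀ i, ⟪v i, c⟫_ℝ = s) →
      rows v *ᵥ c.ofLp = fun _ => s := fun v hv => funext fun i => by rw [rows_mulVec, hv]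
  have hRa : ∀ x, s ^ 2 * (∑ i, x i) ^ 2 ≤ x ⬝ᵥ (rows n * (rows n)ᵀ) *ᵥ x := by
    intro x
    have h1 := Finset.sum_mul_sq_le_sq_mul_sq Finset.univ ((rows n)ᵀ *ᵥ x) c.ofLp
    have h2 : ((rows n)ᵀ *ᵥ x) ⬝ᵥ c.ofLp = s * ∑ i, x i := by
      rw [mulVec_transpose, ← dotProduct_mulVec, hNc n hnc, dotProduct, ← Finset.sum_mul, mul_comm]
    rw [quad_gram, ← mul_pow, ← h2]
    simp only [sq] at h1 ⊢
    change _ ≤ _ * (c.ofLp ⬝ᵥ c.ofLp) at h1
    rw [hcc, mul_one] at h1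
    exact h1
  set γ := ⟪m 0, m 1⟫_ℝ with hγ
  have e1 : rows m * (rows m)ᵀ = Req (k + 2) γ := by
    ext i j
    simp only [Req, of_apply]
    split_ifs with hij
    · rw [hij, A₂.diag]
    · rw [gram_apply, hγ]
      exact hreg _ _ _ _ hij zero_ne_one
  have e2 : γ = (s ^ 2 * (k + 2) - 1) / (k + 1) := by
    set w := (rows m)ᵀ⁻¹ *ᵥ c.ofLp with hw
    have f1 : (rows m)ᵀ *ᵥ w = c.ofLp := by
      rw [hw, mulVec_mulVec, mul_nonsing_inv _ (by rw [det_transpose]; exact dm.isUnit), one_mulVec]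
    have f2 : Req (k + 2) γ *ᵥ w = fun _ => s := by
      rw [← e1, ← mulVec_mulVec, f1, hNc m hmc]
    have f3 : w ⬝ᵥ Req (k + 2) γ *ᵥ w = 1 := by rw [← e1, quad_gram, f1, hcc]
    rw [f2, dotProduct, ← Finset.sum_mul] at f3
    have f4 : (fun _ => (1 : ℝ)) ⬝ᵥ Req (k + 2) γ *ᵥ w = (k + 2) * s := by
      rw [f2]; simp [dotProduct]
    have f5 : Req (k + 2) γ *ᵥ (fun _ => (1 : ℝ)) = fun _ => 1 + (k + 1) * γ := by
      funext i
      have : ∀ j, Req (k + 2) γ i j * 1 = (if i = j then (1 - γ) else 0) + γ := by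
        intro j
        simp only [Req, of_apply]
        split_ifs <;> ring
      simp only [mulVec, dotProduct, this, Finset.sum_add_distrib, Finset.sum_ite_eq,
        Finset.mem_univ, if_true, Finset.sum_const, Finset.card_univ, Fintype.card_fin,
        nsmul_eq_mul]
      push_cast
      ring
    rw [dot_mulVec_comm (e1 ▸ A₂.symm), f5, dotProduct, ← Finset.sum_mul] at f4
    have hk : (k + 1 : ℝ) ≠ 0 := by positivity
    rw [eq_div_iff hk]
    have : (∑ i, w i) * s * (1 + (k + 1) * γ) = (k + 2) * s * s := by rw [← f4]; ring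
    rw [f3] at this
    linarith
  rw [e1, e2] at A₂ ⊢
  exact Lam_Req_le' (sq_nonneg s) (by nlinarith) h₁ h₂ A₁ hRa A₂

end Pool.Agent.P.MP_bc3e0b_gt
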