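import Mathlib

set_option autoImplicit false

namespace Pool.Agent.P.MP_bc3e0b_gt

open MeasureTheory Set Filter Topology

theorem prim_hasStrictDerivAt {ψ : ℝ → ℝ} {b t₀ : ℝ} (hc : ContinuousOn ψ (Ioi b)) (ht₀ : b < t₀)
    {t : ℝ} (ht : b < t) : HasStrictDerivAt (fun u => ∫ x in t₀..u, ψ x) (ψ t) t := by
  refine intervalIntegral.integral_hasStrictDerivAt_right ?_ ?_ ?_
  · refine (hc.mono ?_).intervalIntegrable
    intro x hx
    exact lt_of_lt_of_le (lt_min ht₀ ht) hx.1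
  · exact hc.stronglyMeasurableAtFilter isOpen_Ioi t ht
  · exact hc.continuousAt (Ioi_mem_nhds ht)

theorem prim_strictMonoOn {ψ : ℝ → ℝ} {b t₀ : ℝ} (hc : ContinuousOn ψ (Ioi b)) (ht₀ : b < t₀)
    (hp : ∀ t, b < t → 0 < ψ t) : StrictMonoOn (fun u => ∫ x in t₀..u, ψ x) (Ioi b) := by
  refine strictMonoOn_of_deriv_pos (convex_Ioi b) ?_ ?_
  · intro t ht
    exact (prim_hasStrictDerivAt hc ht₀ ht).hasDerivAt.continuousAt.continuousWithinAt
  · intro t ht
    rw [interior_Ioi] at ht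
    rw [(prim_hasStrictDerivAt hc ht₀ ht).hasDerivAt.deriv]
    exact hp t ht

theorem prim_lt {ψ : ℝ → ℝ} {b t₀ : ℝ} (hc : ContinuousOn ψ (Ioi b)) (ht₀ : b < t₀)
    (hp : ∀ t, b < t → 0 < ψ t) (hi : IntegrableOn ψ (Ioi t₀)) {t : ℝ} (ht : b < t) :
    ∫ x in t₀..t, ψ x < ∫ x in Ioi t₀, ψ x := by
  have hm := prim_strictMonoOn hc ht₀ hp
  have h1 : ∫ x in t₀..t, ψ x < ∫ x in t₀..(t + 1), ψ x :=
    hm ht (show b < t + 1 by linarith) (by linarith)
  refine h1.trans_le ?_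
  refine ge_of_tendsto (intervalIntegral_tendsto_integral_Ioi t₀ hi tendsto_id) ?_
  filter_upwards [eventually_ge_atTop (t + 1)] with u hu
  exact hm.monotoneOn (show b < t + 1 by linarith) (show b < u by linarith) hu

/-- Monotone transport between two half-line densities of equal mass. -/
theorem transport {φ ψ : ℝ → ℝ} {a b s₀ t₀ : ℝ} (hφc : ContinuousOn φ (Ioi a))
    (hψc : ContinuousOn ψ (Ioi b)) (hs₀ : a < s₀) (ht₀ : b < t₀)
    (hφp : ∀ s, a < s → 0 < φ s) (hψp : ∀ t, b < t → 0 < ψ t)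
    (hφi : IntegrableOn φ (Ioi s₀)) (hψi : IntegrableOn ψ (Ioi t₀))
    (hI : ∫ x in Ioi s₀, φ x = ∫ x in Ioi t₀, ψ x) :
    ∃ T : ℝ → ℝ, T s₀ = t₀ ∧ ∀ s, s₀ ≤ s → t₀ ≤ T s ∧ HasDerivAt T (φ s / ψ (T s)) s := by
  set Φ : ℝ → ℝ := fun u => ∫ x in s₀..u, φ x with hΦ
  set Ψ : ℝ → ℝ := fun u => ∫ x in t₀..u, ψ x with hΨ
  have hmΨ : StrictMonoOn Ψ (Ioi b) := prim_strictMonoOn hψc ht₀ hψp
  have hmΦ : StrictMonoOn Φ (Ioi a) := prim_strictMonoOn hφc hs₀ hφp
  set σ : ℝ → ℝ := Function.invFunOn Ψ (Ioi b) with hσ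
  have hleft : ∀ t, b < t → σ (Ψ t) = t := fun t ht =>
    hmΨ.injOn.leftInvOn_invFunOn ht
  have hσd : ∀ t, b < t → HasStrictDerivAt σ (ψ t)⁻¹ (Ψ t) := by
    intro t ht
    refine (prim_hasStrictDerivAt hψc ht₀ ht).to_local_left_inverse (hψp t ht).ne' ?_
    filter_upwards [Ioi_mem_nhds ht] with x hx using hleft x hx
  have hsurj : ∀ s, s₀ ≤ s → ∃ t, t₀ ≤ t ∧ Ψ t = Φ s := by
    intro s hs
    have h0 : Ψ t₀ ≤ Φ s := by
      have : Φ s₀ ≤ Φ s := hmΦ.monotoneOn hs₀ (hs₀.trans_le hs) hs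
      simpa [hΦ, hΨ] using this
    have h1 : Φ s < ∫ x in Ioi t₀, ψ x := hI ▸ prim_lt hφc hs₀ hφp hφi (hs₀.trans_le hs)
    have h2 : ∀ᶠ u in atTop, Φ s < Ψ u :=
      (intervalIntegral_tendsto_integral_Ioi t₀ hψi tendsto_id).eventually (lt_mem_nhds h1)
    obtain ⟨u, hu1, hu2⟩ := (h2.and (eventually_ge_atTop t₀)).exists
    have hcont : ContinuousOn Ψ (Icc t₀ u) := fun t ht =>
      (prim_hasStrictDerivAt hψc ht₀
        (ht₀.trans_le ht.1)).hasDerivAt.continuousAt.continuousWithinAt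
    obtain ⟨t, ht, ht'⟩ := intermediate_value_Icc hu2 hcont ⟨h0, hu1.le⟩
    exact ⟨t, ht.1, ht'⟩
  refine ⟨fun s => σ (Φ s), ?_, fun s hs => ?_⟩
  · have : Φ s₀ = Ψ t₀ := by simp [hΦ, hΨ]
    simp only [this, hleft t₀ ht₀]
  · obtain ⟨t, ht, ht'⟩ := hsurj s hs
    have hbt : b < t := ht₀.trans_le ht
    have e : σ (Φ s) = t := by rw [← ht', hleft t hbt]
    refine ⟨by simp only [e]; exact ht, ?_⟩
    have h1 : HasDerivAt σ (ψ t)⁻¹ (Φ s) := ht' ▸ (hσd t hbt).hasDerivAt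
    have h2 : HasDerivAt Φ (φ s) s := (prim_hasStrictDerivAt hφc hs₀ (hs₀.trans_le hs)).hasDerivAt
    have h3 := h1.comp s h2
    simp only [e]
    rw [div_eq_inv_mul]
    exact h3

/-- One-dimensional Prekopa-Leindler inequality on the half-line, for continuous exponents. -/
theorem prekopa_one {U V W : ℝ → ℝ} {θ : ℝ} (hθ0 : 0 ≤ θ) (hθ1 : θ ≤ 1)
    (hU : Continuous U) (hV : Continuous V) (hW : Continuous W)
    (iU : IntegrableOn (fun s => Real.exp (-U s)) (Ioi 0))
    (iV : IntegrableOn (fun s => Real.exp (-V s)) (Ioi 0))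
    (iW : IntegrableOn (fun s => Real.exp (-W s)) (Ioi 0))
    (h : ∀ s t, W ((1 - θ) * s + θ * t) ≤ (1 - θ) * U s + θ * V t) :
    (1 - θ) * Real.log (∫ s in Ioi 0, Real.exp (-U s))
      + θ * Real.log (∫ s in Ioi 0, Real.exp (-V s))
      ≤ Real.log (∫ s in Ioi 0, Real.exp (-W s)) := by
  have : NeZero (volume.restrict (Ioi (0 : ℝ))) := ⟨by simp⟩
  have pU : 0 < ∫ s in Ioi 0, Real.exp (-U s) := integral_exp_pos iU
  have pV : 0 < ∫ s in Ioi 0, Real.exp (-V s) := integral_exp_pos iV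
  have pW : 0 < ∫ s in Ioi 0, Real.exp (-W s) := integral_exp_pos iW
  set IU := ∫ s in Ioi 0, Real.exp (-U s) with hIU
  set IV := ∫ s in Ioi 0, Real.exp (-V s) with hIV
  set IW := ∫ s in Ioi 0, Real.exp (-W s) with hIW
  have cU : Continuous fun s => Real.exp (-U s) := by fun_prop
  have cV : Continuous fun s => Real.exp (-V s) := by fun_prop
  have cW : Continuous fun s => Real.exp (-W s) := by fun_prop
  obtain ⟨T, hT0, hT⟩ := transport (φ := fun s => Real.exp (-U s) / IU)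
    (ψ := fun s => Real.exp (-V s) / IV) (a := -1) (b := -1) (s₀ := 0) (t₀ := 0)
    (cU.div_const _).continuousOn (cV.div_const _).continuousOn (by norm_num) (by norm_num)
    (fun s _ => by positivity) (fun s _ => by positivity) (iU.div_const _) (iV.div_const _)
    (by rw [integral_div, integral_div, ← hIU, ← hIV, div_self pU.ne', div_self pV.ne'])
  set c : ℝ := Real.exp (θ * (Real.log IV - Real.log IU)) with hc
  set r : ℝ → ℝ := fun s => (1 - θ) * s + θ * T s with hr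
  set H : ℝ → ℝ := fun u => ∫ x in (0 : ℝ)..u, Real.exp (-W x) with hH
  have hd : ∀ s, 0 ≤ s → HasDerivAt (fun s => H (r s))
      (Real.exp (-W (r s)) * ((1 - θ) + θ * (Real.exp (-U s) / IU / (Real.exp (-V (T s)) / IV))))
      s := by
    intro s hs
    have h1 : HasDerivAt r ((1 - θ) * 1 + θ * (Real.exp (-U s) / IU / (Real.exp (-V (T s)) / IV)))
        s := ((hasDerivAt_id s).const_mul _).add ((hT s hs).2.const_mul _)
    have h2 : HasDerivAt H (Real.exp (-W (r s))) (r s) := (cW.integral_hasStrictDerivAt 0 _).hasDerivAt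
    have := h2.comp s h1
    rw [mul_one] at this
    exact this
  have hle : ∀ s, 0 ≤ s → c * Real.exp (-U s) ≤
      Real.exp (-W (r s)) * ((1 - θ) + θ * (Real.exp (-U s) / IU / (Real.exp (-V (T s)) / IV))) := by
    intro s hs
    have e1 : Real.exp (-U s) / IU / (Real.exp (-V (T s)) / IV)
        = Real.exp (-U s + V (T s) + (Real.log IV - Real.log IU)) := by
      rw [Real.exp_add, Real.exp_add, Real.exp_sub, Real.exp_log pU, Real.exp_log pV,
        Real.exp_neg (V (T s))]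
      field_simp
    have e2 := convexOn_exp.2 (mem_univ 0)
      (mem_univ (-U s + V (T s) + (Real.log IV - Real.log IU))) (sub_nonneg.2 hθ1) hθ0
      (by ring)
    simp only [smul_eq_mul, mul_zero, zero_add, Real.exp_zero, mul_one] at e2
    rw [e1]
    have e3 : Real.exp (-((1 - θ) * U s + θ * V (T s))) ≤ Real.exp (-W (r s)) :=
      Real.exp_le_exp.2 (neg_le_neg (h s (T s)))
    calc c * Real.exp (-U s)
        = Real.exp (-((1 - θ) * U s + θ * V (T s)))
          * Real.exp (θ * (-U s + V (T s) + (Real.log IV - Real.log IU))) := by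
          rw [hc, ← Real.exp_add, ← Real.exp_add]; congr 1; ring
      _ ≤ _ := mul_le_mul e3 e2 (by positivity) (by positivity)
  have hS : ∀ S, 0 ≤ S → c * ∫ x in (0 : ℝ)..S, Real.exp (-U x) ≤ IW := by
    intro S hS
    have h1 := intervalIntegral.integral_le_sub_of_hasDeriv_right_of_le hS
      (g := fun s => H (r s)) (φ := fun s => c * Real.exp (-U s))
      (fun s hs => (hd s hs.1).continuousAt.continuousWithinAt)
      (fun s hs => (hd s hs.1.le).hasDerivWithinAt)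
      ((cU.const_mul c).continuousOn.integrableOn_Icc) (fun s hs => hle s hs.1.le)
    rw [intervalIntegral.integral_const_mul] at h1
    have h2 : H (r 0) = 0 := by simp [hH, hr, hT0]
    have h3 : H (r S) < IW := prim_lt (b := -1) cW.continuousOn (by norm_num)
      (fun t _ => by positivity) iW (by
        have := (hT S hS).1
        have : 0 ≤ r S := add_nonneg (mul_nonneg (sub_nonneg.2 hθ1) hS) (mul_nonneg hθ0 this)
        linarith)
    linarith
  have hlim : c * IU ≤ IW := by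
    refine le_of_tendsto ((intervalIntegral_tendsto_integral_Ioi 0 iU tendsto_id).const_mul c) ?_
    filter_upwards [eventually_ge_atTop 0] with S hS' using hS S hS'
  have := Real.log_le_log (by positivity) hlim
  rw [Real.log_mul (by positivity) pU.ne', hc, Real.log_exp] at this
  linarith

theorem half_bound {g k g' A : ℝ → ℝ} {s₀ t₀ : ℝ} (hs₀ : 0 < s₀) (ht₀ : 0 < t₀)
    (hg : ∀ s, HasDerivAt g (g' s) s) (hk : Continuous k)
    (gp : ∀ s, 0 < g s) (kp : ∀ s, 0 < k s)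
    (gi : IntegrableOn (fun s => g s / s) (Ioi s₀)) (ki : IntegrableOn (fun s => k s / s) (Ioi t₀))
    (hI : ∫ s in Ioi s₀, g s / s = ∫ s in Ioi t₀, k s / s)
    (hA : IntegrableOn A (Ioi s₀))
    (H : ∀ s t, 0 < s → 0 < t → t * A s ≤ -s * g' s + g s * (Real.log (g s) - Real.log (k t))) :
    ∫ s in Ioi s₀, A s ≤ s₀ * g s₀ / t₀ := by
  have gc : Continuous g := continuous_iff_continuousAt.2 fun s => (hg s).continuousAt
  obtain ⟨T, hT0, hT⟩ := transport (φ := fun s => g s / s) (ψ := fun s => k s / s)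
    (a := 0) (b := 0) (gc.continuousOn.div continuousOn_id fun s hs => ne_of_gt hs)
    (hk.continuousOn.div continuousOn_id fun s hs => ne_of_gt hs) hs₀ ht₀
    (fun s hs => div_pos (gp s) hs) (fun s hs => div_pos (kp s) hs) gi ki hI
  have hd : ∀ s, s₀ ≤ s → HasDerivAt (fun s => -(s * g s / T s))
      (-(((1 * g s + s * g' s) * T s - s * g s * (g s / s / (k (T s) / T s))) / T s ^ 2)) s := by
    intro s hs
    exact (((hasDerivAt_id s).mul (hg s)).div (hT s hs).2 (ht₀.trans_le (hT s hs).1).ne').neg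
  have hle : ∀ s, s₀ ≤ s → A s ≤
      (-(((1 * g s + s * g' s) * T s - s * g s * (g s / s / (k (T s) / T s))) / T s ^ 2)) := by
    intro s hs
    have hs' : 0 < s := hs₀.trans_le hs
    have ht' : 0 < T s := ht₀.trans_le (hT s hs).1
    have h1 := H s (T s) hs' ht'
    have h2 : Real.log (g s) - Real.log (k (T s)) ≤ g s / k (T s) - 1 := by
      rw [← Real.log_div (gp s).ne' (kp _).ne']
      exact Real.log_le_sub_one_of_pos (div_pos (gp s) (kp _))
    have h3 : T s * A s ≤ -s * g' s + g s * (g s / k (T s) - 1) :=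
      h1.trans (by gcongr; exact (gp s).le)
    have e : (-(((1 * g s + s * g' s) * T s - s * g s * (g s / s / (k (T s) / T s))) / T s ^ 2))
        = (-s * g' s + g s * (g s / k (T s) - 1)) / T s := by
      have := (kp (T s)).ne'
      field_simp
      ring
    rw [e, le_div_iff₀ ht']
    linarith
  refine le_of_tendsto (intervalIntegral_tendsto_integral_Ioi s₀ hA tendsto_id) ?_
  filter_upwards [eventually_ge_atTop s₀] with S hS
  have h1 := intervalIntegral.integral_le_sub_of_hasDeriv_right_of_le hS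
      (g := fun s => -(s * g s / T s)) (φ := A)
      (fun s hs => (hd s hs.1).continuousAt.continuousWithinAt)
      (fun s hs => (hd s hs.1.le).hasDerivWithinAt)
      ((integrableOn_Icc_iff_integrableOn_Ioc).2 (hA.mono_set Ioc_subset_Ioi_self))
      (fun s hs => hle s hs.1.le)
  have h2 : 0 ≤ S * g S / T S :=
    div_nonneg (mul_nonneg (hs₀.le.trans hS) (gp S).le) (ht₀.le.trans (hT S hS).1)
  simp only [hT0, id] at h1 ⊢
  linarith

theorem integrableOn_div_id {g : ℝ → ℝ} (gc : Continuous g) (gi : IntegrableOn g (Ioi 0))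
    {s₀ : ℝ} (hs₀ : 0 < s₀) : IntegrableOn (fun s => g s / s) (Ioi s₀) := by
  refine Integrable.mono' ((gi.mono_set (Ioi_subset_Ioi hs₀.le)).norm.div_const s₀) ?_ ?_
  · exact (gc.measurable.div measurable_id).aestronglyMeasurable
  · filter_upwards [ae_restrict_mem measurableSet_Ioi] with s hs
    have hs' : 0 < s := hs₀.trans hs
    rw [norm_div, Real.norm_of_nonneg hs'.le]
    gcongr
    exact le_of_lt hs

theorem tail_tendsto_atTop {g : ℝ → ℝ} (gc : Continuous g) (gi : IntegrableOn g (Ioi 0))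
    (gp : ∀ s, 0 < g s) :
    Tendsto (fun s₀ => ∫ s in Ioi s₀, g s / s) (𝓝[>] 0) atTop := by
  obtain ⟨x, -, hx⟩ := (isCompact_Icc (a := (0 : ℝ)) (b := 1)).exists_isMinOn
    (nonempty_Icc.2 zero_le_one) gc.continuousOn
  have h1 : Tendsto (fun s₀ : ℝ => g x * (-Real.log s₀)) (𝓝[>] 0) atTop :=
    (tendsto_neg_atBot_atTop.comp Real.tendsto_log_nhdsGT_zero).const_mul_atTop (gp x)
  refine tendsto_atTop_mono' _ ?_ h1
  filter_upwards [Ioo_mem_nhdsGT (zero_lt_one (α := ℝ))] with s₀ hs₀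
  have hc : ContinuousOn (fun s => g s / s) (Ioi 0) :=
    gc.continuousOn.div continuousOn_id fun s hs => ne_of_gt hs
  have h2 := prim_lt hc hs₀.1 (fun s hs => div_pos (gp s) hs) (integrableOn_div_id gc gi hs₀.1)
    (t := 1) one_pos
  refine le_trans ?_ h2.le
  have h3 : ∫ s in s₀..1, g x * s⁻¹ = g x * (-Real.log s₀) := by
    rw [intervalIntegral.integral_const_mul, integral_inv_of_pos hs₀.1 one_pos, one_div,
      Real.log_inv]
  rw [← h3]
  have hsub : uIcc s₀ 1 ⊆ Ioi 0 := fun y hy => lt_of_lt_of_le (lt_min hs₀.1 one_pos) hy.1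
  refine intervalIntegral.integral_mono_on hs₀.2.le ?_ (hc.mono hsub).intervalIntegrable ?_
  · refine ContinuousOn.intervalIntegrable ?_
    exact continuousOn_const.mul (continuousOn_inv₀.mono fun y hy => ne_of_gt (hsub hy))
  · intro y hy
    have hy0 : 0 < y := hs₀.1.trans_le hy.1
    rw [div_eq_mul_inv]
    exact mul_le_mul_of_nonneg_right (hx ⟨hy0.le, hy.2⟩) (inv_nonneg.2 hy0.le)

theorem exists_match {g : ℝ → ℝ} (gc : Continuous g) (gi : IntegrableOn g (Ioi 0))
    (gp : ∀ s, 0 < g s) {δ c : ℝ} (hδ : 0 < δ) (hc : ∫ s in Ioi δ, g s / s ≤ c) :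
    ∃ s₀, 0 < s₀ ∧ s₀ ≤ δ ∧ ∫ s in Ioi s₀, g s / s = c := by
  obtain ⟨u, hu1, hu2⟩ := (((tail_tendsto_atTop gc gi gp).eventually_ge_atTop c).and
    (Ioo_mem_nhdsGT hδ)).exists
  have hcd : ContinuousOn (fun s => g s / s) (Ioi 0) :=
    gc.continuousOn.div continuousOn_id fun s hs => ne_of_gt hs
  have hcont : ContinuousOn (fun s₀ => ∫ s in Ioi s₀, g s / s) (Icc u δ) := by
    have : ContinuousOn (fun s₀ => (∫ s in Ioi u, g s / s) - ∫ s in u..s₀, g s / s) (Icc u δ) :=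
      continuousOn_const.sub fun t ht => (prim_hasStrictDerivAt hcd hu2.1
        (hu2.1.trans_le ht.1)).hasDerivAt.continuousAt.continuousWithinAt
    refine this.congr fun t ht => ?_
    have := intervalIntegral.integral_Ioi_sub_Ioi (integrableOn_div_id gc gi hu2.1) ht.1
    simp only
    linarith
  obtain ⟨s₀, hs₀, e⟩ := intermediate_value_Icc' hu2.2.le hcont ⟨hc, hu1⟩
  exact ⟨s₀, hu2.1.trans_le hs₀.1, hs₀.2, e⟩

theorem tail_tendsto {A : ℝ → ℝ} (hA : IntegrableOn A (Ioi 0)) :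
    Tendsto (fun s₀ => ∫ s in Ioi s₀, A s) (𝓝[>] 0) (𝓝 (∫ s in Ioi 0, A s)) := by
  have h1 : ContinuousOn (fun u => ∫ s in (0 : ℝ)..u, A s) (uIcc 0 1) :=
    intervalIntegral.continuousOn_primitive_interval'
      ((intervalIntegrable_iff_integrableOn_Ioc_of_le zero_le_one).2
        (hA.mono_set Ioc_subset_Ioi_self)) left_mem_uIcc
  have h2 : Tendsto (fun u => ∫ s in (0 : ℝ)..u, A s) (𝓝[>] 0) (𝓝 0) := by
    have := (h1 0 left_mem_uIcc).tendsto
    simp only [intervalIntegral.integral_same] at this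
    refine this.mono_left ?_
    rw [uIcc_of_le zero_le_one]
    refine le_inf nhdsWithin_le_nhds ?_
    exact le_principal_iff.2
      (mem_of_superset (Ioo_mem_nhdsGT (zero_lt_one (α := ℝ))) Ioo_subset_Icc_self)
  have h3 := h2.const_sub (∫ s in Ioi 0, A s)
  rw [sub_zero] at h3
  refine h3.congr' ?_
  filter_upwards [self_mem_nhdsWithin] with u hu
  have := intervalIntegral.integral_Ioi_sub_Ioi hA (le_of_lt hu)
  linarith

/-- The two-dimensional lemma: boundary fluxes of a log-concave function on a quadrant. -/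
theorem two_dim {g k g' k' A B : ℝ → ℝ}
    (hg : ∀ s, HasDerivAt g (g' s) s) (hk : ∀ s, HasDerivAt k (k' s) s)
    (gp : ∀ s, 0 < g s) (kp : ∀ s, 0 < k s)
    (gi : IntegrableOn g (Ioi 0)) (ki : IntegrableOn k (Ioi 0))
    (hA : IntegrableOn A (Ioi 0)) (hB : IntegrableOn B (Ioi 0))
    (H1 : ∀ s t, 0 < s → 0 < t → t * A s ≤ -s * g' s + g s * (Real.log (g s) - Real.log (k t)))
    (H2 : ∀ s t, 0 < s → 0 < t → t * B s ≤ -s * k' s + k s * (Real.log (k s) - Real.log (g t))) :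
    max (∫ s in Ioi 0, A s) 0 * max (∫ s in Ioi 0, B s) 0 ≤ g 0 * k 0 := by
  have gc : Continuous g := continuous_iff_continuousAt.2 fun s => (hg s).continuousAt
  have kc : Continuous k := continuous_iff_continuousAt.2 fun s => (hk s).continuousAt
  set L : Filter (ℝ × ℝ) := 𝓝[>] 0 ×ˢ 𝓝[>] 0 with hL
  have t1 : Tendsto (fun p : ℝ × ℝ => max (∫ s in Ioi p.1, A s) 0 * max (∫ s in Ioi p.2, B s) 0) L
      (𝓝 (max (∫ s in Ioi 0, A s) 0 * max (∫ s in Ioi 0, B s) 0)) :=
    (((tail_tendsto hA).comp tendsto_fst).max tendsto_const_nhds).mul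
      (((tail_tendsto hB).comp tendsto_snd).max tendsto_const_nhds)
  have t2 : Tendsto (fun p : ℝ × ℝ => g p.1 * k p.2) L (𝓝 (g 0 * k 0)) :=
    ((gc.continuousAt.tendsto.mono_left nhdsWithin_le_nhds).comp tendsto_fst).mul
      ((kc.continuousAt.tendsto.mono_left nhdsWithin_le_nhds).comp tendsto_snd)
  have hfr : ∃ᶠ p : ℝ × ℝ in L,
      max (∫ s in Ioi p.1, A s) 0 * max (∫ s in Ioi p.2, B s) 0 ≤ g p.1 * k p.2 := by
    have key : ∀ s₀ t₀, 0 < s₀ → 0 < t₀ → ∫ s in Ioi s₀, g s / s = ∫ s in Ioi t₀, k s / s →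
        max (∫ s in Ioi s₀, A s) 0 * max (∫ s in Ioi t₀, B s) 0 ≤ g s₀ * k t₀ := by
      intro s₀ t₀ hs₀ ht₀ hI
      have b1 := half_bound hs₀ ht₀ hg kc gp kp (integrableOn_div_id gc gi hs₀)
        (integrableOn_div_id kc ki ht₀) hI (hA.mono_set (Ioi_subset_Ioi hs₀.le)) H1
      have b2 := half_bound ht₀ hs₀ hk gc kp gp (integrableOn_div_id kc ki ht₀)
        (integrableOn_div_id gc gi hs₀) hI.symm (hB.mono_set (Ioi_subset_Ioi ht₀.le)) H2
      have p1 : 0 ≤ s₀ * g s₀ / t₀ := (div_pos (mul_pos hs₀ (gp _)) ht₀).le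
      have p2 : 0 ≤ t₀ * k t₀ / s₀ := (div_pos (mul_pos ht₀ (kp _)) hs₀).le
      calc _ ≤ (s₀ * g s₀ / t₀) * (t₀ * k t₀ / s₀) :=
            mul_le_mul (max_le b1 p1) (max_le b2 p2) (le_max_right _ _) p1
        _ = g s₀ * k t₀ := by field_simp
    have hb := (nhdsGT_basis (0 : ℝ)).prod (nhdsGT_basis (0 : ℝ))
    rw [hL, hb.frequently_iff]
    rintro ⟨a, b⟩ ⟨ha, hb⟩
    simp only at ha hb
    have hδ : 0 < min a b / 2 := by positivity
    have hδa : min a b / 2 < a := by have := min_le_left a b; linarith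
    have hδb : min a b / 2 < b := by have := min_le_right a b; linarith
    rcases le_total (∫ s in Ioi (min a b / 2), g s / s) (∫ s in Ioi (min a b / 2), k s / s)
      with h | h
    · obtain ⟨s₀, h1, h2, h3⟩ := exists_match gc gi gp hδ h
      exact ⟨(s₀, min a b / 2), ⟨⟨h1, h2.trans_lt hδa⟩, ⟨hδ, hδb⟩⟩, key _ _ h1 hδ h3⟩
    · obtain ⟨s₀, h1, h2, h3⟩ := exists_match kc ki kp hδ h
      exact ⟨(min a b / 2, s₀), ⟨⟨hδ, hδa⟩, ⟨h1, h2.trans_lt hδb⟩⟩, key _ _ hδ h1 h3.symm⟩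
  exact le_of_tendsto_of_tendsto_of_frequently t1 t2 hfr

end Pool.Agent.P.MP_bc3e0b_gt
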